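import Mathlib

/-!
Descent along extensions of the base field.
-/

set_option autoImplicit false
set_option linter.unusedSectionVars false

universe u

namespace Pool.Agent.TH719.HHq

open MvPolynomial

section

variable {k K : Type u} [Field k] [Field K] [Algebra k K] {N : ℕ}

/-- a functional applied to the coefficients -/
noncomputable def Lam (l : K →ₗ[k] k) (G : MvPolynomial (Fin N) K) : MvPolynomial (Fin N) k :=
  ∑ c ∈ G.support, monomial c (l (coeff c G))

theorem coeff_Lam (l : K →ₗ[k] k) (G : MvPolynomial (Fin N) K) (c : Fin N →₀ ℕ) :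
    coeff c (Lam l G) = l (coeff c G) := by
  classical
  unfold Lam
  rw [coeff_sum]
  simp only [coeff_monomial]
  rw [Finset.sum_ite_eq' G.support c]
  split_ifs with h
  · rfl
  · rw [notMem_support_iff.1 h, map_zero]

theorem Lam_add (l : K →ₗ[k] k) (G H : MvPolynomial (Fin N) K) :
    Lam l (G + H) = Lam l G + Lam l H := by
  ext c
  rw [coeff_add, coeff_Lam, coeff_Lam, coeff_Lam, coeff_add, map_add]

theorem Lam_zero (l : K →ₗ[k] k) : Lam l (0 : MvPolynomial (Fin N) K) = 0 := by
  ext c
  rw [coeff_Lam, coeff_zero, map_zero, coeff_zero]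

theorem Lam_mul (l : K →ₗ[k] k) (H : MvPolynomial (Fin N) K) (g : MvPolynomial (Fin N) k) :
    Lam l (H * MvPolynomial.map (algebraMap k K) g) = Lam l H * g := by
  classical
  ext c
  rw [coeff_Lam, coeff_mul, coeff_mul, map_sum]
  apply Finset.sum_congr rfl
  intro x _
  rw [coeff_map, coeff_Lam, mul_comm (coeff x.1 H), ← Algebra.smul_def, map_smul, smul_eq_mul,
    mul_comm]

theorem Lam_map (l : K →ₗ[k] k) (h1 : l 1 = 1) (g : MvPolynomial (Fin N) k) :
    Lam l (MvPolynomial.map (algebraMap k K) g) = g := by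
  ext c
  rw [coeff_Lam, coeff_map, Algebra.algebraMap_eq_smul_one, map_smul, h1, smul_eq_mul, mul_one]

theorem Lam_mem (l : K →ₗ[k] k) {J : Ideal (MvPolynomial (Fin N) k)}
    {G : MvPolynomial (Fin N) K}
    (hG : G ∈ Ideal.map (MvPolynomial.map (algebraMap k K)) J) : Lam l G ∈ J := by
  have key : ∀ H : MvPolynomial (Fin N) K, Lam l (H * G) ∈ J := by
    unfold Ideal.map at hG
    refine Submodule.span_induction (p := fun x _ => ∀ H, Lam l (H * x) ∈ J) ?_ ?_ ?_ ?_ hG
    · rintro _ ⟨g, hg, rfl⟩ H
      rw [Lam_mul]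
      exact Ideal.mul_mem_left _ _ hg
    · intro H
      rw [mul_zero, Lam_zero]
      exact Ideal.zero_mem _
    · intro x y _ _ hx hy H
      rw [mul_add, Lam_add]
      exact Ideal.add_mem _ (hx H) (hy H)
    · intro a x _ hx H
      rw [smul_eq_mul, ← mul_assoc]
      exact hx (H * a)
  have := key 1
  rwa [one_mul] at this

theorem mem_of_Lam {J : Ideal (MvPolynomial (Fin N) k)} {G : MvPolynomial (Fin N) K}
    (h : ∀ l : K →ₗ[k] k, Lam l G ∈ J) :
    G ∈ Ideal.map (MvPolynomial.map (algebraMap k K)) J := by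
  classical
  set b := Module.Free.chooseBasis k K with hb
  set T := G.support.biUnion (fun c => (b.repr (coeff c G)).support) with hT
  have h1 : G = ∑ j ∈ T, C (b j) * MvPolynomial.map (algebraMap k K) (Lam (b.coord j) G) := by
    ext c
    rw [coeff_sum]
    by_cases hc : c ∈ G.support
    · have h2 : coeff c G = ∑ j ∈ (b.repr (coeff c G)).support,
          (b.repr (coeff c G)) j • b j := by
        conv_lhs => rw [← b.linearCombination_repr (coeff c G)]
        rw [Finsupp.linearCombination_apply, Finsupp.sum]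
      conv_lhs => rw [h2]
      rw [← Finset.sum_subset (Finset.subset_biUnion_of_mem
        (fun c => (b.repr (coeff c G)).support) hc)]
      · apply Finset.sum_congr rfl
        intro j _
        rw [coeff_C_mul, coeff_map, coeff_Lam, Module.Basis.coord_apply, Algebra.smul_def, mul_comm]
      · intro j _ hj
        rw [coeff_C_mul, coeff_map, coeff_Lam, Module.Basis.coord_apply,
          Finsupp.notMem_support_iff.1 hj, map_zero, mul_zero]
    · rw [notMem_support_iff.1 hc]
      symm
      apply Finset.sum_eq_zero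
      intro j _
      rw [coeff_C_mul, coeff_map, coeff_Lam, notMem_support_iff.1 hc, map_zero, map_zero, mul_zero]
  rw [h1]
  apply Ideal.sum_mem
  intro j _
  exact Ideal.mul_mem_left _ _ (Ideal.mem_map_of_mem _ (h _))

theorem descend_mem {J : Ideal (MvPolynomial (Fin N) k)} {g : MvPolynomial (Fin N) k}
    (h : MvPolynomial.map (algebraMap k K) g ∈
      Ideal.map (MvPolynomial.map (algebraMap k K)) J) : g ∈ J := by
  obtain ⟨l, hl⟩ := LinearMap.exists_leftInverse_of_injective (Algebra.linearMap k K)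
    (LinearMap.ker_eq_bot.2 (FaithfulSMul.algebraMap_injective k K))
  have h1 : l 1 = 1 := by
    have := LinearMap.congr_fun hl 1
    simpa using this
  have h2 := Lam_mem l h
  rwa [Lam_map l h1] at h2

/-- the ideal of a point -/
noncomputable def ptI {k : Type u} [Field k] {n : ℕ} (q : Fin (n + 1) → k) :
    Ideal (MvPolynomial (Fin (n + 1)) k) :=
  Ideal.span (Set.range (fun jl : Fin (n + 1) × Fin (n + 1) =>
    (X jl.1 * C (q jl.2) - X jl.2 * C (q jl.1) : MvPolynomial (Fin (n + 1)) k)))

/-- the ideal generated by the variables -/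
noncomputable def mxI (k : Type u) [Field k] (n : ℕ) :
    Ideal (MvPolynomial (Fin (n + 1)) k) :=
  Ideal.span (Set.range (fun j : Fin (n + 1) => (X j : MvPolynomial (Fin (n + 1)) k)))

theorem map_ptI {n : ℕ} (q : Fin (n + 1) → k) :
    Ideal.map (MvPolynomial.map (algebraMap k K)) (ptI q) = ptI (fun i => algebraMap k K (q i)) := by
  unfold ptI
  rw [Ideal.map_span, ← Set.range_comp]
  congr 2
  ext jl
  simp

theorem map_mxI (n : ℕ) :
    Ideal.map (MvPolynomial.map (algebraMap k K)) (mxI k n) = mxI K n := by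
  unfold mxI
  rw [Ideal.map_span, ← Set.range_comp]
  congr 2
  ext jl
  simp

theorem iInf_le_map {n s : ℕ} (P : Fin s → Fin (n + 1) → k) (w : Fin s → ℕ) :
    (⨅ i, ptI (fun j => algebraMap k K (P i j)) ^ w i) ≤
      Ideal.map (MvPolynomial.map (algebraMap k K)) (⨅ i, ptI (P i) ^ w i) := by
  intro G hG
  apply mem_of_Lam
  intro l
  rw [Submodule.mem_iInf] at hG ⊢
  intro i
  apply Lam_mem l
  rw [Ideal.map_pow, map_ptI]
  exact hG i

theorem map_iInf_le' {n s : ℕ} (P : Fin s → Fin (n + 1) → k) (w : Fin s → ℕ) :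
    Ideal.map (MvPolynomial.map (algebraMap k K)) (⨅ i, ptI (P i) ^ w i) ≤
      (⨅ i, ptI (fun j => algebraMap k K (P i j)) ^ w i) := by
  refine le_iInf fun i => ?_
  rw [← map_ptI, ← Ideal.map_pow]
  exact Ideal.map_mono (iInf_le _ i)

theorem descend {n s a t : ℕ} (P : Fin s → Fin (n + 1) → k) (w : Fin s → ℕ)
    {g : MvPolynomial (Fin (n + 1)) k}
    (h : MvPolynomial.map (algebraMap k K) g ∈
      mxI K n ^ a * (⨅ i, ptI (fun j => algebraMap k K (P i j)) ^ w i) ^ t) :
    g ∈ mxI k n ^ a * (⨅ i, ptI (P i) ^ w i) ^ t := by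
  apply descend_mem (K := K)
  rw [Ideal.map_mul, Ideal.map_pow, Ideal.map_pow, map_mxI]
  exact Ideal.mul_mono le_rfl (Ideal.pow_right_mono (iInf_le_map P w) t) h

end

end Pool.Agent.TH719.HHq
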