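import Pool.Agent.TH719.HHq.Cor
import Pool.Agent.TH719.HHq.BaseChange

/-!
The containments over arbitrary fields of positive characteristic.
-/

set_option autoImplicit false
set_option linter.unusedSectionVars false

universe u

namespace Pool.Agent.TH719.HHq

open MvPolynomial Pool.Agent.H737R3

section

variable {k : Type u} [Field k]

theorem ptI_eq {n : ℕ} {q : Fin (n + 1) → k} (hq : q ≠ 0) : ptI q = linI q := span_eq_linI hq

theorem map_ne_zero' (K : Type u) [Field K] [Algebra k K] {n : ℕ} {q : Fin (n + 1) → k}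
    (hq : q ≠ 0) : (fun j => algebraMap k K (q j)) ≠ 0 := by
  intro h
  apply hq
  ext j
  have h1 := congrFun h j
  exact (map_eq_zero _).1 h1

theorem f_all (p : ℕ) [Fact p.Prime] [CharP k p] {n s t c : ℕ}
    (hn : 2 ≤ n) (hs : 0 < s) (ht : 0 < t) (hc : 1 ≤ c) (htc : t ≤ n * c + 1)
    (P : Fin s → Fin (n + 1) → k) (hP : ∀ i, P i ≠ 0) (w : Fin s → ℕ) :
    (⨅ i, ptI (P i) ^ (t * (w i + n - 1))) ≤
      mxI k n ^ (t + 1 - c) * (⨅ i, ptI (P i) ^ w i) ^ t := by
  have : CharP (AlgebraicClosure k) p :=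
    charP_of_injective_algebraMap (FaithfulSMul.algebraMap_injective k (AlgebraicClosure k)) p
  have : PerfectRing (AlgebraicClosure k) p := PerfectField.toPerfectRing p
  intro F hF
  apply descend (K := AlgebraicClosure k)
  have h1 := map_iInf_le' (K := AlgebraicClosure k) P _ (Ideal.mem_map_of_mem _ hF)
  have hP' := fun i => map_ne_zero' (AlgebraicClosure k) (hP i)
  have h2 := cont_all p hn hs ht hc htc
    (fun i j => algebraMap k (AlgebraicClosure k) (P i j)) hP' w
  simp only [ptI_eq (hP' _)] at h1 ⊢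
  exact h2 h1

theorem f_mul (p : ℕ) [Fact p.Prime] [CharP k p] {n s t c : ℕ}
    (hn : 2 ≤ n) (hs : 0 < s) (ht : 0 < t) (htc : t ≤ n * (c + 1) + 1)
    (P : Fin s → Fin (n + 1) → k) (hP : ∀ i, P i ≠ 0) (w : Fin s → ℕ) :
    mxI k n ^ c * (⨅ i, ptI (P i) ^ (t * (w i + n - 1))) ≤
      mxI k n ^ t * (⨅ i, ptI (P i) ^ w i) ^ t := by
  have : CharP (AlgebraicClosure k) p :=
    charP_of_injective_algebraMap (FaithfulSMul.algebraMap_injective k (AlgebraicClosure k)) p
  have : PerfectRing (AlgebraicClosure k) p := PerfectField.toPerfectRing p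
  intro F hF
  apply descend (K := AlgebraicClosure k)
  have h1 := Ideal.mem_map_of_mem (MvPolynomial.map (algebraMap k (AlgebraicClosure k))) hF
  rw [Ideal.map_mul, Ideal.map_pow, map_mxI] at h1
  have h3 := Ideal.mul_mono (le_refl (mxI (AlgebraicClosure k) n ^ c))
    (map_iInf_le' (K := AlgebraicClosure k) P (fun i => t * (w i + n - 1))) h1
  have hP' := fun i => map_ne_zero' (AlgebraicClosure k) (hP i)
  have h2 := cont_mul' p hn hs ht htc
    (fun i j => algebraMap k (AlgebraicClosure k) (P i j)) hP' w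
  simp only [ptI_eq (hP' _)] at h3 ⊢
  exact h2 h3

theorem f_extra (p : ℕ) [Fact p.Prime] [CharP k p] {n s t c : ℕ}
    (hn : 2 ≤ n) (hs : 0 < s) (ht : 0 < t) (hc : t ≤ p * c)
    (P : Fin s → Fin (n + 1) → k) (hP : ∀ i, P i ≠ 0) (w : Fin s → ℕ) :
    (⨅ i, ptI (P i) ^ (t * (w i + n - 1) + c)) ≤
      mxI k n ^ t * (⨅ i, ptI (P i) ^ w i) ^ t := by
  have : CharP (AlgebraicClosure k) p :=
    charP_of_injective_algebraMap (FaithfulSMul.algebraMap_injective k (AlgebraicClosure k)) p
  have : PerfectRing (AlgebraicClosure k) p := PerfectField.toPerfectRing p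
  intro F hF
  apply descend (K := AlgebraicClosure k)
  have h1 := map_iInf_le' (K := AlgebraicClosure k) P _ (Ideal.mem_map_of_mem _ hF)
  have hP' := fun i => map_ne_zero' (AlgebraicClosure k) (hP i)
  have h2 := cont_extra p hn hs ht hc
    (fun i j => algebraMap k (AlgebraicClosure k) (P i j)) hP' w
  simp only [ptI_eq (hP' _)] at h1 ⊢
  exact h2 h1

theorem f_form (p : ℕ) [Fact p.Prime] [CharP k p] {n s t d : ℕ}
    (hn : 2 ≤ n) (hs : 0 < s) (ht : 0 < t)
    (P : Fin s → Fin (n + 1) → k) (hP : ∀ i, P i ≠ 0) (w : Fin s → ℕ)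
    {F : MvPolynomial (Fin (n + 1)) k} (hFd : F.IsHomogeneous d)
    (hF : F ∈ ⨅ i, ptI (P i) ^ (t * (w i + n - 1)))
    (h : t ≤ n * (t - d % t) + 1 ∨ ∀ i, d < p * (w i + n - 1) * (t - d % t)) :
    F ∈ mxI k n ^ t * (⨅ i, ptI (P i) ^ w i) ^ t := by
  have : CharP (AlgebraicClosure k) p :=
    charP_of_injective_algebraMap (FaithfulSMul.algebraMap_injective k (AlgebraicClosure k)) p
  have : PerfectRing (AlgebraicClosure k) p := PerfectField.toPerfectRing p
  apply descend (K := AlgebraicClosure k)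
  have h1 := map_iInf_le' (K := AlgebraicClosure k) P _ (Ideal.mem_map_of_mem _ hF)
  have hP' := fun i => map_ne_zero' (AlgebraicClosure k) (hP i)
  have hFd' : (MvPolynomial.map (algebraMap k (AlgebraicClosure k)) F).IsHomogeneous d :=
    hFd.map _
  simp only [ptI_eq (hP' _)] at h1 ⊢
  rcases h with h | h
  · exact cont_form p hn hs ht (fun i j => algebraMap k (AlgebraicClosure k) (P i j)) hP' w h
      hFd' h1
  · exact cont_small p hn hs ht (fun i j => algebraMap k (AlgebraicClosure k) (P i j)) hP' w h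
      hFd' h1

end

end Pool.Agent.TH719.HHq
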