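import Pool.Agent.TH719.HHq.Full2
import Pool.Agent.TH719.HHq.Fields

/-!
Forms of larger order over arbitrary fields of positive characteristic.
-/

set_option autoImplicit false
set_option linter.unusedSectionVars false

universe u

namespace Pool.Agent.TH719.HHq

open MvPolynomial Pool.Agent.H737R3

section

variable {k : Type u} [Field k]

theorem f_extraT (p : ℕ) [Fact p.Prime] [CharP k p] {n s t c : ℕ}
    (hn : 2 ≤ n) (hs : 0 < s) (ht : 0 < t) (hc : t ≤ (c + 1) * (n + 1))
    (P : Fin s → Fin (n + 1) → k) (hP : ∀ i, P i ≠ 0) (w : Fin s → ℕ) :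
    (⨅ i, ptI (P i) ^ (t * (w i + n - 1) + c)) ≤
      mxI k n ^ t * (⨅ i, ptI (P i) ^ w i) ^ t := by
  have : CharP (AlgebraicClosure k) p :=
    charP_of_injective_algebraMap (FaithfulSMul.algebraMap_injective k (AlgebraicClosure k)) p
  have : PerfectRing (AlgebraicClosure k) p := PerfectField.toPerfectRing p
  intro F hF
  apply descend (K := AlgebraicClosure k)
  have h1 := map_iInf_le' (K := AlgebraicClosure k) P _ (Ideal.mem_map_of_mem _ hF)
  have hP' := fun i => map_ne_zero' (AlgebraicClosure k) (hP i)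
  have h2 := cont_extraT p hn hs ht hc
    (fun i j => algebraMap k (AlgebraicClosure k) (P i j)) hP' w
  simp only [ptI_eq (hP' _)] at h1 ⊢
  exact h2 h1

theorem f_formT (p : ℕ) [Fact p.Prime] [CharP k p] {n s t d c : ℕ}
    (hn : 2 ≤ n) (hs : 0 < s) (ht : 0 < t)
    (P : Fin s → Fin (n + 1) → k) (hP : ∀ i, P i ≠ 0) (w : Fin s → ℕ)
    {F : MvPolynomial (Fin (n + 1)) k} (hFd : F.IsHomogeneous d)
    (hF : F ∈ ⨅ i, ptI (P i) ^ (t * (w i + n - 1) + c))
    (h : t ≤ n * (t - d % t) + c * (n + 1) + 1 ∨ ∀ i, d < p * (w i + n - 1) * (t - d % t)) :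
    F ∈ mxI k n ^ t * (⨅ i, ptI (P i) ^ w i) ^ t := by
  rcases h with h | h
  · have : CharP (AlgebraicClosure k) p :=
      charP_of_injective_algebraMap (FaithfulSMul.algebraMap_injective k (AlgebraicClosure k)) p
    have : PerfectRing (AlgebraicClosure k) p := PerfectField.toPerfectRing p
    apply descend (K := AlgebraicClosure k)
    have h1 := map_iInf_le' (K := AlgebraicClosure k) P _ (Ideal.mem_map_of_mem _ hF)
    have hP' := fun i => map_ne_zero' (AlgebraicClosure k) (hP i)
    have hFd' : (MvPolynomial.map (algebraMap k (AlgebraicClosure k)) F).IsHomogeneous d :=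
      hFd.map _
    simp only [ptI_eq (hP' _)] at h1 ⊢
    exact cont_formT p hn hs ht (fun i j => algebraMap k (AlgebraicClosure k) (P i j)) hP' w h
      hFd' h1
  · apply f_form p hn hs ht P hP w hFd _ (Or.inr h)
    rw [Submodule.mem_iInf] at hF ⊢
    exact fun i => Ideal.pow_le_pow_right (Nat.le_add_right _ _) (hF i)

end

end Pool.Agent.TH719.HHq
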