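import Pool.Agent.H737R3.Bridge

/-!
Components of polynomials over perfect fields of characteristic `p` with respect to the basis
`x ^ b`, `b i < q`, over the subring of `q`-th powers, where `q = p ^ e`.
(The case `e = 1` is in `Pool.Agent.H737R3.Cont.Comp`.)
-/

set_option autoImplicit false
set_option linter.unusedSectionVars false

universe u

namespace Pool.Agent.TH719.HHq

open MvPolynomial Pool.Agent.Chud Pool.Agent.H580C Pool.Agent.H737R3

section idx

variable {N : ℕ}

/-- quotient of a multi-index -/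
noncomputable def dv (q : ℕ) (c : Fin N →₀ ℕ) : Fin N →₀ ℕ := c.mapRange (· / q) (Nat.zero_div q)

/-- remainder of a multi-index -/
noncomputable def md (q : ℕ) (c : Fin N →₀ ℕ) : Fin N →₀ ℕ := c.mapRange (· % q) (Nat.zero_mod q)

theorem dv_apply (q : ℕ) (c : Fin N →₀ ℕ) (i : Fin N) : dv q c i = c i / q := by simp [dv]

theorem md_apply (q : ℕ) (c : Fin N →₀ ℕ) (i : Fin N) : md q c i = c i % q := by simp [md]

theorem dv_md (q : ℕ) (c : Fin N →₀ ℕ) : q • dv q c + md q c = c := by
  ext i
  simp only [Finsupp.add_apply, Finsupp.smul_apply, smul_eq_mul, dv_apply, md_apply]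
  exact Nat.div_add_mod _ _

theorem dv_eq {q : ℕ} (hq : 0 < q) {b u : Fin N →₀ ℕ} (hb : ∀ i, b i < q) :
    dv q (q • u + b) = u := by
  ext i
  simp only [Finsupp.add_apply, Finsupp.smul_apply, smul_eq_mul, dv_apply]
  rw [Nat.mul_add_div hq, Nat.div_eq_of_lt (hb i), add_zero]

theorem md_eq {q : ℕ} {b u : Fin N →₀ ℕ} (hb : ∀ i, b i < q) : md q (q • u + b) = b := by
  ext i
  simp only [Finsupp.add_apply, Finsupp.smul_apply, smul_eq_mul, md_apply]
  rw [Nat.mul_add_mod, Nat.mod_eq_of_lt (hb i)]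

theorem md_lt {q : ℕ} (hq : 0 < q) (c : Fin N →₀ ℕ) (i : Fin N) : md q c i < q := by
  rw [md_apply]
  exact Nat.mod_lt _ hq

/-- multi-indices with entries `< q` -/
noncomputable def tf {q : ℕ} (f : Fin N → Fin q) : Fin N →₀ ℕ :=
  Finsupp.equivFunOnFinite.symm (fun i => (f i : ℕ))

theorem tf_apply {q : ℕ} (f : Fin N → Fin q) (i : Fin N) : tf f i = f i := rfl

theorem tf_lt {q : ℕ} (f : Fin N → Fin q) (i : Fin N) : tf f i < q := (f i).2

theorem exists_tf {q : ℕ} {b : Fin N →₀ ℕ} (hb : ∀ i, b i < q) :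
    ∃ f : Fin N → Fin q, tf f = b := by
  refine ⟨fun i => ⟨b i, hb i⟩, ?_⟩
  ext i
  rfl

theorem tf_inj {q : ℕ} : Function.Injective (tf : (Fin N → Fin q) → (Fin N →₀ ℕ)) := by
  intro f g h
  funext i
  have := DFunLike.congr_fun h i
  rw [tf_apply, tf_apply] at this
  exact Fin.ext this

end idx

section comp

variable {k : Type u} [Field k] (p e : ℕ) [Fact p.Prime] [CharP k p] [PerfectRing k p] {N : ℕ}

theorem qpos (p e : ℕ) [Fact p.Prime] : 0 < p ^ e := pow_pos (Fact.out : p.Prime).pos e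

/-- the inverse of the `e`-th iterate of the Frobenius map -/
noncomputable abbrev ifr (x : k) : k := (iterateFrobeniusEquiv k p e).symm x

theorem ifr_pow (x : k) : (ifr p e x) ^ p ^ e = x := by
  have := (iterateFrobeniusEquiv k p e).apply_symm_apply x
  rwa [iterateFrobeniusEquiv_def] at this

theorem ifr_of_pow (x : k) : ifr p e (x ^ p ^ e) = x := by
  have := (iterateFrobeniusEquiv k p e).symm_apply_apply x
  rwa [iterateFrobeniusEquiv_def] at this

theorem ifr_pow_mul (x y : k) : ifr p e (x ^ p ^ e * y) = x * ifr p e y := by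
  have h : ifr p e (x ^ p ^ e * y) = ifr p e (x ^ p ^ e) * ifr p e y := map_mul _ _ _
  rw [h, ifr_of_pow]

/-- the `b`-component -/
noncomputable def cmp (b : Fin N →₀ ℕ) (G : MvPolynomial (Fin N) k) : MvPolynomial (Fin N) k :=
  ∑ c ∈ G.support, if md (p ^ e) c = b then monomial (dv (p ^ e) c) (ifr p e (coeff c G)) else 0

variable {p e}

theorem coeff_cmp {b : Fin N →₀ ℕ} (hb : ∀ i, b i < p ^ e) (u : Fin N →₀ ℕ)
    (G : MvPolynomial (Fin N) k) :
    coeff u (cmp p e b G) = ifr p e (coeff (p ^ e • u + b) G) := by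
  classical
  unfold cmp
  rw [coeff_sum, Finset.sum_eq_single (p ^ e • u + b)]
  · rw [if_pos (md_eq hb), coeff_monomial, if_pos (dv_eq (qpos p e) hb)]
  · intro c _ hc
    by_cases h1 : md (p ^ e) c = b
    · rw [if_pos h1, coeff_monomial, if_neg]
      intro h2
      apply hc
      rw [← dv_md (p ^ e) c, h1, h2]
    · rw [if_neg h1, coeff_zero]
  · intro h
    rw [notMem_support_iff] at h
    rw [if_pos (md_eq hb), h]
    simp

theorem cmp_add {b : Fin N →₀ ℕ} (hb : ∀ i, b i < p ^ e) (G H : MvPolynomial (Fin N) k) :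
    cmp p e b (G + H) = cmp p e b G + cmp p e b H := by
  ext u
  rw [coeff_cmp hb, coeff_add, coeff_add, coeff_cmp hb, coeff_cmp hb]
  exact map_add _ _ _

theorem cmp_zero {b : Fin N →₀ ℕ} (hb : ∀ i, b i < p ^ e) :
    cmp p e b (0 : MvPolynomial (Fin N) k) = 0 := by
  ext u
  rw [coeff_cmp hb, coeff_zero, coeff_zero]
  exact map_zero _

theorem cmp_sum {ι : Type*} {b : Fin N →₀ ℕ} (hb : ∀ i, b i < p ^ e) (s : Finset ι)
    (f : ι → MvPolynomial (Fin N) k) :
    cmp p e b (∑ i ∈ s, f i) = ∑ i ∈ s, cmp p e b (f i) := by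
  classical
  induction s using Finset.induction_on with
  | empty => simp [cmp_zero hb]
  | insert a s ha ih => rw [Finset.sum_insert ha, Finset.sum_insert ha, cmp_add hb, ih]

theorem cmp_pow_mul {b : Fin N →₀ ℕ} (hb : ∀ i, b i < p ^ e) (a h : MvPolynomial (Fin N) k) :
    cmp p e b (a ^ p ^ e * h) = a * cmp p e b h := by
  have hp : 0 < p ^ e := qpos p e
  induction a using MvPolynomial.induction_on' with
  | add a a' ha ha' => rw [add_pow_char_pow, add_mul, cmp_add hb, ha, ha', add_mul]
  | monomial u r =>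
    ext v
    rw [coeff_cmp hb, monomial_pow, coeff_monomial_mul', coeff_monomial_mul']
    by_cases huv : u ≤ v
    · rw [if_pos huv, if_pos]
      · rw [coeff_cmp hb, ifr_pow_mul]
        congr 3
        ext i
        simp only [Finsupp.add_apply, Finsupp.smul_apply, smul_eq_mul, Finsupp.tsub_apply]
        have h1 := huv i
        have h2 : p ^ e * u i ≤ p ^ e * v i := Nat.mul_le_mul_left _ h1
        rw [Nat.mul_sub]
        omega
      · intro i
        simp only [Finsupp.add_apply, Finsupp.smul_apply, smul_eq_mul]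
        have h2 : p ^ e * u i ≤ p ^ e * v i := Nat.mul_le_mul_left _ (huv i)
        omega
    · rw [if_neg huv, if_neg]
      · exact map_zero _
      · intro h
        apply huv
        intro i
        have h1 := h i
        simp only [Finsupp.add_apply, Finsupp.smul_apply, smul_eq_mul] at h1
        have h2 := hb i
        by_contra hcon
        have h3 : p ^ e * (v i + 1) ≤ p ^ e * u i := Nat.mul_le_mul_left _ (by omega)
        have h4 : p ^ e * (v i + 1) = p ^ e * v i + p ^ e := by ring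
        omega

theorem cmp_monomial {b : Fin N →₀ ℕ} (hb : ∀ i, b i < p ^ e) (c : Fin N →₀ ℕ) (r : k) :
    cmp p e b (monomial c r) =
      if md (p ^ e) c = b then monomial (dv (p ^ e) c) (ifr p e r) else 0 := by
  classical
  ext u
  rw [coeff_cmp hb, coeff_monomial]
  by_cases h : md (p ^ e) c = b
  · rw [if_pos h, coeff_monomial]
    by_cases h2 : dv (p ^ e) c = u
    · rw [if_pos h2, if_pos]
      rw [← h, ← h2, dv_md]
    · rw [if_neg h2, if_neg]
      · exact map_zero _
      · intro h3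
        apply h2
        rw [h3, dv_eq (qpos p e) hb]
  · rw [if_neg h, coeff_zero, if_neg]
    · exact map_zero _
    · intro h3
      apply h
      rw [h3, md_eq hb]

theorem cmp_decomp (G : MvPolynomial (Fin N) k) :
    G = ∑ f : Fin N → Fin (p ^ e), (cmp p e (tf f) G) ^ p ^ e * monomial (tf f) 1 := by
  classical
  induction G using MvPolynomial.induction_on' with
  | add a a' ha ha' =>
    conv_lhs => rw [ha, ha']
    rw [← Finset.sum_add_distrib]
    apply Finset.sum_congr rfl
    intro f _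
    rw [cmp_add (tf_lt f), add_pow_char_pow, add_mul]
  | monomial c r =>
    obtain ⟨g, hg⟩ := exists_tf (md_lt (qpos p e) c)
    rw [Finset.sum_eq_single g]
    · rw [cmp_monomial (tf_lt g), if_pos hg.symm, monomial_pow, monomial_mul, ifr_pow, mul_one, hg,
        dv_md]
    · intro f _ hf
      rw [cmp_monomial (tf_lt f), if_neg, zero_pow (qpos p e).ne', zero_mul]
      intro h
      apply hf
      apply tf_inj
      rw [← h, hg]
    · intro h
      exact absurd (Finset.mem_univ g) h

/-- Frobenius power of an ideal -/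
noncomputable def fro (p e : ℕ) [Fact p.Prime] [CharP k p] (I : Ideal (MvPolynomial (Fin N) k)) :
    Ideal (MvPolynomial (Fin N) k) :=
  Ideal.map (iterateFrobenius (MvPolynomial (Fin N) k) p e) I

theorem cmp_mem_of_fro {I : Ideal (MvPolynomial (Fin N) k)} {G : MvPolynomial (Fin N) k}
    (hG : G ∈ fro p e I) {b : Fin N →₀ ℕ} (hb : ∀ i, b i < p ^ e) : cmp p e b G ∈ I := by
  unfold fro Ideal.map at hG
  have key : ∀ h, cmp p e b (h * G) ∈ I := by
    refine Submodule.span_induction (p := fun x _ => ∀ h, cmp p e b (h * x) ∈ I) ?_ ?_ ?_ ?_ hG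
    · rintro _ ⟨a, ha, rfl⟩ h
      rw [iterateFrobenius_def, mul_comm, cmp_pow_mul hb]
      exact Ideal.mul_mem_right _ _ ha
    · intro h
      rw [mul_zero, cmp_zero hb]
      exact I.zero_mem
    · intro x y _ _ hx hy h
      rw [mul_add, cmp_add hb]
      exact I.add_mem (hx h) (hy h)
    · intro a x _ hx h
      rw [smul_eq_mul, ← mul_assoc]
      exact hx (h * a)
  simpa using key 1

theorem fro_of_cmp_mem {I : Ideal (MvPolynomial (Fin N) k)} {G : MvPolynomial (Fin N) k}
    (h : ∀ b : Fin N →₀ ℕ, (∀ i, b i < p ^ e) → cmp p e b G ∈ I) : G ∈ fro p e I := by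
  rw [cmp_decomp (p := p) (e := e) G]
  apply Ideal.sum_mem
  intro f _
  apply Ideal.mul_mem_right
  have := Ideal.mem_map_of_mem (iterateFrobenius (MvPolynomial (Fin N) k) p e)
    (h (tf f) (tf_lt f))
  rwa [iterateFrobenius_def] at this

theorem fro_pow (I : Ideal (MvPolynomial (Fin N) k)) (t : ℕ) :
    (fro p e I) ^ t = fro p e (I ^ t) := by
  unfold fro
  rw [Ideal.map_pow]

theorem fro_mono {I J : Ideal (MvPolynomial (Fin N) k)} (h : I ≤ J) : fro p e I ≤ fro p e J :=
  Ideal.map_mono h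

theorem pow_mem_fro {I : Ideal (MvPolynomial (Fin N) k)} {a : MvPolynomial (Fin N) k}
    (h : a ∈ I) : a ^ p ^ e ∈ fro p e I := by
  have := Ideal.mem_map_of_mem (iterateFrobenius (MvPolynomial (Fin N) k) p e) h
  rwa [iterateFrobenius_def] at this

/-- degrees of components -/
theorem cmp_degree {b : Fin N →₀ ℕ} (hb : ∀ i, b i < p ^ e) {G : MvPolynomial (Fin N) k} {D : ℕ}
    (hG : G.IsHomogeneous D) {u : Fin N →₀ ℕ} (hu : coeff u (cmp p e b G) ≠ 0) :
    p ^ e * u.degree + b.degree = D := by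
  rw [coeff_cmp hb] at hu
  have h1 : coeff (p ^ e • u + b) G ≠ 0 := by
    intro h
    apply hu
    rw [h]
    exact map_zero _
  have h2 := hG h1
  have h3 : (p ^ e • u + b).degree = D := by
    rw [Finsupp.degree_eq_weight_one]
    exact h2
  rw [map_add, map_nsmul, smul_eq_mul] at h3
  exact h3

theorem cmp_homog {b : Fin N →₀ ℕ} (hb : ∀ i, b i < p ^ e) {G : MvPolynomial (Fin N) k} {D l : ℕ}
    (hG : G.IsHomogeneous D) (hl : p ^ e * l + b.degree = D) :
    (cmp p e b G).IsHomogeneous l := by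
  intro u hu
  have h1 := cmp_degree hb hG hu
  have hp : 0 < p ^ e := qpos p e
  have h2 : p ^ e * u.degree = p ^ e * l := by omega
  have h3 := Nat.eq_of_mul_eq_mul_left hp h2
  have h4 : u.degree = l := h3
  rw [Finsupp.degree_eq_weight_one] at h4
  exact h4

theorem cmp_homog' {b : Fin N →₀ ℕ} (hb : ∀ i, b i < p ^ e) {G : MvPolynomial (Fin N) k} {D : ℕ}
    (hG : G.IsHomogeneous D) (h0 : cmp p e b G ≠ 0) :
    ∃ l, p ^ e * l + b.degree = D ∧ (cmp p e b G).IsHomogeneous l := by
  obtain ⟨u, hu⟩ := MvPolynomial.ne_zero_iff.1 h0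
  have h1 := cmp_degree hb hG hu
  exact ⟨u.degree, h1, cmp_homog hb hG h1⟩

/-- components of polynomials of small degree -/
theorem cmp_of_small {b : Fin N →₀ ℕ} (hb : ∀ i, b i < p ^ e) {G : MvPolynomial (Fin N) k}
    (hG : G.totalDegree < p ^ e) : cmp p e b G = C (ifr p e (coeff b G)) := by
  classical
  ext u
  rw [coeff_cmp hb, coeff_C]
  by_cases hu : u = 0
  · subst hu
    simp
  · rw [if_neg (Ne.symm hu)]
    have : coeff (p ^ e • u + b) G = 0 := by
      apply coeff_eq_zero_of_totalDegree_lt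
      refine hG.trans_le ?_
      have h1 : (p ^ e • u + b).degree = p ^ e * u.degree + b.degree := by
        rw [map_add, map_nsmul, smul_eq_mul]
      have h2 : 1 ≤ u.degree := by
        rw [Nat.one_le_iff_ne_zero]
        intro h
        apply hu
        exact (Finsupp.degree_eq_zero_iff u).1 h
      have h3 : p ^ e * 1 ≤ p ^ e * u.degree := Nat.mul_le_mul_left _ h2
      have h4 : ∑ i ∈ (p ^ e • u + b).support, (p ^ e • u + b) i =
          (p ^ e • u + b).degree := rfl
      rw [h4, h1]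
      omega
    rw [this]
    exact map_zero _

end comp

section lam

variable {k : Type u} [Field k] {p e : ℕ} [Fact p.Prime] [CharP k p] [PerfectRing k p] {N : ℕ}

/-- the polynomial of the values of a functional on the components -/
noncomputable def lam (p e : ℕ) [Fact p.Prime] [CharP k p] [PerfectRing k p]
    (L : MvPolynomial (Fin N) k →ₗ[k] k) (G : MvPolynomial (Fin N) k) :
    MvPolynomial (Fin N) k :=
  ∑ f : Fin N → Fin (p ^ e), monomial (tf f) (L (cmp p e (tf f) G) ^ p ^ e)

theorem coeff_lam (L : MvPolynomial (Fin N) k →ₗ[k] k) (G : MvPolynomial (Fin N) k)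
    {c : Fin N →₀ ℕ} (hc : ∀ i, c i < p ^ e) :
    coeff c (lam p e L G) = L (cmp p e c G) ^ p ^ e := by
  classical
  obtain ⟨g, hg⟩ := exists_tf hc
  unfold lam
  rw [coeff_sum, Finset.sum_eq_single g]
  · rw [coeff_monomial, if_pos hg, hg]
  · intro f _ hf
    rw [coeff_monomial, if_neg]
    intro h
    apply hf
    apply tf_inj
    rw [h, hg]
  · intro h
    exact absurd (Finset.mem_univ g) h

theorem coeff_lam_zero (L : MvPolynomial (Fin N) k →ₗ[k] k) (G : MvPolynomial (Fin N) k)
    {c : Fin N →₀ ℕ} (hc : ¬ ∀ i, c i < p ^ e) : coeff c (lam p e L G) = 0 := by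
  classical
  unfold lam
  rw [coeff_sum]
  apply Finset.sum_eq_zero
  intro f _
  rw [coeff_monomial, if_neg]
  intro h
  apply hc
  intro i
  rw [← h]
  exact tf_lt f i

theorem L_mul {L : MvPolynomial (Fin N) k →ₗ[k] k} {I : Ideal (MvPolynomial (Fin N) k)}
    (hL : ∀ f ∈ I, ∀ i, L (X i * f) = 0) (s : MvPolynomial (Fin N) k) :
    ∀ f ∈ I, L (s * f) = coeff 0 s * L f := by
  induction s using MvPolynomial.induction_on with
  | C a =>
    intro f _
    rw [C_mul', map_smul, coeff_C, if_pos rfl, smul_eq_mul]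
  | add s s' hs hs' =>
    intro f hf
    rw [add_mul, map_add, hs f hf, hs' f hf, coeff_add, add_mul]
  | mul_X s i _ =>
    intro f hf
    have h1 : s * X i * f = X i * (s * f) := by ring
    rw [h1, hL _ (I.mul_mem_left s hf) i]
    have h2 : coeff 0 (s * X i) = 0 := by
      rw [coeff_mul_X', if_neg (by simp)]
    rw [h2, zero_mul]

theorem lam_mul {L : MvPolynomial (Fin N) k →ₗ[k] k} {I : Ideal (MvPolynomial (Fin N) k)}
    (hL : ∀ f ∈ I, ∀ i, L (X i * f) = 0) (s G : MvPolynomial (Fin N) k)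
    (hG : ∀ b : Fin N →₀ ℕ, (∀ i, b i < p ^ e) → cmp p e b G ∈ I) {c : Fin N →₀ ℕ}
    (hc : ∀ i, c i < p ^ e) :
    coeff c (s * lam p e L G) = L (cmp p e c (s * G)) ^ p ^ e := by
  classical
  have h1 : cmp p e c (s * G) =
      ∑ f : Fin N → Fin (p ^ e), cmp p e c (s * monomial (tf f) 1) * cmp p e (tf f) G := by
    conv_lhs => rw [cmp_decomp (p := p) (e := e) G]
    rw [Finset.mul_sum, cmp_sum hc]
    apply Finset.sum_congr rfl
    intro f _
    rw [mul_left_comm, cmp_pow_mul hc, mul_comm]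
  rw [h1, map_sum, sum_pow_char_pow]
  unfold lam
  rw [Finset.mul_sum, coeff_sum]
  apply Finset.sum_congr rfl
  intro f _
  rw [L_mul hL _ _ (hG _ (tf_lt f)), mul_pow, coeff_cmp hc, smul_zero, zero_add, ifr_pow]
  have h2 : (monomial (tf f) (L (cmp p e (tf f) G) ^ p ^ e) : MvPolynomial (Fin N) k) =
      C (L (cmp p e (tf f) G) ^ p ^ e) * monomial (tf f) 1 := by
    rw [C_mul_monomial, mul_one]
  rw [h2, mul_left_comm, coeff_C_mul, mul_comm]

theorem lam_homog {L : MvPolynomial (Fin N) k →ₗ[k] k} {ν j D : ℕ}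
    (hLν : ∀ (f : MvPolynomial (Fin N) k) (l : ℕ), f.IsHomogeneous l → l ≠ ν → L f = 0)
    {G : MvPolynomial (Fin N) k} (hG : G.IsHomogeneous D) (hD : D = p ^ e * ν + j) :
    (lam p e L G).IsHomogeneous j := by
  intro c hc
  by_cases hc' : ∀ i, c i < p ^ e
  · rw [coeff_lam _ _ hc'] at hc
    have h1 : L (cmp p e c G) ≠ 0 := fun h => hc (by rw [h, zero_pow (qpos p e).ne'])
    have h2 : cmp p e c G ≠ 0 := fun h => h1 (by rw [h, map_zero])
    obtain ⟨l, hl, hl'⟩ := cmp_homog' hc' hG h2
    have h3 : l = ν := by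
      by_contra hne
      exact h1 (hLν _ l hl' hne)
    subst h3
    have h4 : c.degree = j := by omega
    rw [Finsupp.degree_eq_weight_one] at h4
    exact h4
  · exact absurd (coeff_lam_zero L G hc') hc

end lam

end Pool.Agent.TH719.HHq
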