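import Pool.Agent.TH719.HHq.Full

/-!
Consequences: ideal versions.
-/

set_option autoImplicit false
set_option linter.unusedSectionVars false

universe u

namespace Pool.Agent.TH719.HHq

open MvPolynomial Pool.Agent.Chud Pool.Agent.H580C Pool.Agent.H737R3
open Pool.Agent.H737R3.Cont (lowI irr)

section

variable {k : Type u} [Field k]

/-- extraction of a `t`-th root in the Frobenius power -/
theorem root_step {p : ℕ} [Fact p.Prime] [CharP k p] [PerfectRing k p] {N E a b t d : ℕ}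
    {J : Ideal (MvPolynomial (Fin N) k)} {F : MvPolynomial (Fin N) k} (hF0 : F ≠ 0)
    (hFd : F.IsHomogeneous d) (hb : t * a = p ^ E + b) (hdb : d * b < p ^ E)
    (h : F ^ a ∈ fro p E J) : F ∈ J ^ t := by
  have h4 : (F ^ a) ^ t ∈ fro p E (J ^ t) := by
    rw [← fro_pow]
    exact Ideal.pow_mem_pow h t
  rw [← pow_mul, mul_comm a t, hb, pow_add] at h4
  have hFb : F ^ b ≠ 0 := pow_ne_zero _ hF0
  have hFbh : (F ^ b).IsHomogeneous (d * b) := hFd.pow b
  obtain ⟨β, hβ⟩ := MvPolynomial.ne_zero_iff.1 hFb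
  have hβp : ∀ i, β i < p ^ E := by
    intro i
    have h5 : β.degree = d * b := by
      have := hFbh hβ
      rwa [Finsupp.degree_eq_weight_one]
    have h6 := Finsupp.le_degree i β
    omega
  have h5 := cmp_mem_of_fro h4 hβp
  rw [cmp_pow_mul hβp,
    cmp_of_small hβp (by rw [hFbh.totalDegree hFb]; exact hdb)] at h5
  have hr0 : ifr p E (coeff β (F ^ b)) ≠ 0 := by
    intro h
    apply hβ
    rw [← ifr_pow p E (coeff β (F ^ b)), h, zero_pow (qpos p E).ne']
  have h6 := Ideal.mul_mem_right (C (ifr p E (coeff β (F ^ b)))⁻¹) _ h5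
  rwa [mul_assoc, ← map_mul, mul_inv_cancel₀ hr0, map_one, mul_one] at h6

/-- the containment without control of the degrees -/
theorem low_succ (p : ℕ) [Fact p.Prime] [CharP k p] [PerfectRing k p] {n s t d : ℕ}
    {P : Fin s → Fin (n + 1) → k} (hP : ∀ i, P i ≠ 0) {w : Fin s → ℕ} (hn : 1 ≤ n) (ht : 0 < t)
    {F : MvPolynomial (Fin (n + 1)) k} (hFd : F.IsHomogeneous d)
    (hFm : ∀ i, F ∈ mI (P i) ^ (t * (w i + n - 1))) : F ∈ lowI P w (d / t + 1) ^ t := by
  classical
  by_cases hF0 : F = 0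
  · rw [hF0]
    exact Ideal.zero_mem _
  have hp := (Fact.out : p.Prime)
  obtain ⟨E, hE⟩ : ∃ E, t * (d + 1) < p ^ E := ⟨t * (d + 1), Nat.lt_pow_self hp.one_lt⟩
  have hdt := Nat.div_add_mod d t
  have hmt := Nat.mod_lt d ht
  set ν := d / t with hνdef
  set ρ := d % t with hρ
  have hq1' : t * d + t < p ^ E := by
    have : t * (d + 1) = t * d + t := by ring
    omega
  set a₂ := (p ^ E + t - 1) / t with ha₂
  have h1 : t * a₂ + (p ^ E + t - 1) % t = p ^ E + t - 1 := Nat.div_add_mod (p ^ E + t - 1) t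
  have h2 := Nat.mod_lt (p ^ E + t - 1) ht
  have h0 : p ^ E + t - 1 + 1 = p ^ E + t := by omega
  generalize (p ^ E + t - 1) % t = x at h1 h2
  generalize p ^ E + t - 1 = y at h1 h0
  generalize hta : t * a₂ = z at h1
  obtain ⟨b', hb'⟩ : ∃ b', t * a₂ = p ^ E + b' := ⟨z - p ^ E, by omega⟩
  have hbt : b' < t := by omega
  have hda₂ : d * a₂ < p ^ E * ν + p ^ E := by
    apply Nat.lt_of_mul_lt_mul_left (a := t)
    have h3 : t * (d * a₂) = (p ^ E + b') * d := by rw [← hb']; ring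
    have h4 : (p ^ E + b') * d = p ^ E * d + b' * d := by ring
    have h5 : b' * d ≤ t * d := Nat.mul_le_mul_right _ hbt.le
    have h6 : t * (p ^ E * ν + p ^ E) = p ^ E * (t * ν) + p ^ E * t := by ring
    have h7 : p ^ E * (d + 1) ≤ p ^ E * (t * ν + t) := Nat.mul_le_mul_left _ (by omega)
    have h8 : p ^ E * (t * ν + t) = p ^ E * (t * ν) + p ^ E * t := by ring
    have h9 : p ^ E * (d + 1) = p ^ E * d + p ^ E := by ring
    omega
  have hord₂ : ∀ i, F ^ a₂ ∈ mI (P i) ^ (p ^ E * (w i + n - 1)) := by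
    intro i
    have h3 : F ^ a₂ ∈ mI (P i) ^ ((t * (w i + n - 1)) * a₂) := by
      rw [pow_mul]
      exact Ideal.pow_mem_pow (hFm i) a₂
    refine Ideal.pow_le_pow_right ?_ h3
    calc p ^ E * (w i + n - 1) ≤ (p ^ E + b') * (w i + n - 1) :=
          Nat.mul_le_mul_right _ (by omega)
      _ = (t * (w i + n - 1)) * a₂ := by rw [← hb']; ring
  have hcomp := comp_mem E hP hn (hFd.pow a₂) hord₂
  have hdb : d * b' < p ^ E := by
    have h5 : d * b' ≤ d * t := Nat.mul_le_mul_left _ hbt.le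
    have h6 : d * t = t * d := mul_comm _ _
    omega
  apply root_step hF0 hFd hb' hdb
  apply fro_of_cmp_mem
  intro b hb
  by_cases hb0 : cmp p E b (F ^ a₂) = 0
  · rw [hb0]
    exact Ideal.zero_mem _
  obtain ⟨l, hl, hlh⟩ := cmp_homog' hb (hFd.pow a₂) hb0
  have hlν : l < ν + 1 := by
    by_contra hcon
    push Not at hcon
    have h1 : p ^ E * (ν + 1) ≤ p ^ E * l := Nat.mul_le_mul_left _ hcon
    have h2 : p ^ E * (ν + 1) = p ^ E * ν + p ^ E := by ring
    omega
  have h1 := hcomp b hb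
  rw [Submodule.mem_iInf] at h1
  exact mem_lowI' hlν hlh h1

/-- forms of degree `d`, with `irr ^ (d % t)` -/
theorem cont_mod (p : ℕ) [Fact p.Prime] [CharP k p] [PerfectRing k p] {n s t d : ℕ}
    {P : Fin s → Fin (n + 1) → k} (hP : ∀ i, P i ≠ 0) {w : Fin s → ℕ} (hn : 1 ≤ n) (ht : 0 < t)
    {F : MvPolynomial (Fin (n + 1)) k} (hFd : F.IsHomogeneous d)
    (hFm : ∀ i, F ∈ mI (P i) ^ (t * (w i + n - 1))) :
    F ∈ irr k n ^ (d % t) * (⨅ i, linI (P i) ^ w i) ^ t := by
  have hmem := low_succ p hP hn ht hFd hFm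
  have hA : Pool.Agent.H915R3.ContT2.Pr (lowI P w (d / t + 1)) (d / t) := by
    apply Pool.Agent.H915R3.ContT2.Pr_span
    rintro f ⟨l, hl, hfl, -⟩
    exact ⟨l, by omega, hfl⟩
  have h1 := Pool.Agent.H915R3.ContT2.Pr_pow hA t F hmem d
  rw [homogeneousComponent_of_mem hFd, if_pos rfl] at h1
  have h2 : d - t * (d / t) = d % t := by
    have := Nat.div_add_mod d t
    omega
  rw [h2] at h1
  have h5 : lowI P w (d / t + 1) ≤ ⨅ i : Fin s, linI (P i) ^ w i := by
    rw [lowI, Ideal.span_le]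
    rintro f ⟨l, -, hfl, hfm⟩
    refine (Submodule.mem_iInf _).2 fun i => ?_
    exact mem_linI_pow hfl (hP i) (hfm i)
  exact Ideal.mul_mono le_rfl (Ideal.pow_right_mono h5 t) h1

/-- the containment with a smaller power of the irrelevant ideal, for all `t` -/
theorem cont_all (p : ℕ) [Fact p.Prime] [CharP k p] [PerfectRing k p] {n s t c : ℕ}
    (hn : 2 ≤ n) (hs : 0 < s) (ht : 0 < t) (hc : 1 ≤ c) (htc : t ≤ n * c + 1)
    (P : Fin s → Fin (n + 1) → k) (hP : ∀ i, P i ≠ 0) (w : Fin s → ℕ) :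
    (⨅ i, linI (P i) ^ (t * (w i + n - 1))) ≤
      irr k n ^ (t + 1 - c) * (⨅ i, linI (P i) ^ w i) ^ t := by
  intro F hF
  rw [← sum_homogeneousComponent F]
  apply Ideal.sum_mem
  intro d _
  set G := homogeneousComponent d F with hG
  have hGd : G.IsHomogeneous d := homogeneousComponent_isHomogeneous d F
  have hGm : ∀ i, G ∈ linI (P i) ^ (t * (w i + n - 1)) := by
    rw [Submodule.mem_iInf] at hF
    exact fun i => component_mem (P i) _ (hF i) d
  by_cases h : t ≤ n * (t - d % t) + 1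
  · have h1 := cont_form p hn hs ht P hP w h hGd ((Submodule.mem_iInf _).2 hGm)
    exact Ideal.mul_mono (Ideal.pow_le_pow_right (by omega)) le_rfl h1
  · have h1 := cont_mod p hP (w := w) (by omega) ht hGd
      (fun i => Ideal.pow_right_mono (linI_le_mI (P i)) _ (hGm i))
    refine Ideal.mul_mono (Ideal.pow_le_pow_right ?_) le_rfl h1
    have h2 : n * (t - d % t) < n * c := by omega
    have h3 := Nat.lt_of_mul_lt_mul_left h2
    omega

/-- the containment after multiplication by a power of the irrelevant ideal, for all `t` -/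
theorem cont_mul' (p : ℕ) [Fact p.Prime] [CharP k p] [PerfectRing k p] {n s t c : ℕ}
    (hn : 2 ≤ n) (hs : 0 < s) (ht : 0 < t) (htc : t ≤ n * (c + 1) + 1)
    (P : Fin s → Fin (n + 1) → k) (hP : ∀ i, P i ≠ 0) (w : Fin s → ℕ) :
    irr k n ^ c * (⨅ i, linI (P i) ^ (t * (w i + n - 1))) ≤
      irr k n ^ t * (⨅ i, linI (P i) ^ w i) ^ t := by
  rw [Ideal.mul_le]
  intro x hx F hF
  rw [← sum_homogeneousComponent F, Finset.mul_sum]
  apply Ideal.sum_mem
  intro d _
  set G := homogeneousComponent d F with hG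
  have hGd : G.IsHomogeneous d := homogeneousComponent_isHomogeneous d F
  have hGm : G ∈ ⨅ i, linI (P i) ^ (t * (w i + n - 1)) := by
    rw [Submodule.mem_iInf] at hF ⊢
    exact fun i => component_mem (P i) _ (hF i) d
  have hmt := Nat.mod_lt d ht
  obtain ⟨c', hc, hcd⟩ : ∃ c', c' ≤ c ∧ t ≤ n * (t - (c' + d) % t) + 1 := by
    by_cases h : t ≤ n * (t - d % t) + 1
    · exact ⟨0, Nat.zero_le _, by rwa [Nat.zero_add]⟩
    · have h2 : n * (t - d % t) < n * (c + 1) := by omega
      have h3 := Nat.lt_of_mul_lt_mul_left h2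
      refine ⟨t - d % t, by omega, ?_⟩
      have h4 : (t - d % t + d) % t = 0 := by
        have h5 := Nat.div_add_mod d t
        have h6 : t - d % t + d = t * (d / t + 1) := by
          have : t * (d / t + 1) = t * (d / t) + t := by ring
          omega
        rw [h6, Nat.mul_mod_right]
      rw [h4, Nat.sub_zero]
      exact (Nat.le_mul_of_pos_left _ (by omega)).trans (Nat.le_succ _)
  have hx' : x ∈ Ideal.span {h : MvPolynomial (Fin (n + 1)) k | h.IsHomogeneous c'} :=
    irr_pow_le c' (Ideal.pow_le_pow_right hc hx)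
  refine Submodule.span_induction (p := fun x _ => x * G ∈
    irr k n ^ t * (⨅ i, linI (P i) ^ w i) ^ t) ?_ ?_ ?_ ?_ hx'
  · intro h hh
    apply cont_form p hn hs ht P hP w hcd (IsHomogeneous.mul hh hGd)
    exact Ideal.mul_mem_left _ _ hGm
  · rw [zero_mul]
    exact Ideal.zero_mem _
  · intro x y _ _ hx hy
    rw [add_mul]
    exact Ideal.add_mem _ hx hy
  · intro a x _ hx
    rw [smul_eq_mul, mul_assoc]
    exact Ideal.mul_mem_left _ _ hx

/-- the containment for ideals of larger order -/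
theorem cont_extra (p : ℕ) [Fact p.Prime] [CharP k p] [PerfectRing k p] {n s t c : ℕ}
    (hn : 2 ≤ n) (hs : 0 < s) (ht : 0 < t) (hc : t ≤ p * c)
    (P : Fin s → Fin (n + 1) → k) (hP : ∀ i, P i ≠ 0) (w : Fin s → ℕ) :
    (⨅ i, linI (P i) ^ (t * (w i + n - 1) + c)) ≤
      irr k n ^ t * (⨅ i, linI (P i) ^ w i) ^ t := by
  have hp := (Fact.out : p.Prime)
  intro F hF
  rw [← sum_homogeneousComponent F]
  apply Ideal.sum_mem
  intro d _
  set G := homogeneousComponent d F with hG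
  have hGd : G.IsHomogeneous d := homogeneousComponent_isHomogeneous d F
  have hGm : ∀ i, G ∈ linI (P i) ^ (t * (w i + n - 1) + c) := by
    rw [Submodule.mem_iInf] at hF
    exact fun i => component_mem (P i) _ (hF i) d
  apply Pool.Agent.H915R3.ContT2.taskT2 k n s t d P w G ht hP hGd
  obtain ⟨e', he'⟩ : ∃ e, t * (d + 1) < p ^ e := ⟨t * (d + 1), Nat.lt_pow_self hp.one_lt⟩
  set e := e' + 1 with he
  have hpe : p ^ e = p * p ^ e' := by rw [he, pow_succ, mul_comm]
  have he1 : t * (d + 1) < p ^ e := by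
    have h1 : 1 * p ^ e' ≤ p * p ^ e' := Nat.mul_le_mul_right _ hp.one_lt.le
    omega
  have hdt := Nat.div_add_mod d t
  have hmt := Nat.mod_lt d ht
  set a := (p ^ e + t - 1) / t with ha
  have h1 : t * a + (p ^ e + t - 1) % t = p ^ e + t - 1 := Nat.div_add_mod (p ^ e + t - 1) t
  have h2 := Nat.mod_lt (p ^ e + t - 1) ht
  generalize (p ^ e + t - 1) % t = x at h1 h2
  have h3 : p ^ e ≤ t * a := by omega
  have h4 : t * a < p ^ e + t := by omega
  apply crit hP hn hs ht hGd (T := fun i => t * (w i + n - 1) + c)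
    (fun i => Ideal.pow_right_mono (linI_le_mI (P i)) _ (hGm i))
    (fun i => Nat.le_add_right _ _) (a := a) (e := e) (by omega)
  · intro i
    have h5 : (w i + n - 1) * p ^ e ≤ (w i + n - 1) * (t * a) := Nat.mul_le_mul_left _ h3
    have h6 : t * p ^ e' ≤ t * (c * a) := by
      calc t * p ^ e' ≤ p * c * p ^ e' := Nat.mul_le_mul_right _ hc
        _ = c * p ^ e := by rw [hpe]; ring
        _ ≤ c * (t * a) := Nat.mul_le_mul_left _ h3
        _ = t * (c * a) := by ring
    have h7 := Nat.le_of_mul_le_mul_left h6 ht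
    have h8 : e - 1 = e' := by omega
    rw [h8]
    have h9 : (t * (w i + n - 1) + c) * a = (w i + n - 1) * (t * a) + c * a := by ring
    have h10 : (w i + n - 1) * p ^ e = p ^ e * (w i + n - 1) := mul_comm _ _
    omega
  · apply Nat.lt_of_mul_lt_mul_left (a := t)
    have h5 : t * (d * a) = d * (t * a) := by ring
    have h6 : d * (t * a) ≤ d * (p ^ e + t) := Nat.mul_le_mul_left _ h4.le
    have h7 : d * (p ^ e + t) = p ^ e * d + t * d := by ring
    have h8 : t * (p ^ e * (d / t + 1)) = p ^ e * (t * (d / t) + t) := by ring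
    have h9 : p ^ e * (d + 1) ≤ p ^ e * (t * (d / t) + t) := Nat.mul_le_mul_left _ (by omega)
    have h10 : p ^ e * (d + 1) = p ^ e * d + p ^ e := by ring
    have h11 : t * (d + 1) = t * d + t := by ring
    omega

/-- forms of small degree -/
theorem cont_small (p : ℕ) [Fact p.Prime] [CharP k p] [PerfectRing k p] {n s t d : ℕ}
    (hn : 2 ≤ n) (hs : 0 < s) (ht : 0 < t)
    (P : Fin s → Fin (n + 1) → k) (hP : ∀ i, P i ≠ 0) (w : Fin s → ℕ)
    (hd : ∀ i, d < p * (w i + n - 1) * (t - d % t))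
    {F : MvPolynomial (Fin (n + 1)) k} (hF : F.IsHomogeneous d)
    (h : F ∈ ⨅ i, linI (P i) ^ (t * (w i + n - 1))) :
    F ∈ irr k n ^ t * (⨅ i, linI (P i) ^ w i) ^ t := by
  have hp := (Fact.out : p.Prime)
  by_cases hF0 : F = 0
  · rw [hF0]
    exact Ideal.zero_mem _
  rw [Submodule.mem_iInf] at h
  have hFm : ∀ i, F ∈ mI (P i) ^ (t * (w i + n - 1)) := fun i =>
    Ideal.pow_right_mono (linI_le_mI (P i)) _ (h i)
  apply Pool.Agent.H915R3.ContT2.taskT2 k n s t d P w F ht hP hF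
  rcases Nat.eq_zero_or_pos d with h0 | hd0
  · exfalso
    have h1 := (mem_mI_pow_iff (P ⟨0, hs⟩) hF0 _).1 (hFm ⟨0, hs⟩)
    have h2 := mu_le_totalDegree (P ⟨0, hs⟩) hF0
    rw [hF.totalDegree hF0] at h2
    have h3 : t * 1 ≤ t * (w ⟨0, hs⟩ + n - 1) := Nat.mul_le_mul_left _ (by omega)
    omega
  obtain ⟨e', he'⟩ : ∃ e, d * d + d < p ^ e := ⟨d * d + d, Nat.lt_pow_self hp.one_lt⟩
  set e := e' + 1 with he
  have hpe : p ^ e = p * p ^ e' := by rw [he, pow_succ, mul_comm]
  have hdt := Nat.div_add_mod d t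
  have hmt := Nat.mod_lt d ht
  set ν := d / t with hν
  set ρ := d % t with hρ
  set a := (p ^ e * (ν + 1) - 1) / d with ha
  have h1 : d * a + (p ^ e * (ν + 1) - 1) % d = p ^ e * (ν + 1) - 1 := Nat.div_add_mod _ _
  have h2 := Nat.mod_lt (p ^ e * (ν + 1) - 1) hd0
  generalize (p ^ e * (ν + 1) - 1) % d = x at h1 h2
  have h3 : 0 < p ^ e * (ν + 1) := Nat.mul_pos (qpos p e) (Nat.succ_pos _)
  have h4 : d * a < p ^ e * (ν + 1) := by omega
  have h5 : p ^ e * (ν + 1) ≤ d * a + d := by omega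
  apply crit hP hn hs ht hF (T := fun i => t * (w i + n - 1)) hFm
    (fun i => le_rfl) (a := a) (e := e) (by omega) _ h4
  intro i
  have hmu := (mem_mI_pow_iff (P i) hF0 _).1 (hFm i)
  have hmu' := mu_le_totalDegree (P i) hF0
  rw [hF.totalDegree hF0] at hmu'
  have hdi := hd i
  have h8 : e - 1 = e' := by omega
  rw [h8]
  set W := w i + n - 1 with hW
  apply Nat.le_of_mul_le_mul_left _ hd0
  have e2 : t * W * (p ^ e * (ν + 1)) ≤ t * W * (d * a + d) := Nat.mul_le_mul_left _ h5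
  have e3 : t * W * (p ^ e * (ν + 1)) = W * p ^ e * (d + (t - ρ)) := by
    have : t * ν + t = d + (t - ρ) := by omega
    rw [← this]
    ring
  have e4 : p ^ e' * (d + 1) ≤ p ^ e' * (p * W * (t - ρ)) := Nat.mul_le_mul_left _ hdi
  have e5 : t * W * d ≤ d * d := Nat.mul_le_mul_right _ (by omega)
  have e7 : W * p ^ e * (d + (t - ρ)) = d * (p ^ e * W) + p ^ e' * (p * W * (t - ρ)) := by
    rw [hpe]
    ring
  have e8 : t * W * (d * a + d) = d * (t * W * a) + t * W * d := by ring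
  have e9 : d * (p ^ e * W + p ^ e') = d * (p ^ e * W) + p ^ e' * d := by ring
  have e10 : p ^ e' * (d + 1) = p ^ e' * d + p ^ e' := by ring
  show d * (p ^ e * W + p ^ e') ≤ d * (t * W * a)
  omega

end

end Pool.Agent.TH719.HHq
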