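import Pool.Agent.TH719.HHq.Root

/-!
The containment in positive characteristic for forms of sufficiently large order or small degree.
-/

set_option autoImplicit false
set_option linter.unusedSectionVars false

universe u

namespace Pool.Agent.TH719.HHq

open MvPolynomial Pool.Agent.Chud Pool.Agent.H580C Pool.Agent.H737R3
open Pool.Agent.H737R3.Cont (lowI irr)

section

variable {k : Type u} [Field k] {p : ℕ} [Fact p.Prime] [CharP k p] [PerfectRing k p]

omit [Fact p.Prime] [CharP k p] [PerfectRing k p] in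
theorem mu_C {N : ℕ} (v : Fin N → k) {c : k} (hc : c ≠ 0) :
    mu v (C c : MvPolynomial (Fin N) k) = 0 := by
  have h0 : (C c : MvPolynomial (Fin N) k) ≠ 0 := by
    intro h
    rw [← map_zero C] at h
    exact hc (C_injective _ _ h)
  have := mu_le_totalDegree v h0
  rw [totalDegree_C] at this
  omega

/-- the conditions on a functional -/
structure Good {n s : ℕ} (P : Fin s → Fin (n + 1) → k) (w : Fin s → ℕ) (ν : ℕ)
    (L : MvPolynomial (Fin (n + 1)) k →ₗ[k] k) : Prop where
  mulX : ∀ f ∈ (⨅ i, linI (P i) ^ w i : Ideal (MvPolynomial (Fin (n + 1)) k)),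
      ∀ i, L (X i * f) = 0
  deg : ∀ (f : MvPolynomial (Fin (n + 1)) k) (l : ℕ), f.IsHomogeneous l → l ≠ ν → L f = 0
  low : ∀ f : MvPolynomial (Fin (n + 1)) k, f.IsHomogeneous ν → f ∈ lowI P w ν → L f = 0

/-- forms of order `≥ q (w i + n - 1) + q / p` and of degree `< q (ν + 1)` -/
theorem vanish {n s D ν e : ℕ} {P : Fin s → Fin (n + 1) → k} (hP : ∀ i, P i ≠ 0)
    {w : Fin s → ℕ} (hn : 2 ≤ n) (hs : 0 < s) (he : 1 ≤ e)
    {L : MvPolynomial (Fin (n + 1)) k →ₗ[k] k} (hL : Good P w ν L)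
    {G : MvPolynomial (Fin (n + 1)) k} (hG : G.IsHomogeneous D) (hD : D < p ^ e * ν + p ^ e)
    (hGm : ∀ i, G ∈ mI (P i) ^ (p ^ e * (w i + n - 1) + p ^ (e - 1))) : lam p e L G = 0 := by
  classical
  have hp := (Fact.out : p.Prime)
  by_contra hφ0
  have hG0 : G ≠ 0 := by
    rintro rfl
    exact hφ0 (lam_zero L)
  set φ := lam p e L G with hφ
  have hφh : φ.IsHomogeneous (D - p ^ e * ν) := by
    intro c hc
    have h1 := lam_degree hL.deg hG hc
    have h2 : c.degree = D - p ^ e * ν := by omega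
    rwa [Finsupp.degree_eq_weight_one] at h2
  obtain ⟨b, hbφ⟩ := MvPolynomial.ne_zero_iff.1 hφ0
  have hb : ∀ i, b i < p ^ e := by
    by_contra hcon
    exact hbφ (coeff_lam_zero L G hcon)
  have hDν : p ^ e * ν ≤ D := by
    have := lam_degree hL.deg hG hbφ
    omega
  have hGm' : ∀ i, G ∈ mI (P i) ^ (p ^ e * (w i + n - 1)) :=
    fun i => Ideal.pow_le_pow_right (Nat.le_add_right _ _) (hGm i)
  have hφd : φ.totalDegree < p ^ e := by
    rw [hφh.totalDegree hφ0]
    omega
  -- logarithmic Hasse derivatives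
  have hlog : ∀ r < e, ∀ i, G * hd (Finsupp.single i (p ^ r)) φ =
      hd (Finsupp.single i (p ^ r)) G * φ := by
    intro r hr i
    have hc : ∀ j, (Finsupp.single i (p ^ r) : Fin (n + 1) →₀ ℕ) j < p ^ e := by
      intro j
      have h1 : p ^ r < p ^ e := Nat.pow_lt_pow_right hp.one_lt hr
      rw [Finsupp.single_apply]
      split_ifs
      · exact h1
      · exact qpos p e
    rw [hφ, ← lam_hd L G hc]
    apply ratio e hP (by omega) hL.mulX hL.deg hG
      (t_HH t_HC k (n + 1) (Finsupp.single i (p ^ r)) D G hG) (Nat.sub_le _ _) hD hGm'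
    intro i'
    have h2 := t_HM k (n + 1) (Finsupp.single i (p ^ r)) (P i') _ G (hGm i')
    refine Ideal.pow_le_pow_right ?_ h2
    rw [Finsupp.degree_single]
    have h3 : p ^ r ≤ p ^ (e - 1) := Nat.pow_le_pow_right hp.pos (by omega)
    omega
  obtain ⟨u, v, hv0, hrel, huv⟩ := exists_root hG0 hφ0 e hlog e le_rfl
  have hu0 : u ≠ 0 := by
    rintro rfl
    rw [zero_pow (qpos p e).ne', zero_mul] at huv
    rcases mul_eq_zero.1 huv with h1 | h1
    · exact hφ0 h1
    · exact pow_ne_zero _ hv0 h1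
  have h3 : u ^ p ^ e ∣ φ := by
    apply IsRelPrime.dvd_of_dvd_mul_left (x := u ^ p ^ e) (y := v ^ p ^ e) hrel.symm.pow
    exact ⟨G, by rw [mul_comm, huv]⟩
  obtain ⟨m, hm⟩ := h3
  have hm0 : m ≠ 0 := by
    rintro rfl
    exact hφ0 (by rw [hm, mul_zero])
  have h4 : φ.totalDegree = p ^ e * u.totalDegree + m.totalDegree := by
    rw [hm, totalDegree_mul_of_isDomain (pow_ne_zero _ hu0) hm0]
    congr 1
    have key : ∀ j : ℕ, (u ^ j).totalDegree = j * u.totalDegree := by
      intro j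
      induction j with
      | zero => simp
      | succ j ih =>
        rw [pow_succ, totalDegree_mul_of_isDomain (pow_ne_zero _ hu0) hu0, ih]
        ring
    exact key _
  have h5 : u.totalDegree = 0 := by
    by_contra hne
    have : p ^ e * 1 ≤ p ^ e * u.totalDegree :=
      Nat.mul_le_mul_left _ (Nat.one_le_iff_ne_zero.2 hne)
    omega
  have h6 := totalDegree_eq_zero_iff_eq_C.1 h5
  set c := coeff 0 u with hcdef
  have hc : c ≠ 0 := by
    intro h7
    apply hu0
    rw [h6, h7, map_zero]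
  rw [h6] at huv
  set g := cmp p e b G with hg
  set r := ifr p e (coeff b φ) with hr
  have hr0 : r ≠ 0 := by
    intro h
    apply hbφ
    rw [← ifr_pow p e (coeff b φ), ← hr, h, zero_pow (qpos p e).ne']
  have hvg : v * C r = C c * g := by
    have h1 : cmp p e b (v ^ p ^ e * φ) = v * C r := by
      rw [cmp_pow_mul hb, cmp_of_small hb hφd]
    have h2 : cmp p e b ((C c) ^ p ^ e * G) = C c * g := by rw [cmp_pow_mul hb, hg]
    rw [← h1, ← h2, mul_comm, huv]
  have hgv : g = C (r / c) * v := by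
    have h1 : C (r / c) * v = C c⁻¹ * (v * C r) := by
      rw [div_eq_mul_inv, map_mul]
      ring
    rw [h1, hvg, ← mul_assoc, ← map_mul, inv_mul_cancel₀ hc, map_one, one_mul]
  have hrc : r / c ≠ 0 := div_ne_zero hr0 hc
  have hLg : L g ≠ 0 := by
    intro h
    apply hbφ
    rw [hφ, coeff_lam _ _ hb, ← hg, h, zero_pow (qpos p e).ne']
  have hg0 : g ≠ 0 := fun h => hLg (by rw [h, map_zero])
  have hgh : g.IsHomogeneous ν := by
    obtain ⟨l, hl, hlh⟩ := cmp_homog' hb hG hg0
    have : l = ν := by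
      by_contra hne
      exact hLg (hL.deg g l hlh hne)
    rwa [this] at hlh
  have hmug : ∀ i, w i + n - 1 ≤ mu (P i) g := by
    intro i
    have hmu : mu (P i) g = mu (P i) v := by
      rw [hgv, mu_mul _ (C_ne hrc) hv0, mu_C _ hrc, zero_add]
    have h1 : mu (P i) (φ * v ^ p ^ e) = mu (P i) φ + p ^ e * mu (P i) v := by
      rw [mu_mul _ hφ0 (pow_ne_zero _ hv0), BL_mu_pow _ hv0]
    have h2 : mu (P i) ((C c) ^ p ^ e * G) = mu (P i) G := by
      rw [← map_pow C, mu_mul _ (C_ne (pow_ne_zero _ hc)) hG0, mu_C _ (pow_ne_zero _ hc),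
        zero_add]
    rw [huv, h2] at h1
    have h3 : mu (P i) φ ≤ D - p ^ e * ν := by
      have := mu_le_totalDegree (P i) hφ0
      rwa [hφh.totalDegree hφ0] at this
    have h4 := (mem_mI_pow_iff (P i) hG0 _).1 (hGm' i)
    have h8 : p ^ e * (w i + n - 1) < p ^ e * (mu (P i) v + 1) := by
      have : p ^ e * (mu (P i) v + 1) = p ^ e * mu (P i) v + p ^ e := by ring
      omega
    have := Nat.lt_of_mul_lt_mul_left h8
    omega
  apply hLg
  apply hL.low g hgh
  have h7 := contQ p n s 1 ν P w g hn hs one_pos (one_dvd ν) hP hgh (by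
    intro i
    rw [one_mul]
    exact (mem_mI_pow_iff (P i) hg0 _).2 (hmug i))
  rwa [Nat.div_one, pow_one] at h7

/-- the components of a form all of whose functional values vanish -/
theorem comps_low {n s D ν e : ℕ} {P : Fin s → Fin (n + 1) → k} (hP : ∀ i, P i ≠ 0)
    {w : Fin s → ℕ} (hn : 1 ≤ n) (hν : 1 ≤ ν)
    {G : MvPolynomial (Fin (n + 1)) k} (hG : G.IsHomogeneous D) (hD : D < p ^ e * ν + p ^ e)
    (hGm : ∀ i, G ∈ mI (P i) ^ (p ^ e * (w i + n - 1)))
    (h : ∀ L : MvPolynomial (Fin (n + 1)) k →ₗ[k] k, Good P w ν L → lam p e L G = 0) :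
    ∀ b : Fin (n + 1) →₀ ℕ, (∀ i, b i < p ^ e) → cmp p e b G ∈ lowI P w ν := by
  classical
  have memI : ∀ f, f ∈ (⨅ i, linI (P i) ^ w i : Ideal (MvPolynomial (Fin (n + 1)) k)) ↔
      ∀ i, f ∈ linI (P i) ^ w i := by
    intro f
    rw [Submodule.mem_iInf]
  have hcomp := comp_mem e hP hn hG hGm
  intro b hb
  by_cases hb0 : cmp p e b G = 0
  · rw [hb0]
    exact Ideal.zero_mem _
  obtain ⟨l, hl, hlh⟩ := cmp_homog' hb hG hb0
  have hlν : l ≤ ν := by
    by_contra hcon
    push Not at hcon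
    have h1 : p ^ e * (ν + 1) ≤ p ^ e * l := Nat.mul_le_mul_left _ hcon
    have h2 : p ^ e * (ν + 1) = p ^ e * ν + p ^ e := by ring
    omega
  rcases Nat.lt_or_ge l ν with hlt | hge
  · exact mem_lowI' hlt hlh ((memI _).1 (hcomp b hb))
  have hlν' : l = ν := le_antisymm hlν hge
  subst hlν'
  by_contra hnot
  obtain ⟨L0, hL0, hL0'⟩ := Submodule.exists_dual_map_eq_bot_of_notMem
    (p := (lowI P w l).restrictScalars k) (x := cmp p e b G) hnot inferInstance
  have hL0'' : ∀ f ∈ lowI P w l, L0 f = 0 := by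
    intro f hf
    have h1 : L0 f ∈ Submodule.map L0 ((lowI P w l).restrictScalars k) := ⟨f, hf, rfl⟩
    rw [hL0'] at h1
    exact (Submodule.mem_bot k).1 h1
  set L : MvPolynomial (Fin (n + 1)) k →ₗ[k] k := L0.comp (homogeneousComponent l) with hL
  have hLν : ∀ (f : MvPolynomial (Fin (n + 1)) k) (l' : ℕ), f.IsHomogeneous l' → l' ≠ l →
      L f = 0 := by
    intro f l' hf hne
    rw [hL, LinearMap.comp_apply,
      homogeneousComponent_of_mem ((mem_homogeneousSubmodule _ _).2 hf), if_neg (Ne.symm hne),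
      map_zero]
  have hLl : ∀ (f : MvPolynomial (Fin (n + 1)) k), f.IsHomogeneous l → L f = L0 f := by
    intro f hf
    rw [hL, LinearMap.comp_apply,
      homogeneousComponent_of_mem ((mem_homogeneousSubmodule _ _).2 hf), if_pos rfl]
  have hgood : Good P w l L := by
    refine ⟨?_, hLν, ?_⟩
    · intro f hf i
      obtain ⟨l', rfl⟩ : ∃ l', l = l' + 1 := ⟨l - 1, by omega⟩
      rw [hL, LinearMap.comp_apply, hc_X_mul]
      apply hL0''
      apply Ideal.mul_mem_left
      apply mem_lowI' (Nat.lt_succ_self l') (homogeneousComponent_isHomogeneous l' f)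
      intro i'
      exact component_mem (P i') (w i') ((memI _).1 hf i') l'
    · intro f hf hf'
      rw [hLl f hf]
      exact hL0'' f hf'
  have h1 := h L hgood
  have h2 := coeff_lam L G hb
  rw [h1, coeff_zero] at h2
  have h3 : L (cmp p e b G) = 0 := pow_eq_zero_iff (qpos p e).ne' |>.1 h2.symm
  rw [hLl _ hlh] at h3
  exact hL0 h3

/-- the criterion -/
theorem crit {n s t d : ℕ} {P : Fin s → Fin (n + 1) → k} (hP : ∀ i, P i ≠ 0)
    {w T : Fin s → ℕ} (hn : 2 ≤ n) (hs : 0 < s) (ht : 0 < t)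
    {F : MvPolynomial (Fin (n + 1)) k} (hFd : F.IsHomogeneous d)
    (hFm : ∀ i, F ∈ mI (P i) ^ T i) (hT : ∀ i, t * (w i + n - 1) ≤ T i)
    {a e : ℕ} (he : 1 ≤ e) (ha : ∀ i, p ^ e * (w i + n - 1) + p ^ (e - 1) ≤ T i * a)
    (had : d * a < p ^ e * (d / t + 1)) : F ∈ lowI P w (d / t) ^ t := by
  classical
  have hp := (Fact.out : p.Prime)
  by_cases hF0 : F = 0
  · rw [hF0]
    exact Ideal.zero_mem _
  set ν := d / t with hνdef
  have hdt := Nat.div_add_mod d t
  rw [← hνdef] at hdt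
  have hmt := Nat.mod_lt d ht
  set ρ := d % t with hρ
  have hν : 1 ≤ ν := by
    by_contra hcon
    have h0 : ν = 0 := Nat.lt_one_iff.1 (not_le.1 hcon)
    rw [h0, mul_zero, zero_add] at hdt
    have h1 := (mem_mI_pow_iff (P ⟨0, hs⟩) hF0 _).1 (hFm ⟨0, hs⟩)
    have h2 := mu_le_totalDegree (P ⟨0, hs⟩) hF0
    rw [hFd.totalDegree hF0] at h2
    have h3 : t * 1 ≤ t * (w ⟨0, hs⟩ + n - 1) := Nat.mul_le_mul_left _ (by omega)
    have h4 := hT ⟨0, hs⟩
    omega
  -- a high level
  obtain ⟨e', he'⟩ : ∃ e', t * (d + 1) < p ^ e' := ⟨t * (d + 1), Nat.lt_pow_self hp.one_lt⟩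
  set E := e + e' with hE
  set q := p ^ E with hq
  have hqe : q = p ^ e * p ^ e' := by rw [hq, hE, pow_add]
  have hq1 : t * (d + 1) < q := by
    have h1 : 1 * p ^ e' ≤ p ^ e * p ^ e' := Nat.mul_le_mul_right _ (qpos p e)
    omega
  have hq1' : t * d + t < q := by
    have : t * (d + 1) = t * d + t := by ring
    omega
  set a₁ := a * p ^ e' with ha₁
  -- the large power
  have hbig : ∀ L : MvPolynomial (Fin (n + 1)) k →ₗ[k] k, Good P w ν L →
      lam p E L (F ^ a₁) = 0 := by
    intro L hL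
    apply vanish (D := d * a₁) hP hn hs (by omega) hL (hFd.pow a₁)
    · have h1 : d * a₁ = (d * a) * p ^ e' := by rw [ha₁]; ring
      have h2 : (d * a) * p ^ e' < p ^ e * (ν + 1) * p ^ e' :=
        Nat.mul_lt_mul_of_pos_right had (qpos p e')
      have h3 : p ^ e * (ν + 1) * p ^ e' = p ^ E * ν + p ^ E := by
        rw [hE, pow_add]
        ring
      omega
    · intro i
      have h1 : F ^ a₁ ∈ mI (P i) ^ (T i * a₁) := by
        rw [pow_mul]
        exact Ideal.pow_mem_pow (hFm i) a₁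
      refine Ideal.pow_le_pow_right ?_ h1
      have h2 : (p ^ e * (w i + n - 1) + p ^ (e - 1)) * p ^ e' ≤ T i * a * p ^ e' :=
        Nat.mul_le_mul_right _ (ha i)
      have h3 : (p ^ e * (w i + n - 1) + p ^ (e - 1)) * p ^ e' =
          p ^ E * (w i + n - 1) + p ^ (E - 1) := by
        have h4 : E - 1 = (e - 1) + e' := by omega
        rw [h4, hE, pow_add, pow_add]
        ring
      have h5 : T i * a * p ^ e' = T i * a₁ := by rw [ha₁]; ring
      omega
  -- the power which is needed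
  set a₂ := (q + t - 1) / t with ha₂
  have h1 : t * a₂ + (q + t - 1) % t = q + t - 1 := Nat.div_add_mod (q + t - 1) t
  have h2 := Nat.mod_lt (q + t - 1) ht
  have h0 : q + t - 1 + 1 = q + t := by omega
  generalize (q + t - 1) % t = x at h1 h2
  generalize q + t - 1 = y at h1 h0
  generalize hta : t * a₂ = z at h1
  obtain ⟨b', hb'⟩ : ∃ b', t * a₂ = q + b' := ⟨z - q, by omega⟩
  have hbt : b' < t := by omega
  have hda₂ : d * a₂ < p ^ E * ν + p ^ E := by
    rw [← hq]
    apply Nat.lt_of_mul_lt_mul_left (a := t)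
    have h3 : t * (d * a₂) = (q + b') * d := by rw [← hb']; ring
    have h4 : (q + b') * d = q * d + b' * d := by ring
    have h5 : b' * d ≤ t * d := Nat.mul_le_mul_right _ hbt.le
    have h6 : t * (q * ν + q) = q * (t * ν) + q * t := by ring
    have h7 : q * (d + 1) ≤ q * (t * ν + t) := Nat.mul_le_mul_left _ (by omega)
    have h8 : q * (t * ν + t) = q * (t * ν) + q * t := by ring
    have h9 : q * (d + 1) = q * d + q := by ring
    omega
  have hord₂ : ∀ i, F ^ a₂ ∈ mI (P i) ^ (p ^ E * (w i + n - 1)) := by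
    intro i
    have h3 : F ^ a₂ ∈ mI (P i) ^ (T i * a₂) := by
      rw [pow_mul]
      exact Ideal.pow_mem_pow (hFm i) a₂
    refine Ideal.pow_le_pow_right ?_ h3
    calc p ^ E * (w i + n - 1) ≤ (q + b') * (w i + n - 1) :=
          Nat.mul_le_mul_right _ (by omega)
      _ = (t * (w i + n - 1)) * a₂ := by rw [← hb']; ring
      _ ≤ T i * a₂ := Nat.mul_le_mul_right _ (hT i)
  have hord₂' := comp_mem E hP (by omega : 1 ≤ n) (hFd.pow a₂) hord₂
  have hvan : ∀ L : MvPolynomial (Fin (n + 1)) k →ₗ[k] k, Good P w ν L →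
      lam p E L (F ^ a₂) = 0 := by
    intro L hL
    have hord₁ : ∀ i, F ^ a₁ ∈ mI (P i) ^ (p ^ E * (w i + n - 1)) := by
      intro i
      have h3 : F ^ a₁ ∈ mI (P i) ^ (T i * a₁) := by
        rw [pow_mul]
        exact Ideal.pow_mem_pow (hFm i) a₁
      refine Ideal.pow_le_pow_right ?_ h3
      have h2 : (p ^ e * (w i + n - 1) + p ^ (e - 1)) * p ^ e' ≤ T i * a * p ^ e' :=
        Nat.mul_le_mul_right _ (ha i)
      have h3 : (p ^ e * (w i + n - 1) + p ^ (e - 1)) * p ^ e' =
          p ^ E * (w i + n - 1) + p ^ (e - 1) * p ^ e' := by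
        rw [hE, pow_add]
        ring
      have h5 : T i * a * p ^ e' = T i * a₁ := by rw [ha₁]; ring
      omega
    have hord₁' := comp_mem E hP (by omega : 1 ≤ n) (hFd.pow a₁) hord₁
    rcases Nat.le_total a₁ a₂ with hle | hle
    · ext c
      rw [coeff_zero]
      by_cases hc : ∀ i, c i < p ^ E
      · have h3 := lam_mul hL.mulX (F ^ (a₂ - a₁)) (F ^ a₁) hord₁' hc
        rw [hbig L hL, mul_zero, coeff_zero, ← pow_add, Nat.sub_add_cancel hle] at h3
        rw [coeff_lam _ _ hc, ← h3]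
      · rw [coeff_lam_zero _ _ hc]
    · have h3 := lam_exact (s := F ^ (a₁ - a₂)) (G := F ^ a₂) (s' := 1) (G' := F ^ a₁)
        (a := d * (a₁ - a₂)) (D := d * a₂) (a' := 0) (D' := d * a₁) (ν := ν)
        hL.mulX hL.deg (hFd.pow _) (hFd.pow _) (isHomogeneous_one _ _) (hFd.pow _)
        ?_ ?_ hord₂' hord₁' ?_
      · rw [hbig L hL, mul_zero] at h3
        exact (mul_eq_zero.1 h3).resolve_left (pow_ne_zero _ hF0)
      · have h4 : d * (a₁ - a₂) + d * a₂ = d * a₁ := by
          rw [← mul_add, Nat.sub_add_cancel hle]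
        have h1 : d * a₁ = (d * a) * p ^ e' := by rw [ha₁]; ring
        have h2 : (d * a) * p ^ e' < p ^ e * (ν + 1) * p ^ e' :=
          Nat.mul_lt_mul_of_pos_right had (qpos p e')
        have h3 : p ^ e * (ν + 1) * p ^ e' = p ^ E * ν + p ^ E := by
          rw [hE, pow_add]
          ring
        omega
      · have h1 : d * a₁ = (d * a) * p ^ e' := by rw [ha₁]; ring
        have h2 : (d * a) * p ^ e' < p ^ e * (ν + 1) * p ^ e' :=
          Nat.mul_lt_mul_of_pos_right had (qpos p e')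
        have h3 : p ^ e * (ν + 1) * p ^ e' = p ^ E * ν + p ^ E := by
          rw [hE, pow_add]
          ring
        omega
      · rw [← pow_add, Nat.sub_add_cancel hle, one_mul]
  have hc := comps_low hP (by omega : 1 ≤ n) hν (hFd.pow a₂) hda₂ hord₂ hvan
  have h3 : F ^ a₂ ∈ fro p E (lowI P w ν) := fro_of_cmp_mem hc
  have h4 : (F ^ a₂) ^ t ∈ fro p E (lowI P w ν ^ t) := by
    rw [← fro_pow]
    exact Ideal.pow_mem_pow h3 t
  rw [← pow_mul, mul_comm a₂ t, hb', pow_add] at h4
  have hFb : F ^ b' ≠ 0 := pow_ne_zero _ hF0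
  have hFbh : (F ^ b').IsHomogeneous (d * b') := hFd.pow b'
  have hdb : d * b' < p ^ E := by
    have h5 : b' * d ≤ t * d := Nat.mul_le_mul_right _ hbt.le
    have h6 : d * b' = b' * d := mul_comm _ _
    omega
  obtain ⟨β, hβ⟩ := MvPolynomial.ne_zero_iff.1 hFb
  have hβp : ∀ i, β i < p ^ E := by
    intro i
    have h5 : β.degree = d * b' := by
      have := hFbh hβ
      rwa [Finsupp.degree_eq_weight_one]
    have h6 := Finsupp.le_degree i β
    omega
  have h5 := cmp_mem_of_fro h4 hβp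
  rw [mul_comm (F ^ q)] at h5
  rw [mul_comm (F ^ b'), hq, cmp_pow_mul hβp,
    cmp_of_small hβp (by rw [hFbh.totalDegree hFb]; exact hdb)] at h5
  have hr0 : ifr p E (coeff β (F ^ b')) ≠ 0 := by
    intro h
    apply hβ
    rw [← ifr_pow p E (coeff β (F ^ b')), h, zero_pow (qpos p E).ne']
  have h6 := Ideal.mul_mem_right (C (ifr p E (coeff β (F ^ b')))⁻¹) _ h5
  rwa [mul_assoc, ← map_mul, mul_inv_cancel₀ hr0, map_one, mul_one] at h6

end

end Pool.Agent.TH719.HHq
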