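import Pool.Agent.TH719.HHq.Sharp

/-!
The containment for forms without `t`-th power factors and of larger order.
-/

set_option autoImplicit false
set_option linter.unusedSectionVars false

universe u

namespace Pool.Agent.TH719.HHq

open MvPolynomial Pool.Agent.Chud Pool.Agent.H580C Pool.Agent.H737R3
open Pool.Agent.H737R3.Cont (lowI irr)

section

variable {k : Type u} [Field k]

/-- `F ^ a`, compared with `F ^ z (hd c F) ^ j` -/
theorem pf_vanishT {p : ℕ} [Fact p.Prime] [CharP k p] [PerfectRing k p] {n s t d ν E a z : ℕ}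
    {P : Fin s → Fin (n + 1) → k} (hP : ∀ i, P i ≠ 0)
    {w T : Fin s → ℕ} (hn : 1 ≤ n)
    {F : MvPolynomial (Fin (n + 1)) k} (hFd : F.IsHomogeneous d) (hF0 : F ≠ 0)
    (hpf : ∀ v : MvPolynomial (Fin (n + 1)) k, v ^ t ∣ F → IsUnit v)
    (hFm : ∀ i, F ∈ mI (P i) ^ T i) (htd : t ≤ d)
    (hord₁ : ∀ i, p ^ E * (w i + n - 1) ≤ T i * a)
    (hdeg₁ : d * a < p ^ E * ν + p ^ E) (hz : d * z < p ^ E * ν)
    (h : ∀ m, 1 ≤ m → m < t → ∃ j,
      (∀ i, p ^ E * (w i + n - 1) + m * j ≤ T i * (j + z)) ∧
      d * (j + z) < p ^ E * ν + p ^ E + m * j)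
    {L : MvPolynomial (Fin (n + 1)) k →ₗ[k] k} (hL : Good P w ν L) :
    lam p E L (F ^ a) = 0 := by
  classical
  by_contra hφ0
  set φ := lam p E L (F ^ a) with hφ
  have hφh : φ.IsHomogeneous (d * a - p ^ E * ν) := by
    intro c hc
    have h1 := lam_degree hL.deg (hFd.pow a) hc
    have h2 : c.degree = d * a - p ^ E * ν := by omega
    rwa [Finsupp.degree_eq_weight_one] at h2
  have h4 : p ^ E * ν ≤ d * a := by
    obtain ⟨b, hb⟩ := MvPolynomial.ne_zero_iff.1 hφ0
    have := lam_degree hL.deg (hFd.pow a) hb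
    omega
  have hza : z ≤ a := by
    by_contra hcon
    have : d * a ≤ d * z := Nat.mul_le_mul_left _ (by omega)
    omega
  have hGm : ∀ i, F ^ a ∈ mI (P i) ^ (p ^ E * (w i + n - 1)) := by
    intro i
    have h1 : F ^ a ∈ mI (P i) ^ (T i * a) := by
      rw [pow_mul]
      exact Ideal.pow_mem_pow (hFm i) a
    exact Ideal.pow_le_pow_right (hord₁ i) h1
  have hdvd : F ^ (a - z) ∣ φ := by
    apply ufd_dvd (pow_ne_zero _ hF0)
    intro π hπ
    obtain ⟨c, hc, hnd⟩ := exists_hd_not_dvd (p := p) hF0 hpf hπ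
    rcases Nat.eq_zero_or_pos c.degree with hc0 | hc0
    · have hc00 : c = 0 := by
        ext i
        have := Finsupp.le_degree i c
        rw [Finsupp.zero_apply]
        omega
      rw [hc00, hd_zero] at hnd
      exact ⟨F ^ (a - z), fun h => hnd (hπ.dvd_of_dvd_pow h), dvd_mul_right _ _⟩
    obtain ⟨j, hord, hdeg⟩ := h c.degree hc0 hc
    set m := c.degree with hm
    refine ⟨(hd c F) ^ j, fun h => hnd (hπ.dvd_of_dvd_pow h), ?_⟩
    have hH : (F ^ z * (hd c F) ^ j).IsHomogeneous (d * z + (d - m) * j) :=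
      (hFd.pow _).mul ((t_HH t_HC k (n + 1) c d F hFd).pow _)
    have hmd : m ≤ d := by omega
    have hDD : d * z + (d - m) * j + m * j = d * (j + z) := by
      have h1 : (d - m) * j + m * j = d * j := by
        rw [← add_mul, Nat.sub_add_cancel hmd]
      have h2 : d * (j + z) = d * j + d * z := by ring
      omega
    have hHm : ∀ i, F ^ z * (hd c F) ^ j ∈ mI (P i) ^ (p ^ E * (w i + n - 1)) := by
      intro i
      set W := T i with hW
      have h1 : F ^ z * (hd c F) ^ j ∈ mI (P i) ^ (W * z) *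
          mI (P i) ^ ((W - c.degree) * j) := by
        apply Ideal.mul_mem_mul
        · rw [pow_mul]
          exact Ideal.pow_mem_pow (hFm i) _
        · rw [pow_mul]
          exact Ideal.pow_mem_pow (t_HM k (n + 1) c (P i) _ F (hFm i)) _
      rw [← pow_add, ← hm] at h1
      refine Ideal.pow_le_pow_right ?_ h1
      have h2 : W * z + W * j = W * (j + z) := by ring
      have h3 : W * j ≤ (W - m + m) * j := Nat.mul_le_mul_right _ (by omega)
      have h4 : (W - m + m) * j = (W - m) * j + m * j := by ring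
      have h5 := hord i
      rw [← hW] at h5
      omega
    have h1 := ratio' E hP hn hL (hFd.pow a) hH hdeg₁ (by omega) hGm hHm
    rw [← hφ] at h1
    have h2 : F ^ z * F ^ (a - z) ∣ F ^ z * ((hd c F) ^ j * φ) := by
      rw [← mul_assoc, ← h1, ← pow_add, Nat.add_sub_cancel' hza]
      exact dvd_mul_right _ _
    exact (mul_dvd_mul_iff_left (pow_ne_zero _ hF0)).1 h2
  obtain ⟨m, hm⟩ := hdvd
  have hm0 : m ≠ 0 := by
    rintro rfl
    exact hφ0 (by rw [hm, mul_zero])
  have h1 := hφh.totalDegree hφ0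
  rw [hm, totalDegree_mul_of_isDomain (pow_ne_zero _ hF0) hm0,
    (hFd.pow _).totalDegree (pow_ne_zero _ hF0)] at h1
  have h2 := qpos p E
  have h3 : d * (a - z) + d * z = d * a := by
    rw [← mul_add, Nat.sub_add_cancel hza]
  omega

/-- the containment for forms without `t`-th power factors -/
theorem pf_lowT (p : ℕ) [Fact p.Prime] [CharP k p] [PerfectRing k p] {n s t d c : ℕ}
    {P : Fin s → Fin (n + 1) → k} (hP : ∀ i, P i ≠ 0)
    {w : Fin s → ℕ} (hn : 1 ≤ n) (ht : 0 < t) (htd : t ≤ d)
    {F : MvPolynomial (Fin (n + 1)) k} (hFd : F.IsHomogeneous d) (hF0 : F ≠ 0)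
    (hpf : ∀ v : MvPolynomial (Fin (n + 1)) k, v ^ t ∣ F → IsUnit v)
    (hFm : ∀ i, F ∈ mI (P i) ^ (t * (w i + n - 1) + c))
    (hw : ∀ i, n ≤ w i + n - 1) (hρ1 : 1 ≤ d % t)
    (hκ : t - 1 ≤ n * (t - d % t) + c * (d / t + 1)) :
    F ∈ lowI P w (d / t) ^ t := by
  have hp := (Fact.out : p.Prime)
  have hν : 1 ≤ d / t := (Nat.one_le_div_iff ht).2 htd
  set B := t * (d + 1) + 2 * (d * d * (n * t + c)) + d * (n * t + c + 1) with hB
  obtain ⟨E, hE⟩ : ∃ E, B < p ^ E := ⟨B, Nat.lt_pow_self hp.one_lt⟩
  have hdt := Nat.div_add_mod d t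
  have hmt := Nat.mod_lt d ht
  set ν := d / t with hνdef
  set ρ := d % t with hρ
  have hd : 0 < d := by omega
  have htd1 : t * (d + 1) = t * d + t := by ring
  -- the power
  set a := (p ^ E + t - 1) / t with ha
  have h1 : t * a + (p ^ E + t - 1) % t = p ^ E + t - 1 := Nat.div_add_mod (p ^ E + t - 1) t
  have h2 := Nat.mod_lt (p ^ E + t - 1) ht
  generalize (p ^ E + t - 1) % t = x at h1 h2
  have h3 : p ^ E ≤ t * a := by omega
  have h4 : t * a < p ^ E + t := by omega
  have hord₁ : ∀ i, p ^ E * (w i + n - 1) ≤ (t * (w i + n - 1) + c) * a := by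
    intro i
    calc p ^ E * (w i + n - 1) ≤ t * a * (w i + n - 1) := Nat.mul_le_mul_right _ h3
      _ = t * (w i + n - 1) * a := by ring
      _ ≤ (t * (w i + n - 1) + c) * a := Nat.mul_le_mul_right _ (Nat.le_add_right _ _)
  have hdeg₁ : d * a < p ^ E * ν + p ^ E := by
    apply Nat.lt_of_mul_lt_mul_left (a := t)
    have h5 : t * (d * a) = d * (t * a) := by ring
    have h6 : d * (t * a) ≤ d * (p ^ E + t) := Nat.mul_le_mul_left _ h4.le
    have h7 : d * (p ^ E + t) = p ^ E * d + t * d := by ring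
    have h8 : t * (p ^ E * ν + p ^ E) = p ^ E * (t * ν + t) := by ring
    have h9 : p ^ E * (d + 1) ≤ p ^ E * (t * ν + t) := Nat.mul_le_mul_left _ (by omega)
    have h10 : p ^ E * (d + 1) = p ^ E * d + p ^ E := by ring
    omega
  -- the exponent `z`
  have hqν : p ^ E * 1 ≤ p ^ E * ν := Nat.mul_le_mul_left _ hν
  have hq0 := qpos p E
  set z := (p ^ E * ν - 1) / d with hzdef
  have h5 : d * z + (p ^ E * ν - 1) % d = p ^ E * ν - 1 := Nat.div_add_mod _ _
  have h6 := Nat.mod_lt (p ^ E * ν - 1) hd
  generalize (p ^ E * ν - 1) % d = y at h5 h6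
  have hz : d * z < p ^ E * ν := by omega
  have hz' : p ^ E * ν ≤ d * z + d := by omega
  have htz : t * z ≤ p ^ E := by
    apply Nat.le_of_mul_le_mul_left _ hd
    have h7 : d * (t * z) = t * (d * z) := by ring
    have h8 : t * (d * z) ≤ t * (p ^ E * ν) := Nat.mul_le_mul_left _ hz.le
    have h9 : t * (p ^ E * ν) = p ^ E * (t * ν) := by ring
    have h10 : p ^ E * (t * ν) ≤ p ^ E * d := Nat.mul_le_mul_left _ (by omega)
    have h11 : p ^ E * d = d * p ^ E := mul_comm _ _
    omega
  obtain ⟨g, hg⟩ : ∃ g, p ^ E = t * z + g := ⟨p ^ E - t * z, by omega⟩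
  -- `d g ≤ q ρ + t d`
  have hdg : d * g ≤ p ^ E * ρ + t * d := by
    have e1 : d * p ^ E = t * (d * z) + d * g := by rw [hg]; ring
    have e2 : t * (p ^ E * ν) ≤ t * (d * z + d) := Nat.mul_le_mul_left _ hz'
    have e3 : t * (d * z + d) = t * (d * z) + t * d := by ring
    have e4 : d * p ^ E = t * (p ^ E * ν) + p ^ E * ρ := by
      calc d * p ^ E = (t * ν + ρ) * p ^ E := by rw [hdt]
        _ = _ := by ring
    omega
  have hex : ∀ m, 1 ≤ m → m < t → ∃ j,
      (∀ i, p ^ E * (w i + n - 1) + m * j ≤ (t * (w i + n - 1) + c) * (j + z)) ∧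
      d * (j + z) < p ^ E * ν + p ^ E + m * j := by
    intro m hm1 hmt'
    have hnt : t ≤ n * t := Nat.le_mul_of_pos_left _ (by omega)
    obtain ⟨r, hr⟩ : ∃ r, n * t + c = m + r := ⟨n * t + c - m, by omega⟩
    have hr0 : 0 < r := by omega
    have hmd : m ≤ d := by omega
    obtain ⟨d', hd'⟩ : ∃ d', d = m + d' := ⟨d - m, by omega⟩
    -- first lower bound
    set A := n * p ^ E - (n * t + c) * z with hA
    set j₁ := (A + r - 1) / r with hj₁
    have f1 : r * j₁ + (A + r - 1) % r = A + r - 1 := Nat.div_add_mod _ _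
    have f2 := Nat.mod_lt (A + r - 1) hr0
    generalize (A + r - 1) % r = x' at f1 f2
    have f3 : A ≤ r * j₁ := by omega
    have f4 : r * j₁ < A + r := by omega
    -- second lower bound
    set j₂ := (g + t - 1) / t with hj₂
    have f5 : t * j₂ + (g + t - 1) % t = g + t - 1 := Nat.div_add_mod _ _
    have f6 := Nat.mod_lt (g + t - 1) ht
    generalize (g + t - 1) % t = x'' at f5 f6
    have f7 : g ≤ t * j₂ := by omega
    have f8 : t * j₂ < g + t := by omega
    -- the degrees
    have key₂ : d' * j₂ ≤ p ^ E := by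
      apply Nat.le_of_mul_le_mul_left _ ht
      have k1 : t * (d' * j₂) = d' * (t * j₂) := by ring
      have k2 : d' * (t * j₂) ≤ d * (t * j₂) := Nat.mul_le_mul_right _ (by omega)
      have k3 : d * (t * j₂) ≤ d * (g + t) := Nat.mul_le_mul_left _ f8.le
      have k4 : d * (g + t) = d * g + t * d := by ring
      have k5 : p ^ E * (ρ + 1) ≤ p ^ E * t := Nat.mul_le_mul_left _ hmt
      have k6 : p ^ E * (ρ + 1) = p ^ E * ρ + p ^ E := by ring
      have k7 : p ^ E * t = t * p ^ E := mul_comm _ _
      have k8 : t * d ≤ d * d * (n * t + c) := by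
        calc t * d ≤ (n * t + c) * (d * d) :=
              Nat.mul_le_mul (by omega) (Nat.le_mul_of_pos_left _ hd)
          _ = d * d * (n * t + c) := by ring
      omega
    have key₁ : d' * j₁ ≤ p ^ E := by
      rcases Nat.lt_or_ge (n * t + c) A with hAl | hAs
      · obtain ⟨κ, hκ'⟩ : ∃ κ, t = ρ + κ := ⟨t - ρ, by omega⟩
        have k6 : m ≤ n * κ + c * (ν + 1) := by
          have : t - ρ = κ := by omega
          rw [this] at hκ
          omega
        obtain ⟨v, hv⟩ : ∃ v, n * κ + c * (ν + 1) = m + v :=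
          ⟨n * κ + c * (ν + 1) - m, by omega⟩
        have hcν : c * (ν + 1) = c * ν + c := by ring
        have k7 : r + c * ν = n * ρ + v := by
          have : n * t = n * ρ + n * κ := by rw [hκ']; ring
          omega
        -- d A + c ν q ≤ q n ρ + (n t + c) d
        have hAeq : A + (n * t + c) * z = n * p ^ E := by omega
        have l1 : d * A + (n * t + c) * (d * z) = n * (d * p ^ E) := by
          calc d * A + (n * t + c) * (d * z) = d * (A + (n * t + c) * z) := by ring
            _ = n * (d * p ^ E) := by rw [hAeq]; ring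
        have l2 : (n * t + c) * (p ^ E * ν) ≤ (n * t + c) * (d * z + d) :=
          Nat.mul_le_mul_left _ hz'
        have l3 : (n * t + c) * (d * z + d) = (n * t + c) * (d * z) + (n * t + c) * d := by ring
        have l4 : n * (d * p ^ E) = n * t * (p ^ E * ν) + p ^ E * (n * ρ) := by
          calc n * (d * p ^ E) = n * ((t * ν + ρ) * p ^ E) := by rw [hdt]
            _ = _ := by ring
        have l5 : (n * t + c) * (p ^ E * ν) = n * t * (p ^ E * ν) + p ^ E * (c * ν) := by ring
        have l6 : d * A + p ^ E * (c * ν) ≤ p ^ E * (n * ρ) + (n * t + c) * d := by omega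
        -- n ρ ≥ c ν + 1
        have l7 : (n * t + c) * d + 1 ≤ d * A := by
          have : d * (n * t + c + 1) ≤ d * A := Nat.mul_le_mul_left _ hAl
          have h' : d * (n * t + c + 1) = (n * t + c) * d + d := by ring
          omega
        have l8 : c * ν < n * ρ := by
          apply Nat.lt_of_mul_lt_mul_left (a := p ^ E)
          omega
        obtain ⟨u, hu⟩ : ∃ u, n * ρ = c * ν + u := ⟨n * ρ - c * ν, by omega⟩
        have hu1 : 1 ≤ u := by omega
        have l9 : r = u + v := by omega
        have l10 : d * A ≤ p ^ E * u + (n * t + c) * d := by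
          have : p ^ E * (n * ρ) = p ^ E * (c * ν) + p ^ E * u := by rw [hu]; ring
          omega
        apply Nat.le_of_mul_le_mul_left _ (Nat.mul_pos hd hr0)
        have k1 : d * r * (d' * j₁) = d * d' * (r * j₁) := by ring
        have k2 : d * d' * (r * j₁) ≤ d * d' * (A + r) := Nat.mul_le_mul_left _ f4.le
        have k3 : d * d' * (A + r) = d' * (d * A) + d * d' * r := by ring
        have k4 : d' * (d * A) ≤ d' * (p ^ E * u + (n * t + c) * d) := Nat.mul_le_mul_left _ l10
        have k5 : d' * (p ^ E * u + (n * t + c) * d) =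
            p ^ E * (d' * u) + d * d' * (n * t + c) := by ring
        have k8 : d * r = d' * u + (m * u + d * v) := by
          rw [l9, mul_add]
          nth_rewrite 1 [hd']
          ring
        have k9 : 1 ≤ m * u + d * v := by
          have : 0 < m * u := Nat.mul_pos (by omega) (by omega)
          omega
        have k10 : p ^ E * (d' * u + 1) ≤ p ^ E * (d * r) := Nat.mul_le_mul_left _ (by omega)
        have k11 : p ^ E * (d' * u + 1) = p ^ E * (d' * u) + p ^ E := by ring
        have k12 : d * d' * (n * t + c) ≤ d * d * (n * t + c) :=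
          Nat.mul_le_mul_right _ (Nat.mul_le_mul_left _ (by omega))
        have k13 : d * d' * r ≤ d * d * (n * t + c) :=
          Nat.mul_le_mul (Nat.mul_le_mul_left _ (by omega)) (by omega)
        have k14 : p ^ E * (d * r) = d * r * p ^ E := mul_comm _ _
        omega
      · -- `j₁ ≤ n t + c + 1`
        have l1 : r * j₁ < r * (n * t + c + 1) := by
          have : r * (n * t + c + 1) = r * (n * t + c) + r := by ring
          have h' : 1 * (n * t + c) ≤ r * (n * t + c) := Nat.mul_le_mul_right _ hr0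
          omega
        have l2 := Nat.lt_of_mul_lt_mul_left l1
        have l3 : d' * j₁ ≤ d * (n * t + c + 1) := Nat.mul_le_mul (by omega) l2.le
        omega
    refine ⟨max j₁ j₂, ?_, ?_⟩
    · intro i
      have hj1 : j₁ ≤ max j₁ j₂ := le_max_left _ _
      have hj2 : j₂ ≤ max j₁ j₂ := le_max_right _ _
      generalize max j₁ j₂ = j at hj1 hj2
      obtain ⟨u, hu⟩ : ∃ u, w i + n - 1 = n + u := ⟨w i + n - 1 - n, by have := hw i; omega⟩
      rw [hu]
      have g1 : (n * t + c) * (j + z) = m * j + r * j + (n * t + c) * z := by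
        rw [mul_add, hr]; ring
      have g2 : r * j₁ ≤ r * j := Nat.mul_le_mul_left _ hj1
      have g3 : n * p ^ E + m * j ≤ (n * t + c) * (j + z) := by omega
      have g4 : t * j₂ ≤ t * j := Nat.mul_le_mul_left _ hj2
      have g5 : t * (j + z) = t * j + t * z := by ring
      have g6 : p ^ E ≤ t * (j + z) := by omega
      have g7 : u * p ^ E ≤ u * (t * (j + z)) := Nat.mul_le_mul_left _ g6
      have g8 : p ^ E * (n + u) = n * p ^ E + u * p ^ E := by ring
      have g9 : (t * (n + u) + c) * (j + z) = (n * t + c) * (j + z) + u * (t * (j + z)) := by ring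
      omega
    · have key : d' * max j₁ j₂ ≤ p ^ E := by
        rcases le_total j₁ j₂ with h | h
        · rwa [max_eq_right h]
        · rwa [max_eq_left h]
      generalize max j₁ j₂ = j at key
      have k1 : d * (j + z) = m * j + d' * j + d * z := by
        rw [mul_add]
        congr 1
        rw [hd']
        ring
      omega
  apply finish hP hn ht hFd hF0 (fun i => Ideal.pow_le_pow_right (Nat.le_add_right _ _) (hFm i)) hν
    (E := E) (a₁ := a)
  · omega
  · intro i
    have h9 : F ^ a ∈ mI (P i) ^ ((t * (w i + n - 1) + c) * a) := by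
      rw [pow_mul]
      exact Ideal.pow_mem_pow (hFm i) a
    exact Ideal.pow_le_pow_right (hord₁ i) h9
  · exact hdeg₁
  · intro L hL
    exact pf_vanishT hP hn hFd hF0 hpf hFm htd hord₁ hdeg₁ hz hex hL

end

end Pool.Agent.TH719.HHq
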