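import Pool.Agent.TH719.HHq.Crit

/-!
The containment for forms: from one power to the root, and forms without `t`-th power factors.
-/

set_option autoImplicit false
set_option linter.unusedSectionVars false

universe u

namespace Pool.Agent.TH719.HHq

open MvPolynomial Pool.Agent.Chud Pool.Agent.H580C Pool.Agent.H737R3
open Pool.Agent.H737R3.Cont (lowI irr)

section

variable {k : Type u} [Field k] {p : ℕ} [Fact p.Prime] [CharP k p] [PerfectRing k p]

/-- if one power of `F` has vanishing functional values then `F` is in the ideal -/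
theorem finish {n s t d : ℕ} {P : Fin s → Fin (n + 1) → k} (hP : ∀ i, P i ≠ 0)
    {w : Fin s → ℕ} (hn : 1 ≤ n) (ht : 0 < t)
    {F : MvPolynomial (Fin (n + 1)) k} (hFd : F.IsHomogeneous d) (hF0 : F ≠ 0)
    (hFm : ∀ i, F ∈ mI (P i) ^ (t * (w i + n - 1))) (hν : 1 ≤ d / t)
    {E a₁ : ℕ} (hE : t * (d + 1) < p ^ E)
    (hord₁ : ∀ i, F ^ a₁ ∈ mI (P i) ^ (p ^ E * (w i + n - 1)))
    (hda₁ : d * a₁ < p ^ E * (d / t) + p ^ E)
    (hbig : ∀ L : MvPolynomial (Fin (n + 1)) k →ₗ[k] k, Good P w (d / t) L →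
      lam p E L (F ^ a₁) = 0) : F ∈ lowI P w (d / t) ^ t := by
  classical
  have hp := (Fact.out : p.Prime)
  set ν := d / t with hνdef
  have hdt := Nat.div_add_mod d t
  rw [← hνdef] at hdt
  have hmt := Nat.mod_lt d ht
  set ρ := d % t with hρ
  set q := p ^ E with hq
  have hq1' : t * d + t < q := by
    have : t * (d + 1) = t * d + t := by ring
    omega
  -- the power which is needed
  set a₂ := (q + t - 1) / t with ha₂
  have h1 : t * a₂ + (q + t - 1) % t = q + t - 1 := Nat.div_add_mod (q + t - 1) t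
  have h2 := Nat.mod_lt (q + t - 1) ht
  have h0 : q + t - 1 + 1 = q + t := by omega
  generalize (q + t - 1) % t = x at h1 h2
  generalize q + t - 1 = y at h1 h0
  generalize hta : t * a₂ = z at h1
  obtain ⟨b', hb'⟩ : ∃ b', t * a₂ = q + b' := ⟨z - q, by omega⟩
  have hbt : b' < t := by omega
  have hda₂ : d * a₂ < p ^ E * ν + p ^ E := by
    rw [← hq]
    apply Nat.lt_of_mul_lt_mul_left (a := t)
    have h3 : t * (d * a₂) = (q + b') * d := by rw [← hb']; ring
    have h4 : (q + b') * d = q * d + b' * d := by ring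
    have h5 : b' * d ≤ t * d := Nat.mul_le_mul_right _ hbt.le
    have h6 : t * (q * ν + q) = q * (t * ν) + q * t := by ring
    have h7 : q * (d + 1) ≤ q * (t * ν + t) := Nat.mul_le_mul_left _ (by omega)
    have h8 : q * (t * ν + t) = q * (t * ν) + q * t := by ring
    have h9 : q * (d + 1) = q * d + q := by ring
    omega
  have hord₂ : ∀ i, F ^ a₂ ∈ mI (P i) ^ (p ^ E * (w i + n - 1)) := by
    intro i
    have h3 : F ^ a₂ ∈ mI (P i) ^ ((t * (w i + n - 1)) * a₂) := by
      rw [pow_mul]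
      exact Ideal.pow_mem_pow (hFm i) a₂
    refine Ideal.pow_le_pow_right ?_ h3
    calc p ^ E * (w i + n - 1) ≤ (q + b') * (w i + n - 1) :=
          Nat.mul_le_mul_right _ (by omega)
      _ = (t * (w i + n - 1)) * a₂ := by rw [← hb']; ring
  have hord₂' := comp_mem E hP hn (hFd.pow a₂) hord₂
  have hvan : ∀ L : MvPolynomial (Fin (n + 1)) k →ₗ[k] k, Good P w ν L →
      lam p E L (F ^ a₂) = 0 := by
    intro L hL
    have hord₁' := comp_mem E hP hn (hFd.pow a₁) hord₁
    have hda₁' : d * a₁ < p ^ E * ν + p ^ E := hda₁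
    rcases Nat.le_total a₁ a₂ with hle | hle
    · ext c
      rw [coeff_zero]
      by_cases hc : ∀ i, c i < p ^ E
      · have h3 := lam_mul hL.mulX (F ^ (a₂ - a₁)) (F ^ a₁) hord₁' hc
        rw [hbig L hL, mul_zero, coeff_zero, ← pow_add, Nat.sub_add_cancel hle] at h3
        rw [coeff_lam _ _ hc, ← h3]
      · rw [coeff_lam_zero _ _ hc]
    · have h3 := lam_exact (s := F ^ (a₁ - a₂)) (G := F ^ a₂) (s' := 1) (G' := F ^ a₁)
        (a := d * (a₁ - a₂)) (D := d * a₂) (a' := 0) (D' := d * a₁) (ν := ν)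
        hL.mulX hL.deg (hFd.pow _) (hFd.pow _) (isHomogeneous_one _ _) (hFd.pow _)
        ?_ ?_ hord₂' hord₁' ?_
      · rw [hbig L hL, mul_zero] at h3
        exact (mul_eq_zero.1 h3).resolve_left (pow_ne_zero _ hF0)
      · have h4 : d * (a₁ - a₂) + d * a₂ = d * a₁ := by
          rw [← mul_add, Nat.sub_add_cancel hle]
        omega
      · omega
      · rw [← pow_add, Nat.sub_add_cancel hle, one_mul]
  have hc := comps_low hP hn hν (hFd.pow a₂) hda₂ hord₂ hvan
  have h3 : F ^ a₂ ∈ fro p E (lowI P w ν) := fro_of_cmp_mem hc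
  have h4 : (F ^ a₂) ^ t ∈ fro p E (lowI P w ν ^ t) := by
    rw [← fro_pow]
    exact Ideal.pow_mem_pow h3 t
  rw [← pow_mul, mul_comm a₂ t, hb', pow_add] at h4
  have hFb : F ^ b' ≠ 0 := pow_ne_zero _ hF0
  have hFbh : (F ^ b').IsHomogeneous (d * b') := hFd.pow b'
  have hdb : d * b' < p ^ E := by
    have h5 : b' * d ≤ t * d := Nat.mul_le_mul_right _ hbt.le
    have h6 : d * b' = b' * d := mul_comm _ _
    omega
  obtain ⟨β, hβ⟩ := MvPolynomial.ne_zero_iff.1 hFb
  have hβp : ∀ i, β i < p ^ E := by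
    intro i
    have h5 : β.degree = d * b' := by
      have := hFbh hβ
      rwa [Finsupp.degree_eq_weight_one]
    have h6 := Finsupp.le_degree i β
    omega
  have h5 := cmp_mem_of_fro h4 hβp
  rw [mul_comm (F ^ q)] at h5
  rw [mul_comm (F ^ b'), hq, cmp_pow_mul hβp,
    cmp_of_small hβp (by rw [hFbh.totalDegree hFb]; exact hdb)] at h5
  have hr0 : ifr p E (coeff β (F ^ b')) ≠ 0 := by
    intro h
    apply hβ
    rw [← ifr_pow p E (coeff β (F ^ b')), h, zero_pow (qpos p E).ne']
  have h6 := Ideal.mul_mem_right (C (ifr p E (coeff β (F ^ b')))⁻¹) _ h5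
  rwa [mul_assoc, ← map_mul, mul_inv_cancel₀ hr0, map_one, mul_one] at h6

end

end Pool.Agent.TH719.HHq
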