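import Pool.Agent.TH719.HHq.Main

/-!
Ideal versions of the containment in positive characteristic.
-/

set_option autoImplicit false
set_option linter.unusedSectionVars false

universe u

namespace Pool.Agent.TH719.HHq

open MvPolynomial Pool.Agent.Chud Pool.Agent.H580C Pool.Agent.H737R3 Pool.Agent.H737R3.Cont

section

variable {k : Type u} [Field k]

/-- forms of degree divisible by `t`, for ideals -/
theorem cont_dvd (p : ℕ) [Fact p.Prime] [CharP k p] [PerfectRing k p] {n s t d : ℕ}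
    (hn : 2 ≤ n) (hs : 0 < s) (ht : 0 < t) (htd : t ∣ d)
    (P : Fin s → Fin (n + 1) → k) (hP : ∀ i, P i ≠ 0) (w : Fin s → ℕ)
    {F : MvPolynomial (Fin (n + 1)) k} (hF : F.IsHomogeneous d)
    (h : F ∈ ⨅ i, linI (P i) ^ (t * (w i + n - 1))) :
    F ∈ irr k n ^ t * (⨅ i, linI (P i) ^ w i) ^ t := by
  rw [Submodule.mem_iInf] at h
  apply Pool.Agent.H915R3.ContT2.taskT2 k n s t d P w _ ht hP hF
  exact contQ p n s t d P w F hn hs ht htd hP hF
    fun i => Ideal.pow_right_mono (linI_le_mI (P i)) _ (h i)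

theorem irr_pow_le {n : ℕ} (c : ℕ) :
    irr k n ^ c ≤ Ideal.span {h : MvPolynomial (Fin (n + 1)) k | h.IsHomogeneous c} := by
  induction c with
  | zero =>
    intro x _
    have h1 : (1 : MvPolynomial (Fin (n + 1)) k) ∈
        Ideal.span {h : MvPolynomial (Fin (n + 1)) k | h.IsHomogeneous 0} :=
      Ideal.subset_span (isHomogeneous_one _ _)
    rw [(Ideal.eq_top_iff_one _).2 h1]
    exact Submodule.mem_top
  | succ c ih =>
    rw [pow_succ]
    refine (Ideal.mul_mono ih le_rfl).trans ?_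
    unfold irr
    rw [Ideal.span_mul_span', Ideal.span_le]
    rintro _ ⟨x, hx, _, ⟨i, rfl⟩, rfl⟩
    apply Ideal.subset_span
    exact IsHomogeneous.mul hx (isHomogeneous_X k i)

/-- the containment after multiplication by the `(t-1)`-st power of the irrelevant ideal -/
theorem cont_mul (p : ℕ) [Fact p.Prime] [CharP k p] [PerfectRing k p] {n s t : ℕ}
    (hn : 2 ≤ n) (hs : 0 < s) (ht : 0 < t)
    (P : Fin s → Fin (n + 1) → k) (hP : ∀ i, P i ≠ 0) (w : Fin s → ℕ) :
    irr k n ^ (t - 1) * (⨅ i, linI (P i) ^ (t * (w i + n - 1))) ≤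
      irr k n ^ t * (⨅ i, linI (P i) ^ w i) ^ t := by
  rw [Ideal.mul_le]
  intro x hx F hF
  rw [← sum_homogeneousComponent F, Finset.mul_sum]
  apply Ideal.sum_mem
  intro d _
  set G := homogeneousComponent d F with hG
  have hGd : G.IsHomogeneous d := homogeneousComponent_isHomogeneous d F
  have hGm : G ∈ ⨅ i, linI (P i) ^ (t * (w i + n - 1)) := by
    rw [Submodule.mem_iInf] at hF ⊢
    exact fun i => component_mem (P i) _ (hF i) d
  obtain ⟨c, hc, hcd⟩ : ∃ c, c ≤ t - 1 ∧ t ∣ c + d := by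
    refine ⟨(t - d % t) % t, ?_, ?_⟩
    · have := Nat.mod_lt (t - d % t) ht
      omega
    · have h1 := Nat.mod_lt d ht
      rw [Nat.dvd_iff_mod_eq_zero, Nat.add_mod, Nat.mod_mod]
      rcases Nat.eq_zero_or_pos (d % t) with h0 | h0
      · rw [h0, Nat.sub_zero, Nat.mod_self, Nat.zero_mod]
      · rw [Nat.mod_eq_of_lt (by omega : t - d % t < t), Nat.sub_add_cancel h1.le, Nat.mod_self]
  have hx' : x ∈ Ideal.span {h : MvPolynomial (Fin (n + 1)) k | h.IsHomogeneous c} :=
    irr_pow_le c (Ideal.pow_le_pow_right hc hx)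
  refine Submodule.span_induction (p := fun x _ => x * G ∈
    irr k n ^ t * (⨅ i, linI (P i) ^ w i) ^ t) ?_ ?_ ?_ ?_ hx'
  · intro h hh
    apply cont_dvd p hn hs ht hcd P hP w (IsHomogeneous.mul hh hGd)
    exact Ideal.mul_mem_left _ _ hGm
  · rw [zero_mul]
    exact Ideal.zero_mem _
  · intro x y _ _ hx hy
    rw [add_mul]
    exact Ideal.add_mem _ hx hy
  · intro a x _ hx
    rw [smul_eq_mul, mul_assoc]
    exact Ideal.mul_mem_left _ _ hx

end

end Pool.Agent.TH719.HHq
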