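import Pool.Agent.TH719.HHq.Extra
import Pool.Agent.TH719.HHq.Full

/-!
The containment for forms of larger order, by induction on the degree.
-/

set_option autoImplicit false
set_option linter.unusedSectionVars false

universe u

namespace Pool.Agent.TH719.HHq

open MvPolynomial Pool.Agent.Chud Pool.Agent.H580C Pool.Agent.H737R3
open Pool.Agent.H737R3.Cont (lowI irr)

section

variable {k : Type u} [Field k]

theorem cont_posT (p : ℕ) [Fact p.Prime] [CharP k p] [PerfectRing k p] {n t c : ℕ} (hn : 2 ≤ n) (ht : 0 < t) (d : ℕ) :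
    ∀ (s : ℕ) (P : Fin s → Fin (n + 1) → k) (w : Fin s → ℕ) (F : MvPolynomial (Fin (n + 1)) k),
      (∀ i, P i ≠ 0) → (∀ i, 1 ≤ w i) → F.IsHomogeneous d → F ≠ 0 → t ≤ d →
      t ≤ n * (t - d % t) + c * (n + 1) + 1 →
      (∀ i, t * (w i + n - 1) + c ≤ mu (P i) F) →
      F ∈ irr k n ^ t * (⨅ i, linI (P i) ^ w i) ^ t := by
  induction d using Nat.strong_induction_on with
  | _ d ih =>
    intro s P w F hP hw hF hF0 htd hρ hm
    classical
    by_cases hpf : ∀ v : MvPolynomial (Fin (n + 1)) k, v ^ t ∣ F → IsUnit v
    · rcases Nat.eq_zero_or_pos s with hs0 | hs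
      · subst hs0
        have : (⨅ i, linI (P i) ^ w i : Ideal (MvPolynomial (Fin (n + 1)) k)) = ⊤ := by
          simp
        rw [this, ← Ideal.one_eq_top, one_pow, mul_one]
        exact homog_mem_irr_pow hF htd
      apply Pool.Agent.H915R3.ContT2.taskT2 k n s t d P w F ht hP hF
      have hFm : ∀ i, F ∈ mI (P i) ^ (t * (w i + n - 1) + c) := fun i =>
        (mem_mI_pow_iff (P i) hF0 _).2 (hm i)
      rcases Nat.eq_zero_or_pos (d % t) with h0 | h0
      · apply pf_low p hP (by omega) ht htd hF hF0 hpf
          (fun i => Ideal.pow_le_pow_right (Nat.le_add_right _ _) (hFm i))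
        intro i
        rw [h0, Nat.sub_zero]
        exact Nat.le_mul_of_pos_left _ (by omega)
      · have hνn : n ≤ d / t := by
          rw [Nat.le_div_iff_mul_le ht]
          have h1 := hm ⟨0, hs⟩
          have h2 := mu_le_totalDegree (P ⟨0, hs⟩) hF0
          rw [hF.totalDegree hF0] at h2
          have h3 := hw ⟨0, hs⟩
          have h4 : t * n ≤ t * (w ⟨0, hs⟩ + n - 1) := Nat.mul_le_mul_left _ (by omega)
          have h5 : n * t = t * n := mul_comm _ _
          omega
        have hcn : c * (n + 1) ≤ c * (d / t + 1) := Nat.mul_le_mul_left _ (by omega)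
        apply pf_lowT (c := c) p hP (by omega) ht htd hF hF0 hpf hFm _ h0 (by omega)
        intro i
        have := hw i
        omega
    · push Not at hpf
      obtain ⟨v, ⟨F₁, hF₁⟩, hvu⟩ := hpf
      have hv0 : v ≠ 0 := by
        rintro rfl
        rw [zero_pow ht.ne', zero_mul] at hF₁
        exact hF0 hF₁
      have hF₁0 : F₁ ≠ 0 := by
        rintro rfl
        rw [mul_zero] at hF₁
        exact hF0 hF₁
      have hvh : v.IsHomogeneous v.totalDegree := by
        apply homog_of_dvd hF hF0
        exact (dvd_pow_self v ht.ne').trans ⟨F₁, hF₁⟩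
      have hF₁h : F₁.IsHomogeneous F₁.totalDegree := by
        apply homog_of_dvd hF hF0
        exact ⟨v ^ t, by rw [hF₁, mul_comm]⟩
      set dv := v.totalDegree with hdv
      set d₁ := F₁.totalDegree with hd₁
      have hdv1 : 1 ≤ dv := by
        by_contra h
        have h0 : v.totalDegree = 0 := by omega
        have h1 := totalDegree_eq_zero_iff_eq_C.1 h0
        apply hvu
        rw [h1]
        apply IsUnit.map C
        apply IsUnit.mk0
        intro h2
        apply hv0
        rw [h1, h2, map_zero]
      have hdd : d = t * dv + d₁ := by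
        have h1 := hF.totalDegree hF0
        rw [hF₁, totalDegree_mul_of_isDomain (pow_ne_zero _ hv0) hF₁0,
          (hvh.pow t).totalDegree (pow_ne_zero _ hv0)] at h1
        rw [← h1, mul_comm t]
      have hmuF : ∀ i, mu (P i) F = t * mu (P i) v + mu (P i) F₁ := by
        intro i
        rw [hF₁, mu_mul _ (pow_ne_zero _ hv0) hF₁0, BL_mu_pow _ hv0]
      have htdv : t * 1 ≤ t * dv := Nat.mul_le_mul_left _ hdv1
      rcases Nat.lt_or_ge d₁ t with hlt | hge
      · have hvm : ∀ i, w i + n - 1 ≤ mu (P i) v := by
          intro i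
          have h1 := hm i
          rw [hmuF i] at h1
          have h2 := mu_le_totalDegree (P i) hF₁0
          have h3 : t * (w i + n - 1) < t * (mu (P i) v + 1) := by
            have : t * (mu (P i) v + 1) = t * mu (P i) v + t := by ring
            omega
          have := Nat.lt_of_mul_lt_mul_left h3
          omega
        have hvI : v ∈ irr k n * (⨅ i, linI (P i) ^ w i) := by
          rcases Nat.eq_zero_or_pos s with h0 | hs
          · subst h0
            have : (⨅ i, linI (P i) ^ w i : Ideal (MvPolynomial (Fin (n + 1)) k)) = ⊤ := by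
              simp
            rw [this, Ideal.mul_top]
            have := homog_mem_irr_pow hvh hdv1
            rwa [pow_one] at this
          · have h1 := cont_mul p hn hs one_pos P hP w
            rw [Nat.sub_self, pow_zero, one_mul, pow_one, pow_one] at h1
            apply h1
            rw [Submodule.mem_iInf]
            intro i
            rw [one_mul]
            exact mem_linI_pow hvh (hP i) ((mem_mI_pow_iff (P i) hv0 _).2 (hvm i))
        rw [← mul_pow, hF₁]
        exact Ideal.mul_mem_right _ _ (Ideal.pow_mem_pow hvI t)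
      · set S := {i : Fin s // mu (P i) v < w i} with hS
        set s' := Fintype.card S with hs'
        set f : Fin s' → Fin s := fun j => ((Fintype.equivFin S).symm j).1 with hf
        have hfp : ∀ j, mu (P (f j)) v < w (f j) := fun j => ((Fintype.equivFin S).symm j).2
        have hfs : ∀ i, mu (P i) v < w i → ∃ j, f j = i := by
          intro i hi
          exact ⟨Fintype.equivFin S ⟨i, hi⟩, by rw [hf]; simp⟩
        have h1 := ih d₁ (by omega) s' (fun j => P (f j)) (fun j => w (f j) - mu (P (f j)) v) F₁
          (fun j => hP _) (fun j => by have := hfp j; omega) hF₁h hF₁0 hge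
          (by rwa [hdd, Nat.mul_add_mod] at hρ) (by
            intro j
            have h2 := hm (f j)
            rw [hmuF] at h2
            have h3 := hfp j
            have h4 : t * (w (f j) + n - 1) =
                t * (w (f j) - mu (P (f j)) v + n - 1) + t * mu (P (f j)) v := by
              rw [← mul_add]
              congr 1
              omega
            omega)
        have h2 := mul_span_le hP (w := w) hvh hv0 f hfs
        have h3 : F ∈ Ideal.span {v} ^ t * (irr k n ^ t *
            (⨅ j, linI (P (f j)) ^ (w (f j) - mu (P (f j)) v)) ^ t) := by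
          rw [hF₁]
          exact Ideal.mul_mem_mul (Ideal.pow_mem_pow (Ideal.mem_span_singleton_self v) t) h1
        rw [mul_left_comm, ← mul_pow (Ideal.span {v})] at h3
        exact Ideal.mul_mono le_rfl (Ideal.pow_right_mono h2 t) h3

/-- the containment for forms, with arbitrary weights -/
theorem cont_formT (p : ℕ) [Fact p.Prime] [CharP k p] [PerfectRing k p] {n s t d c : ℕ} (hn : 2 ≤ n) (hs : 0 < s) (ht : 0 < t)
    (P : Fin s → Fin (n + 1) → k) (hP : ∀ i, P i ≠ 0) (w : Fin s → ℕ)
    (hρ : t ≤ n * (t - d % t) + c * (n + 1) + 1) {F : MvPolynomial (Fin (n + 1)) k} (hF : F.IsHomogeneous d)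
    (h : F ∈ ⨅ i, linI (P i) ^ (t * (w i + n - 1) + c)) :
    F ∈ irr k n ^ t * (⨅ i, linI (P i) ^ w i) ^ t := by
  classical
  by_cases hF0 : F = 0
  · rw [hF0]
    exact Ideal.zero_mem _
  rw [Submodule.mem_iInf] at h
  have hm : ∀ i, t * (w i + n - 1) + c ≤ mu (P i) F := fun i =>
    (mem_mI_pow_iff (P i) hF0 _).1 (Ideal.pow_right_mono (linI_le_mI (P i)) _ (h i))
  have htd : t ≤ d := by
    have h1 := hm ⟨0, hs⟩
    have h2 := mu_le_totalDegree (P ⟨0, hs⟩) hF0
    rw [hF.totalDegree hF0] at h2
    have h3 : t * 1 ≤ t * (w ⟨0, hs⟩ + n - 1) := Nat.mul_le_mul_left _ (by omega)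
    omega
  set S := {i : Fin s // 0 < w i} with hS
  set s' := Fintype.card S with hs'
  set f : Fin s' → Fin s := fun j => ((Fintype.equivFin S).symm j).1 with hf
  have hfp : ∀ j, 0 < w (f j) := fun j => ((Fintype.equivFin S).symm j).2
  have hfs : ∀ i, 0 < w i → ∃ j, f j = i := by
    intro i hi
    exact ⟨Fintype.equivFin S ⟨i, hi⟩, by rw [hf]; simp⟩
  have h1 := cont_posT (c := c) p hn ht d s' (fun j => P (f j)) (fun j => w (f j)) F
    (fun j => hP _) (fun j => hfp j) hF hF0 htd hρ (fun j => hm (f j))
  refine Ideal.mul_mono le_rfl (Ideal.pow_right_mono ?_ t) h1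
  intro g hg
  rw [Submodule.mem_iInf] at hg ⊢
  intro i
  rcases Nat.eq_zero_or_pos (w i) with h0 | h0
  · rw [h0, pow_zero, Ideal.one_eq_top]
    exact Submodule.mem_top
  · obtain ⟨j, rfl⟩ := hfs i h0
    exact hg j

/-- the containment for ideals of larger order -/
theorem cont_extraT (p : ℕ) [Fact p.Prime] [CharP k p] [PerfectRing k p] {n s t c : ℕ}
    (hn : 2 ≤ n) (hs : 0 < s) (ht : 0 < t) (hc : t ≤ (c + 1) * (n + 1))
    (P : Fin s → Fin (n + 1) → k) (hP : ∀ i, P i ≠ 0) (w : Fin s → ℕ) :
    (⨅ i, linI (P i) ^ (t * (w i + n - 1) + c)) ≤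
      irr k n ^ t * (⨅ i, linI (P i) ^ w i) ^ t := by
  intro F hF
  rw [← sum_homogeneousComponent F]
  apply Ideal.sum_mem
  intro d _
  have hGm : homogeneousComponent d F ∈ ⨅ i, linI (P i) ^ (t * (w i + n - 1) + c) := by
    rw [Submodule.mem_iInf] at hF ⊢
    exact fun i => component_mem (P i) _ (hF i) d
  apply cont_formT (c := c) p hn hs ht P hP w _ (homogeneousComponent_isHomogeneous d F) hGm
  have h1 := Nat.mod_lt d ht
  have h2 : n * 1 ≤ n * (t - d % t) := Nat.mul_le_mul_left _ (by omega)
  have h3 : (c + 1) * (n + 1) = c * (n + 1) + n + 1 := by ring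
  omega

end

end Pool.Agent.TH719.HHq
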