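import Pool.Agent.TH719.HHq.LinFro
import Pool.Agent.H737R3.Cont.Stmts
import Pool.Agent.H915R3.ContT2

/-!
The Harbourne-Huneke containment in positive characteristic, for forms of degree divisible by `t`.
-/

set_option autoImplicit false
set_option linter.unusedSectionVars false

universe u

namespace Pool.Agent.TH719.HHq

open MvPolynomial Pool.Agent.Chud Pool.Agent.H580C Pool.Agent.H737R3 Pool.Agent.H737R3.Cont

section

variable {k : Type u} [Field k]

theorem C_ne {N : ℕ} {x : k} (hx : x ≠ 0) : (C x : MvPolynomial (Fin N) k) ≠ 0 := by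
  intro h
  rw [← map_zero C] at h
  exact hx (C_injective _ _ h)

/-- an irreducible polynomial does not divide all linear forms which vanish at a point -/
theorem exists_lin {n : ℕ} (hn : 2 ≤ n) {P : Fin (n + 1) → k} (hP : P ≠ 0)
    {π : MvPolynomial (Fin (n + 1)) k} (hπ : Irreducible π) :
    ∃ l : MvPolynomial (Fin (n + 1)) k, l.IsHomogeneous 1 ∧ eval P l = 0 ∧ ¬ π ∣ l := by
  classical
  obtain ⟨a, ha⟩ : ∃ a, P a ≠ 0 := by
    by_contra hcon
    push Not at hcon
    exact hP (funext hcon)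
  have hπd : π.totalDegree ≠ 0 := by
    intro h
    have h1 := totalDegree_eq_zero_iff_eq_C.1 h
    apply hπ.not_isUnit
    rw [h1]
    apply IsUnit.map
    rw [isUnit_iff_ne_zero]
    intro h2
    apply hπ.ne_zero
    rw [h1, h2, map_zero]
  let ell : Fin (n + 1) → MvPolynomial (Fin (n + 1)) k := fun j => C (P a) * X j - C (P j) * X a
  have hh : ∀ j, (ell j).IsHomogeneous 1 := by
    intro j
    have h1 : (C (P a) * X j : MvPolynomial (Fin (n + 1)) k).IsHomogeneous (0 + 1) :=
      (isHomogeneous_C _ _).mul (isHomogeneous_X k j)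
    have h2 : (C (P j) * X a : MvPolynomial (Fin (n + 1)) k).IsHomogeneous (0 + 1) :=
      (isHomogeneous_C _ _).mul (isHomogeneous_X k a)
    exact h1.sub h2
  have he : ∀ j, eval P (ell j) = 0 := by
    intro j
    simp only [ell, map_sub, map_mul, eval_X, eval_C]
    ring
  have hco : ∀ i j, j ≠ a → i ≠ a → coeff (Finsupp.single i 1) (ell j) =
      if j = i then P a else 0 := by
    intro i j hj hi
    simp only [ell, coeff_sub, coeff_C_mul, MvPolynomial.coeff_X]
    by_cases h : j = i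
    · subst h
      rw [if_pos rfl, if_neg]
      · simp
      · intro h2
        have := DFunLike.congr_fun h2 a
        rw [Finsupp.single_eq_same, Finsupp.single_eq_of_ne (Ne.symm hj)] at this
        exact one_ne_zero this
    · rw [if_neg, if_neg, if_neg h]
      · simp
      · intro h2
        have := DFunLike.congr_fun h2 a
        rw [Finsupp.single_eq_same, Finsupp.single_eq_of_ne (Ne.symm hi)] at this
        exact one_ne_zero this
      · intro h2
        have := DFunLike.congr_fun h2 j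
        rw [Finsupp.single_eq_same, Finsupp.single_eq_of_ne h] at this
        exact one_ne_zero this
  have h0 : ∀ j, j ≠ a → ell j ≠ 0 := by
    intro j hj h
    have := hco j j hj hj
    rw [h, coeff_zero, if_pos rfl] at this
    exact ha this.symm
  obtain ⟨b, hb, c, hc, hbc⟩ : ∃ b, b ≠ a ∧ ∃ c, c ≠ a ∧ b ≠ c := by
    have h1 : 2 ≤ (Finset.univ.erase a).card := by
      rw [Finset.card_erase_of_mem (Finset.mem_univ _), Finset.card_univ, Fintype.card_fin]
      omega
    obtain ⟨b, hb, c, hc, hbc⟩ := Finset.one_lt_card.1 h1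
    exact ⟨b, (Finset.mem_erase.1 hb).1, c, (Finset.mem_erase.1 hc).1, hbc⟩
  by_contra hcon
  push Not at hcon
  have key : ∀ j, j ≠ a → ∃ r : k, ell j = π * C r := by
    intro j hj
    obtain ⟨u, hu⟩ := hcon (ell j) (hh j) (he j)
    have hu0 : u ≠ 0 := by
      rintro rfl
      rw [mul_zero] at hu
      exact h0 j hj hu
    have h1 : (ell j).totalDegree = 1 := (hh j).totalDegree (h0 j hj)
    rw [hu, totalDegree_mul_of_isDomain hπ.ne_zero hu0] at h1
    have h2 : u.totalDegree = 0 := by omega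
    exact ⟨_, by rw [hu]; conv_lhs => rw [totalDegree_eq_zero_iff_eq_C.1 h2]⟩
  obtain ⟨r, hr⟩ := key b hb
  obtain ⟨r', hr'⟩ := key c hc
  have h1 : C r' * ell b = C r * ell c := by
    rw [hr, hr']
    ring
  have h2 := congrArg (coeff (Finsupp.single b 1)) h1
  rw [coeff_C_mul, coeff_C_mul, hco b b hb hb, hco b c hc hb, if_pos rfl, if_neg (Ne.symm hbc),
    mul_zero] at h2
  have h3 : r' = 0 := (mul_eq_zero.1 h2).resolve_right ha
  apply h0 c hc
  rw [hr', h3, map_zero, mul_zero]

/-- forms of high order at given points without a given common factor -/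
theorem exists_form {n s : ℕ} (hn : 2 ≤ n) {P : Fin s → Fin (n + 1) → k} (hP : ∀ i, P i ≠ 0)
    (M : Fin s → ℕ) {π : MvPolynomial (Fin (n + 1)) k} (hπ : Irreducible π) :
    ∃ a : MvPolynomial (Fin (n + 1)) k, a.IsHomogeneous (∑ i, M i) ∧
      (∀ i, a ∈ mI (P i) ^ M i) ∧ ¬ π ∣ a := by
  classical
  choose l hl1 hl2 hl3 using fun i => exists_lin hn (hP i) hπ
  refine ⟨∏ i, l i ^ M i, ?_, ?_, ?_⟩
  · have h1 := IsHomogeneous.prod Finset.univ (fun i => l i ^ M i) (fun i => 1 * M i)
      (fun i _ => (hl1 i).pow (M i))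
    simpa using h1
  · intro i
    rw [← Finset.mul_prod_erase Finset.univ (fun i => l i ^ M i) (Finset.mem_univ i)]
    apply Ideal.mul_mem_right
    exact Ideal.pow_mem_pow (hl2 i) _
  · intro h
    have hπ' : Prime π := hπ.prime
    obtain ⟨i, -, hi⟩ := (Prime.dvd_finset_prod_iff hπ' _).1 h
    exact hl3 i (hπ'.dvd_of_dvd_pow hi)

/-- divisibility from divisibility of all products with elements without common factor -/
theorem dvd_of_all {N : ℕ} {F φ : MvPolynomial (Fin N) k} (hF : F ≠ 0)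
    {A : Set (MvPolynomial (Fin N) k)} (hA : ∀ π, Irreducible π → ∃ a ∈ A, ¬ π ∣ a)
    (h : ∀ a ∈ A, F ∣ a * φ) : F ∣ φ := by
  obtain ⟨F', φ', g, hrel, hF', hφ'⟩ := UniqueFactorizationMonoid.exists_reduced_factors F hF φ
  have hg : g ≠ 0 := by
    rintro rfl
    apply hF
    rw [← hF', zero_mul]
  have hF'0 : F' ≠ 0 := by
    rintro rfl
    apply hF
    rw [← hF', mul_zero]
  have h1 : ∀ a ∈ A, F' ∣ a := by
    intro a ha
    have h2 := h a ha
    rw [← hF', ← hφ', mul_left_comm] at h2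
    have h3 : F' ∣ a * φ' := (mul_dvd_mul_iff_left hg).1 h2
    exact hrel.dvd_of_dvd_mul_right h3
  have hu : IsUnit F' := by
    by_contra hcon
    obtain ⟨π, hπ, hπd⟩ := WfDvdMonoid.exists_irreducible_factor hcon hF'0
    obtain ⟨a, ha, hna⟩ := hA π hπ
    exact hna (hπd.trans (h1 a ha))
  rw [← hF', ← hφ']
  exact mul_dvd_mul_left g hu.dvd

theorem mem_lowI' {n s : ℕ} {P : Fin s → Fin (n + 1) → k} {w : Fin s → ℕ} {ν l : ℕ}
    {f : MvPolynomial (Fin (n + 1)) k} (hl : l < ν) (hf : f.IsHomogeneous l)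
    (h : ∀ i, f ∈ linI (P i) ^ w i) : f ∈ lowI P w ν := by
  apply Ideal.subset_span
  exact ⟨l, hl, hf, fun i => Ideal.pow_right_mono (linI_le_mI (P i)) _ (h i)⟩

theorem hc_X_mul {N : ℕ} (i : Fin N) (l : ℕ) (f : MvPolynomial (Fin N) k) :
    homogeneousComponent (l + 1) (X i * f) = X i * homogeneousComponent l f := by
  classical
  ext c
  rw [coeff_homogeneousComponent, coeff_X_mul', coeff_X_mul']
  by_cases hi : i ∈ c.support
  · rw [if_pos hi, if_pos hi, coeff_homogeneousComponent]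
    have h1 : Finsupp.single i 1 ≤ c := by
      rw [Finsupp.single_le_iff]
      exact Nat.one_le_iff_ne_zero.2 (Finsupp.mem_support_iff.1 hi)
    have h2 : (c - Finsupp.single i 1).degree + 1 = c.degree := by
      conv_rhs => rw [← tsub_add_cancel_of_le h1]
      rw [map_add, Finsupp.degree_single]
    by_cases h3 : c.degree = l + 1
    · rw [if_pos h3, if_pos (by omega)]
    · rw [if_neg h3, if_neg (by omega)]
  · rw [if_neg hi, if_neg hi]
    split_ifs <;> rfl

/-- the components of `F ^ a` lie in `lowI` -/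
theorem core (p e : ℕ) [Fact p.Prime] [CharP k p] [PerfectRing k p] (n s t d ν a b' A : ℕ)
    (P : Fin s → Fin (n + 1) → k) (w M : Fin s → ℕ) (F : MvPolynomial (Fin (n + 1)) k)
    (hn : 2 ≤ n) (ht : 0 < t) (hP : ∀ i, P i ≠ 0)
    (hFd : F.IsHomogeneous d) (hF0 : F ≠ 0)
    (hFm : ∀ i, F ∈ mI (P i) ^ (t * (w i + n - 1)))
    (hM : ∀ i, t * (w i + n - 1) ≤ M i) (hA : A = ∑ i, M i) (hAd : d ≤ A)
    (hν : 1 ≤ ν) (hd : d = t * ν) (hab : t * a = p ^ e + b') (hb' : b' < t)
    (hq : A + d < p ^ e) :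
    ∀ b : Fin (n + 1) →₀ ℕ, (∀ i, b i < p ^ e) → cmp p e b (F ^ a) ∈ lowI P w ν := by
  classical
  have hp := qpos p e
  -- numerics
  have hj : d * a = p ^ e * ν + b' * ν := by
    have h1 : d * a = (t * a) * ν := by rw [hd]; ring
    rw [h1, hab]
    ring
  have hjd : b' * ν < d := by
    rw [hd]
    exact Nat.mul_lt_mul_of_pos_right hb' hν
  set j := b' * ν with hjdef
  have ha1 : 1 ≤ a := by
    rcases Nat.eq_zero_or_pos a with h | h
    · exfalso
      rw [h, mul_zero] at hab
      omega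
    · exact h
  set G := F ^ a with hG
  have hGd : G.IsHomogeneous (d * a) := hFd.pow a
  -- the components lie in the ideal
  set I : Ideal (MvPolynomial (Fin (n + 1)) k) := ⨅ i, linI (P i) ^ w i with hI
  have memI : ∀ f, f ∈ I ↔ ∀ i, f ∈ linI (P i) ^ w i := by
    intro f
    rw [hI, Submodule.mem_iInf]
  have hnum : ∀ i, p ^ e * (w i + n) < t * (w i + n - 1) * a + p ^ e + n := by
    intro i
    have h2 : p ^ e * (w i + n - 1) ≤ t * (w i + n - 1) * a := by
      have h3 : t * (w i + n - 1) * a = (p ^ e + b') * (w i + n - 1) := by rw [← hab]; ring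
      rw [h3]
      exact Nat.mul_le_mul_right _ (by omega)
    have h3 : p ^ e * (w i + n) = p ^ e * (w i + n - 1) + p ^ e := by
      obtain ⟨x, hx⟩ : ∃ x, w i + n = x + 1 := ⟨w i + n - 1, by omega⟩
      rw [hx, Nat.add_sub_cancel]
      ring
    omega
  have hcomp : ∀ b : Fin (n + 1) →₀ ℕ, (∀ i, b i < p ^ e) → cmp p e b G ∈ I := by
    intro b hb
    rw [memI]
    intro i
    apply cmp_mem_of_fro _ hb
    have h1 : G ∈ mI (P i) ^ (t * (w i + n - 1) * a) := by
      rw [pow_mul]
      exact Ideal.pow_mem_pow (hFm i) a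
    exact mem_fro_linI hGd (hP i) h1 (hnum i)
  intro b hb
  by_cases hb0 : cmp p e b G = 0
  · rw [hb0]
    exact Ideal.zero_mem _
  obtain ⟨l, hl, hlh⟩ := cmp_homog' hb hGd hb0
  have hlν : l ≤ ν := by
    by_contra hcon
    push Not at hcon
    have h1 : p ^ e * (ν + 1) ≤ p ^ e * l := Nat.mul_le_mul_left _ hcon
    have h2 : p ^ e * (ν + 1) = p ^ e * ν + p ^ e := by ring
    omega
  rcases Nat.lt_or_ge l ν with hlt | hge
  · exact mem_lowI' hlt hlh ((memI _).1 (hcomp b hb))
  have hlν' : l = ν := le_antisymm hlν hge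
  subst hlν'
  by_contra hnot
  -- a functional
  obtain ⟨L0, hL0, hL0'⟩ := Submodule.exists_dual_map_eq_bot_of_notMem
    (p := (lowI P w l).restrictScalars k) (x := cmp p e b G) hnot inferInstance
  have hL0'' : ∀ f ∈ lowI P w l, L0 f = 0 := by
    intro f hf
    have h1 : L0 f ∈ Submodule.map L0 ((lowI P w l).restrictScalars k) := ⟨f, hf, rfl⟩
    rw [hL0'] at h1
    exact (Submodule.mem_bot k).1 h1
  set L : MvPolynomial (Fin (n + 1)) k →ₗ[k] k := L0.comp (homogeneousComponent l) with hL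
  have hLν : ∀ (f : MvPolynomial (Fin (n + 1)) k) (l' : ℕ), f.IsHomogeneous l' → l' ≠ l →
      L f = 0 := by
    intro f l' hf hne
    rw [hL, LinearMap.comp_apply,
      homogeneousComponent_of_mem ((mem_homogeneousSubmodule _ _).2 hf), if_neg (Ne.symm hne),
      map_zero]
  have hLl : ∀ (f : MvPolynomial (Fin (n + 1)) k), f.IsHomogeneous l → L f = L0 f := by
    intro f hf
    rw [hL, LinearMap.comp_apply,
      homogeneousComponent_of_mem ((mem_homogeneousSubmodule _ _).2 hf), if_pos rfl]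
  have hLI : ∀ f ∈ I, ∀ i, L (X i * f) = 0 := by
    intro f hf i
    obtain ⟨l', rfl⟩ : ∃ l', l = l' + 1 := ⟨l - 1, by omega⟩
    rw [hL, LinearMap.comp_apply, hc_X_mul]
    apply hL0''
    apply Ideal.mul_mem_left
    apply mem_lowI' (Nat.lt_succ_self l') (homogeneousComponent_isHomogeneous l' f)
    intro i'
    exact component_mem (P i') (w i') ((memI _).1 hf i') l'
  have hLG : L (cmp p e b G) ≠ 0 := by
    rw [hLl _ hlh]
    exact hL0
  set φ := lam p e L G with hφ
  have hφh : φ.IsHomogeneous j := lam_homog hLν hGd hj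
  have hφb : coeff b φ ≠ 0 := by
    rw [hφ, coeff_lam _ _ hb]
    exact pow_ne_zero _ hLG
  have hφ0 : φ ≠ 0 := by
    intro h
    rw [h, coeff_zero] at hφb
    exact hφb rfl
  -- divisibility
  have hdvd : F ∣ φ := by
    apply dvd_of_all hF0 (A := {x | x.IsHomogeneous A ∧ ∀ i, x ∈ mI (P i) ^ M i})
    · intro π hπ
      obtain ⟨x, hx1, hx2, hx3⟩ := exists_form hn hP M hπ
      exact ⟨x, ⟨by rw [hA]; exact hx1, hx2⟩, hx3⟩
    · rintro x ⟨hx1, hx2⟩
      set G' := x * F ^ (a - 1) with hG'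
      have hG'd : G'.IsHomogeneous (A + d * (a - 1)) := hx1.mul (hFd.pow (a - 1))
      have hcomp' : ∀ b : Fin (n + 1) →₀ ℕ, (∀ i, b i < p ^ e) → cmp p e b G' ∈ I := by
        intro b hb
        rw [memI]
        intro i
        apply cmp_mem_of_fro _ hb
        have h1 : G' ∈ mI (P i) ^ (t * (w i + n - 1) * a) := by
          have h2 : x * F ^ (a - 1) ∈ mI (P i) ^ (t * (w i + n - 1)) *
              mI (P i) ^ (t * (w i + n - 1) * (a - 1)) := by
            apply Ideal.mul_mem_mul
            · exact Ideal.pow_le_pow_right (hM i) (hx2 i)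
            · rw [pow_mul]
              exact Ideal.pow_mem_pow (hFm i) _
          rw [← pow_add] at h2
          have h3 : t * (w i + n - 1) + t * (w i + n - 1) * (a - 1) =
              t * (w i + n - 1) * a := by
            obtain ⟨a', rfl⟩ : ∃ a', a = a' + 1 := ⟨a - 1, by omega⟩
            rw [Nat.add_sub_cancel]
            ring
          rwa [h3] at h2
        exact mem_fro_linI hG'd (hP i) h1 (hnum i)
      set φ' := lam p e L G' with hφ'
      have hφ'h : φ'.IsHomogeneous (A + j - d) := by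
        apply lam_homog hLν hG'd
        have h1 : d * (a - 1) + d = d * a := by
          obtain ⟨a', rfl⟩ : ∃ a', a = a' + 1 := ⟨a - 1, by omega⟩
          rw [Nat.add_sub_cancel]
          ring
        omega
      refine ⟨φ', ?_⟩
      have hFG : F * G' = x * G := by
        rw [hG, hG']
        obtain ⟨a', rfl⟩ : ∃ a', a = a' + 1 := ⟨a - 1, by omega⟩
        rw [Nat.add_sub_cancel, pow_succ]
        ring
      ext c
      by_cases hc : ∀ i', c i' < p ^ e
      · rw [hφ, lam_mul hLI _ _ hcomp hc, hφ', lam_mul hLI _ _ hcomp' hc, hFG]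
      · have hlarge : p ^ e ≤ c.degree := by
          push Not at hc
          obtain ⟨i', hi'⟩ := hc
          exact hi'.trans (Finsupp.le_degree i' c)
        have h1 : (x * φ).IsHomogeneous (A + j) := hx1.mul hφh
        have h2 : (F * φ').IsHomogeneous (d + (A + j - d)) := hFd.mul hφ'h
        rw [h1.coeff_eq_zero (by omega), h2.coeff_eq_zero (by omega)]
  obtain ⟨m, hm⟩ := hdvd
  have hm0 : m ≠ 0 := by
    rintro rfl
    exact hφ0 (by rw [hm, mul_zero])
  have h1 := hφh.totalDegree hφ0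
  rw [hm, totalDegree_mul_of_isDomain hF0 hm0, hFd.totalDegree hF0] at h1
  omega

/-- forms of degree divisible by `t` -/
theorem contQ (p n s t d : ℕ) [Fact p.Prime] [CharP k p] [PerfectRing k p]
    (P : Fin s → Fin (n + 1) → k) (w : Fin s → ℕ) (F : MvPolynomial (Fin (n + 1)) k)
    (hn : 2 ≤ n) (hs : 0 < s) (ht : 0 < t) (htd : t ∣ d) (hP : ∀ i, P i ≠ 0)
    (hFd : F.IsHomogeneous d) (hFm : ∀ i, F ∈ mI (P i) ^ (t * (w i + n - 1))) :
    F ∈ lowI P w (d / t) ^ t := by
  classical
  have hp := (Fact.out : p.Prime)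
  by_cases hF0 : F = 0
  · rw [hF0]
    exact Ideal.zero_mem _
  obtain ⟨ν, hd⟩ := htd
  have hdt : d / t = ν := by rw [hd]; exact Nat.mul_div_cancel_left ν ht
  have hν : 1 ≤ ν := by
    by_contra hcon
    have h0 : ν = 0 := Nat.lt_one_iff.1 (not_le.1 hcon)
    rw [h0, mul_zero] at hd
    have h1 := (mem_mI_pow_iff (P ⟨0, hs⟩) hF0 _).1 (hFm ⟨0, hs⟩)
    have h2 := mu_le_totalDegree (P ⟨0, hs⟩) hF0
    rw [hFd.totalDegree hF0] at h2
    have h3 : t * 1 ≤ t * (w ⟨0, hs⟩ + n - 1) := Nat.mul_le_mul_left _ (by omega)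
    omega
  set M : Fin s → ℕ := fun i => t * (w i + n - 1) + d with hM
  set A := ∑ i, M i with hA
  have hAd : d ≤ A := by
    have h1 : M ⟨0, hs⟩ ≤ A := Finset.single_le_sum (f := M) (fun i _ => Nat.zero_le _)
      (Finset.mem_univ _)
    have h2 : M ⟨0, hs⟩ = t * (w ⟨0, hs⟩ + n - 1) + d := rfl
    omega
  obtain ⟨e, he⟩ : ∃ e, A + d * (t + 1) < p ^ e := ⟨A + d * (t + 1), Nat.lt_pow_self hp.one_lt⟩
  have he1 : A + d < p ^ e := by
    have : d * 1 ≤ d * (t + 1) := Nat.mul_le_mul_left _ (by omega)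
    omega
  set a := (p ^ e + t - 1) / t with ha
  have h1 : t * a + (p ^ e + t - 1) % t = p ^ e + t - 1 := Nat.div_add_mod (p ^ e + t - 1) t
  have h2 := Nat.mod_lt (p ^ e + t - 1) ht
  have h0 : p ^ e + t - 1 + 1 = p ^ e + t := by omega
  generalize (p ^ e + t - 1) % t = x at h1 h2
  generalize p ^ e + t - 1 = y at h1 h0
  generalize hta : t * a = z at h1
  obtain ⟨b', hb'⟩ : ∃ b', t * a = p ^ e + b' := ⟨z - p ^ e, by omega⟩
  have hbt : b' < t := by omega
  have hc := core p e n s t d ν a b' A P w M F hn ht hP hFd hF0 hFm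
    (fun i => Nat.le_add_right _ _) hA hAd hν hd hb' hbt he1
  have h3 : F ^ a ∈ fro p e (lowI P w ν) := fro_of_cmp_mem hc
  have h4 : (F ^ a) ^ t ∈ fro p e (lowI P w ν ^ t) := by
    rw [← fro_pow]
    exact Ideal.pow_mem_pow h3 t
  rw [← pow_mul, mul_comm a t, hb', pow_add] at h4
  have hFb : F ^ b' ≠ 0 := pow_ne_zero _ hF0
  have hFbh : (F ^ b').IsHomogeneous (d * b') := hFd.pow b'
  have hdb : d * b' < p ^ e := by
    have h5 : d * b' ≤ d * (t + 1) := Nat.mul_le_mul_left _ (by omega)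
    omega
  obtain ⟨β, hβ⟩ := MvPolynomial.ne_zero_iff.1 hFb
  have hβp : ∀ i, β i < p ^ e := by
    intro i
    have h5 : β.degree = d * b' := by
      have := hFbh hβ
      rwa [Finsupp.degree_eq_weight_one]
    have h6 := Finsupp.le_degree i β
    omega
  have h5 := cmp_mem_of_fro h4 hβp
  rw [cmp_pow_mul hβp, cmp_of_small hβp (by rw [hFbh.totalDegree hFb]; exact hdb)] at h5
  have hr0 : ifr p e (coeff β (F ^ b')) ≠ 0 := by
    intro h
    apply hβ
    rw [← ifr_pow p e (coeff β (F ^ b')), h, zero_pow (qpos p e).ne']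
  have h6 := Ideal.mul_mem_right (C (ifr p e (coeff β (F ^ b')))⁻¹) _ h5
  rw [mul_assoc, ← map_mul, mul_inv_cancel₀ hr0, map_one, mul_one] at h6
  rw [hdt]
  exact h6

end

end Pool.Agent.TH719.HHq
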