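import Pool.Agent.TH719.HHq.Root

/-!
Forms without `t`-th power factors: some Hasse derivative of order `< t` is prime to a given
prime.
-/

set_option autoImplicit false
set_option linter.unusedSectionVars false

universe u

namespace Pool.Agent.TH719.HHq

open MvPolynomial Pool.Agent.Chud Pool.Agent.H580C Pool.Agent.H737R3

section

variable {k : Type u} [Field k] {N : ℕ}

theorem ufd_dvd {A φ : MvPolynomial (Fin N) k} (hA : A ≠ 0)
    (h : ∀ π : MvPolynomial (Fin N) k, Prime π → ∃ c, ¬ π ∣ c ∧ A ∣ c * φ) : A ∣ φ := by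
  obtain ⟨A', φ', g, hrel, hA', hφ'⟩ := UniqueFactorizationMonoid.exists_reduced_factors A hA φ
  have hg : g ≠ 0 := by
    rintro rfl
    exact hA (by rw [← hA', zero_mul])
  have hA'0 : A' ≠ 0 := by
    rintro rfl
    exact hA (by rw [← hA', mul_zero])
  by_cases hu : IsUnit A'
  · rw [← hA', ← hφ']
    exact mul_dvd_mul_left g hu.dvd
  · exfalso
    obtain ⟨π, hπ, hπA⟩ := WfDvdMonoid.exists_irreducible_factor hu hA'0
    obtain ⟨c, hc, hdiv⟩ := h π hπ.prime
    have h1 : g * A' ∣ g * (c * φ') := by
      rw [hA']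
      have : g * (c * φ') = c * φ := by rw [← hφ']; ring
      rw [this]
      exact hdiv
    have h2 : A' ∣ c * φ' := (mul_dvd_mul_iff_left hg).1 h1
    rcases hπ.prime.dvd_or_dvd (hπA.trans h2) with h3 | h3
    · exact hc h3
    · exact hπ.not_isUnit (hrel hπA h3)

/-- the substitution `X i ↦ X i + T` followed by `g` on the coefficients -/
noncomputable def psi {D : Type u} [CommRing D] (g : MvPolynomial (Fin N) k →+* D) (i : Fin N) :
    MvPolynomial (Fin N) (MvPolynomial (Fin N) k) →+* Polynomial D :=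
  eval₂Hom ((Polynomial.C : D →+* Polynomial D).comp g)
    (fun j => if j = i then Polynomial.X else 0)

theorem psi_coeff_zero {D : Type u} [CommRing D] (g : MvPolynomial (Fin N) k →+* D) (i : Fin N)
    (f : MvPolynomial (Fin N) k) : (psi g i (taylor f)).coeff 0 = g f := by
  classical
  induction f using MvPolynomial.induction_on with
  | C a =>
    have : taylor (C a : MvPolynomial (Fin N) k) = C (C a) := by
      rw [← MvPolynomial.algebraMap_eq, AlgHom.commutes]
      rfl
    rw [this, psi, coe_eval₂Hom, eval₂_C]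
    simp
  | add p q hp hq => rw [map_add, map_add, Polynomial.coeff_add, hp, hq, map_add]
  | mul_X f j hf =>
    have h0 : psi g i (taylor (X j : MvPolynomial (Fin N) k)) =
        Polynomial.C (g (X j)) +
          (if j = i then Polynomial.X else 0) := by
      rw [taylor, aeval_X, psi, coe_eval₂Hom, eval₂_add, eval₂_C, eval₂_X]
      rfl
    have h1 : (if j = i then (Polynomial.X : Polynomial D) else 0).coeff 0 = 0 := by
      split_ifs
      · exact Polynomial.coeff_X_zero
      · exact Polynomial.coeff_zero 0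
    rw [map_mul, map_mul, Polynomial.mul_coeff_zero, hf, map_mul, h0, Polynomial.coeff_add, h1,
      add_zero, Polynomial.coeff_C_zero]

theorem psi_coeff_one {D : Type u} [CommRing D] (g : MvPolynomial (Fin N) k →+* D) (i : Fin N)
    (f : MvPolynomial (Fin N) k) : (psi g i (taylor f)).coeff 1 = g (pderiv i f) := by
  classical
  induction f using MvPolynomial.induction_on with
  | C a =>
    have : taylor (C a : MvPolynomial (Fin N) k) = C (C a) := by
      rw [← MvPolynomial.algebraMap_eq, AlgHom.commutes]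
      rfl
    rw [this, psi, coe_eval₂Hom, eval₂_C]
    simp
  | add p q hp hq => rw [map_add, map_add, Polynomial.coeff_add, hp, hq, map_add, map_add]
  | mul_X f j hf =>
    have h0 : psi g i (taylor (X j : MvPolynomial (Fin N) k)) =
        Polynomial.C (g (X j)) +
          (if j = i then Polynomial.X else 0) := by
      rw [taylor, aeval_X, psi, coe_eval₂Hom, eval₂_add, eval₂_C, eval₂_X]
      rfl
    rw [map_mul, map_mul, h0, mul_add, Polynomial.coeff_add, Polynomial.coeff_mul_C, hf]
    have h1 : (psi g i (taylor f) * (if j = i then Polynomial.X else 0)).coeff 1 =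
        g (f * pderiv i (X j)) := by
      by_cases hji : j = i
      · subst hji
        rw [if_pos rfl, Polynomial.coeff_mul_X, psi_coeff_zero, pderiv_X_self, mul_one]
      · rw [if_neg hji, mul_zero, Polynomial.coeff_zero, pderiv_X_of_ne hji, mul_zero, map_zero]
    rw [h1, ← map_mul, ← map_add, pderiv_mul]

theorem psi_dvd {D : Type u} [CommRing D] (g : MvPolynomial (Fin N) k →+* D) (i : Fin N)
    {F : MvPolynomial (Fin N) k} {t : ℕ}
    (h : ∀ c : Fin N →₀ ℕ, c.degree < t → g (hd c F) = 0) :
    (Polynomial.X : Polynomial D) ^ t ∣ psi g i (taylor F) := by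
  classical
  rw [(taylor F).as_sum, map_sum]
  apply Finset.dvd_sum
  intro c _
  rw [psi, coe_eval₂Hom, eval₂_monomial]
  by_cases hc : c.degree < t
  · have h1 := h c hc
    rw [hd_apply] at h1
    rw [RingHom.comp_apply, h1, map_zero, zero_mul]
    exact dvd_zero _
  · apply Dvd.dvd.mul_left
    refine (pow_dvd_pow _ (not_lt.1 hc)).trans ?_
    rw [Finsupp.degree_apply, Finsupp.prod, ← Finset.prod_pow_eq_pow_sum]
    apply Finset.prod_dvd_prod_of_dvd
    intro j _
    apply pow_dvd_pow_of_dvd
    split_ifs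
    · exact dvd_rfl
    · exact dvd_zero _

theorem exists_hd_not_dvd {p : ℕ} [Fact p.Prime] [CharP k p] [PerfectRing k p]
    {F : MvPolynomial (Fin N) k} {t : ℕ} (hF : F ≠ 0)
    (hpf : ∀ v : MvPolynomial (Fin N) k, v ^ t ∣ F → IsUnit v)
    {π : MvPolynomial (Fin N) k} (hπ : Prime π) :
    ∃ c : Fin N →₀ ℕ, c.degree < t ∧ ¬ π ∣ hd c F := by
  classical
  by_contra hcon
  push Not at hcon
  have hp := (Fact.out : p.Prime)
  obtain ⟨i, hi⟩ : ∃ i, pderiv i π ≠ 0 := by
    by_contra h
    push Not at h
    have h1 := Cont.eq_pow_of_pderiv (p := p) π h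
    have h2 : Irreducible π := hπ.irreducible
    generalize Cont.cmp p 0 π = y at h1
    rw [h1] at h2
    exact not_irreducible_pow hp.one_lt.ne' h2
  have hi' : ¬ π ∣ pderiv i π := fun h => hi (pderiv_eq_zero_of_dvd h)
  have hfin : FiniteMultiplicity π F :=
    FiniteMultiplicity.of_not_isUnit hπ.not_isUnit hF
  obtain ⟨F', hF', hnd⟩ := hfin.exists_eq_pow_mul_and_not_dvd
  set m := multiplicity π F with hm
  have hmt : m < t := by
    by_contra h
    exact hπ.not_isUnit (hpf π ((pow_dvd_pow π (not_lt.1 h)).trans ⟨F', hF'⟩))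
  have : (Ideal.span {π}).IsPrime := (Ideal.span_singleton_prime hπ.ne_zero).2 hπ
  set D := MvPolynomial (Fin N) k ⧸ Ideal.span {π} with hD
  set g : MvPolynomial (Fin N) k →+* D := Ideal.Quotient.mk (Ideal.span {π}) with hg
  have h1 := psi_dvd g i (F := F) (t := t) (fun c hc =>
    Ideal.Quotient.eq_zero_iff_mem.2 (Ideal.mem_span_singleton.2 (hcon c hc)))
  have h2 : (Polynomial.X : Polynomial D) ∣ psi g i (taylor π) := by
    rw [Polynomial.X_dvd_iff, psi_coeff_zero]
    exact Ideal.Quotient.eq_zero_iff_mem.2 (Ideal.mem_span_singleton_self π)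
  obtain ⟨A, hA⟩ := h2
  have hA0 : A.coeff 0 ≠ 0 := by
    have h3 := psi_coeff_one g i π
    rw [hA, Polynomial.coeff_X_mul] at h3
    rw [h3]
    intro h4
    exact hi' (Ideal.mem_span_singleton.1 (Ideal.Quotient.eq_zero_iff_mem.1 h4))
  have hB0 : (psi g i (taylor F')).coeff 0 ≠ 0 := by
    rw [psi_coeff_zero]
    intro h4
    exact hnd (Ideal.mem_span_singleton.1 (Ideal.Quotient.eq_zero_iff_mem.1 h4))
  have h3 : psi g i (taylor F) = Polynomial.X ^ m * (A ^ m * psi g i (taylor F')) := by
    conv_lhs => rw [hF']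
    rw [map_mul, map_mul, map_pow, map_pow, hA, mul_pow, mul_assoc]
  have h4 : (Polynomial.X : Polynomial D) ^ m * Polynomial.X ∣
      Polynomial.X ^ m * (A ^ m * psi g i (taylor F')) := by
    rw [← h3, ← pow_succ]
    exact (pow_dvd_pow _ hmt).trans h1
  have h5 := (mul_dvd_mul_iff_left (pow_ne_zero m (Polynomial.X_ne_zero (R := D)))).1 h4
  rw [Polynomial.X_dvd_iff, Polynomial.mul_coeff_zero, Polynomial.coeff_zero_eq_eval_zero,
    Polynomial.eval_pow, ← Polynomial.coeff_zero_eq_eval_zero] at h5
  rcases mul_eq_zero.1 h5 with h6 | h6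
  · exact pow_ne_zero m hA0 h6
  · exact hB0 h6

end

end Pool.Agent.TH719.HHq
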