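import Pool.Agent.TH719.HHq.Main

/-!
Comparison of the values of a functional on the components of different forms.
-/

set_option autoImplicit false
set_option linter.unusedSectionVars false

universe u

namespace Pool.Agent.TH719.HHq

open MvPolynomial Pool.Agent.Chud Pool.Agent.H580C Pool.Agent.H737R3

section

variable {k : Type u} [Field k] {p e : ℕ} [Fact p.Prime] [CharP k p] [PerfectRing k p] {N : ℕ}

theorem lam_add (L : MvPolynomial (Fin N) k →ₗ[k] k) (G H : MvPolynomial (Fin N) k) :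
    lam p e L (G + H) = lam p e L G + lam p e L H := by
  ext c
  by_cases hc : ∀ i, c i < p ^ e
  · rw [coeff_add, coeff_lam _ _ hc, coeff_lam _ _ hc, coeff_lam _ _ hc, cmp_add hc, map_add,
      add_pow_char_pow]
  · rw [coeff_add, coeff_lam_zero _ _ hc, coeff_lam_zero _ _ hc, coeff_lam_zero _ _ hc, add_zero]

theorem lam_zero (L : MvPolynomial (Fin N) k →ₗ[k] k) : lam p e L 0 = 0 := by
  ext c
  by_cases hc : ∀ i, c i < p ^ e
  · rw [coeff_lam _ _ hc, cmp_zero hc, map_zero, zero_pow (qpos p e).ne', coeff_zero]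
  · rw [coeff_lam_zero _ _ hc, coeff_zero]

theorem lam_sum {ι : Type*} (L : MvPolynomial (Fin N) k →ₗ[k] k) (s : Finset ι)
    (f : ι → MvPolynomial (Fin N) k) : lam p e L (∑ i ∈ s, f i) = ∑ i ∈ s, lam p e L (f i) := by
  classical
  induction s using Finset.induction_on with
  | empty => simp [lam_zero]
  | insert a s ha ih => rw [Finset.sum_insert ha, Finset.sum_insert ha, lam_add, ih]

theorem lam_pow_mul (L : MvPolynomial (Fin N) k →ₗ[k] k) (y m : MvPolynomial (Fin N) k)
    (hm : ∀ c ∈ m.support, ∀ i, c i < p ^ e) :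
    lam p e L (y ^ p ^ e * m) = C (L y ^ p ^ e) * m := by
  ext c
  rw [coeff_C_mul]
  by_cases hc : ∀ i, c i < p ^ e
  · rw [coeff_lam _ _ hc, cmp_pow_mul hc]
    have h1 : cmp p e c m = C (ifr p e (coeff c m)) := by
      ext u
      rw [coeff_cmp hc, coeff_C]
      by_cases hu : u = 0
      · subst hu
        simp
      · rw [if_neg (Ne.symm hu)]
        have : coeff (p ^ e • u + c) m = 0 := by
          by_contra h
          have h2 := hm _ (mem_support_iff.2 h)
          obtain ⟨i, hi⟩ : ∃ i, u i ≠ 0 := by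
            by_contra hcon
            push Not at hcon
            exact hu (Finsupp.ext hcon)
          have h3 := h2 i
          rw [Finsupp.add_apply, Finsupp.smul_apply, smul_eq_mul] at h3
          have h4 : p ^ e * 1 ≤ p ^ e * u i :=
            Nat.mul_le_mul_left _ (Nat.one_le_iff_ne_zero.2 hi)
          omega
        rw [this]
        exact map_zero _
    rw [h1, mul_comm y, C_mul', map_smul, smul_eq_mul, mul_pow, ifr_pow, mul_comm]
  · rw [coeff_lam_zero _ _ hc]
    have : coeff c m = 0 := by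
      by_contra h
      exact hc (hm c (mem_support_iff.2 h))
    rw [this, mul_zero]

theorem lam_eq_sum (L : MvPolynomial (Fin N) k →ₗ[k] k) (G : MvPolynomial (Fin N) k) :
    lam p e L G = ∑ f : Fin N → Fin (p ^ e),
      C (L (cmp p e (tf f) G) ^ p ^ e) * monomial (tf f) 1 := by
  unfold lam
  apply Finset.sum_congr rfl
  intro f _
  rw [C_mul_monomial, mul_one]

theorem lam_frob (e' : ℕ) (L : MvPolynomial (Fin N) k →ₗ[k] k) (G : MvPolynomial (Fin N) k) :
    lam p (e + e') L (G ^ p ^ e') = (lam p e L G) ^ p ^ e' := by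
  have h1 : G ^ p ^ e' = ∑ f : Fin N → Fin (p ^ e),
      (cmp p e (tf f) G) ^ p ^ (e + e') * monomial (p ^ e' • tf f) 1 := by
    conv_lhs => rw [cmp_decomp (p := p) (e := e) G]
    rw [sum_pow_char_pow]
    apply Finset.sum_congr rfl
    intro f _
    rw [mul_pow, ← pow_mul, ← pow_add, monomial_pow, one_pow]
  rw [h1, lam_sum, lam_eq_sum, sum_pow_char_pow]
  apply Finset.sum_congr rfl
  intro f _
  rw [lam_pow_mul, mul_pow, monomial_pow, one_pow, ← map_pow C, ← pow_mul, ← pow_add]
  intro c hc i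
  have h2 := support_monomial_subset hc
  rw [Finset.mem_singleton] at h2
  rw [h2, Finsupp.smul_apply, smul_eq_mul, pow_add, mul_comm]
  exact Nat.mul_lt_mul_of_pos_right (tf_lt f i) (qpos p e')

theorem lam_hd (L : MvPolynomial (Fin N) k →ₗ[k] k) (G : MvPolynomial (Fin N) k)
    {c : Fin N →₀ ℕ} (hc : ∀ i, c i < p ^ e) :
    lam p e L (hd c G) = hd c (lam p e L G) := by
  classical
  conv_lhs => rw [cmp_decomp (p := p) (e := e) G]
  rw [map_sum, lam_sum, lam_eq_sum, map_sum]
  apply Finset.sum_congr rfl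
  intro f _
  rw [t_HP k p e N c _ _ hc, lam_pow_mul, C_mul', C_mul', map_smul]
  intro c' hc' i
  rw [mem_support_iff, t_HC k N c c'] at hc'
  have h1 := right_ne_zero_of_mul hc'
  rw [coeff_monomial] at h1
  have h2 : tf f = c' + c := by
    by_contra hcon
    rw [if_neg hcon] at h1
    exact h1 rfl
  have h3 := tf_lt f i
  rw [h2, Finsupp.add_apply] at h3
  omega

/-- degrees of the values -/
theorem lam_degree {L : MvPolynomial (Fin N) k →ₗ[k] k} {ν D : ℕ}
    (hLν : ∀ (f : MvPolynomial (Fin N) k) (l : ℕ), f.IsHomogeneous l → l ≠ ν → L f = 0)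
    {G : MvPolynomial (Fin N) k} (hG : G.IsHomogeneous D) {c : Fin N →₀ ℕ}
    (hc : coeff c (lam p e L G) ≠ 0) : p ^ e * ν + c.degree = D := by
  by_cases hc' : ∀ i, c i < p ^ e
  · rw [coeff_lam _ _ hc'] at hc
    have h1 : L (cmp p e c G) ≠ 0 := fun h => hc (by rw [h, zero_pow (qpos p e).ne'])
    have h2 : cmp p e c G ≠ 0 := fun h => h1 (by rw [h, map_zero])
    obtain ⟨l, hl, hl'⟩ := cmp_homog' hc' hG h2
    have h3 : l = ν := by
      by_contra hne
      exact h1 (hLν _ l hl' hne)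
    subst h3
    exact hl
  · exact absurd (coeff_lam_zero L G hc') hc

theorem coeff_mul_lam {L : MvPolynomial (Fin N) k →ₗ[k] k} {ν a D : ℕ}
    (hLν : ∀ (f : MvPolynomial (Fin N) k) (l : ℕ), f.IsHomogeneous l → l ≠ ν → L f = 0)
    {s G : MvPolynomial (Fin N) k} (hs : s.IsHomogeneous a) (hG : G.IsHomogeneous D)
    (hlt : a + D < p ^ e * ν + p ^ e) {c : Fin N →₀ ℕ} (hc : p ^ e ≤ c.degree) :
    coeff c (s * lam p e L G) = 0 := by
  classical
  rw [coeff_mul]
  apply Finset.sum_eq_zero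
  rintro ⟨x, y⟩ hxy
  by_contra h
  have hx := left_ne_zero_of_mul h
  have hy := right_ne_zero_of_mul h
  have h1 : x.degree = a := by
    have := hs hx
    rwa [Finsupp.degree_eq_weight_one]
  have h2 : p ^ e * ν + y.degree = D := lam_degree hLν hG hy
  have h3 : x + y = c := Finset.HasAntidiagonal.mem_antidiagonal.1 hxy
  have h4 : x.degree + y.degree = c.degree := by rw [← h3, map_add]
  omega

/-- exact comparison in small degree -/
theorem lam_exact {L : MvPolynomial (Fin N) k →ₗ[k] k} {I : Ideal (MvPolynomial (Fin N) k)}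
    {ν a D a' D' : ℕ}
    (hLI : ∀ f ∈ I, ∀ i, L (X i * f) = 0)
    (hLν : ∀ (f : MvPolynomial (Fin N) k) (l : ℕ), f.IsHomogeneous l → l ≠ ν → L f = 0)
    {s G s' G' : MvPolynomial (Fin N) k} (hs : s.IsHomogeneous a) (hG : G.IsHomogeneous D)
    (hs' : s'.IsHomogeneous a') (hG' : G'.IsHomogeneous D')
    (hlt : a + D < p ^ e * ν + p ^ e) (hlt' : a' + D' < p ^ e * ν + p ^ e)
    (hc : ∀ b : Fin N →₀ ℕ, (∀ i, b i < p ^ e) → cmp p e b G ∈ I)
    (hc' : ∀ b : Fin N →₀ ℕ, (∀ i, b i < p ^ e) → cmp p e b G' ∈ I)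
    (h : s * G = s' * G') : s * lam p e L G = s' * lam p e L G' := by
  ext c
  by_cases hcc : ∀ i', c i' < p ^ e
  · rw [lam_mul hLI _ _ hc hcc, lam_mul hLI _ _ hc' hcc, h]
  · have hlarge : p ^ e ≤ c.degree := by
      push Not at hcc
      obtain ⟨i', hi'⟩ := hcc
      exact hi'.trans (Finsupp.le_degree i' c)
    rw [coeff_mul_lam hLν hs hG hlt hlarge, coeff_mul_lam hLν hs' hG' hlt' hlarge]

end

section

variable {k : Type u} [Field k] {p : ℕ} [Fact p.Prime] [CharP k p] [PerfectRing k p]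

theorem comp_mem {n s D : ℕ} (e : ℕ) {P : Fin s → Fin (n + 1) → k} (hP : ∀ i, P i ≠ 0)
    {w : Fin s → ℕ} (hn : 1 ≤ n) {G : MvPolynomial (Fin (n + 1)) k} (hG : G.IsHomogeneous D)
    (hGm : ∀ i, G ∈ mI (P i) ^ (p ^ e * (w i + n - 1))) :
    ∀ b : Fin (n + 1) →₀ ℕ, (∀ i, b i < p ^ e) →
      cmp p e b G ∈ (⨅ i, linI (P i) ^ w i : Ideal (MvPolynomial (Fin (n + 1)) k)) := by
  intro b hb
  rw [Submodule.mem_iInf]
  intro i
  apply cmp_mem_of_fro _ hb
  apply mem_fro_linI hG (hP i) (hGm i)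
  have h3 : p ^ e * (w i + n) = p ^ e * (w i + n - 1) + p ^ e := by
    obtain ⟨x, hx⟩ : ∃ x, w i + n = x + 1 := ⟨w i + n - 1, by omega⟩
    rw [hx, Nat.add_sub_cancel]
    ring
  omega

/-- the values of a functional on the components of forms of high order and small degree are
proportional to the forms -/
theorem ratio {n s D D' ν : ℕ} (e : ℕ) {P : Fin s → Fin (n + 1) → k} (hP : ∀ i, P i ≠ 0)
    {w : Fin s → ℕ} (hn : 1 ≤ n) {L : MvPolynomial (Fin (n + 1)) k →ₗ[k] k}
    (hLI : ∀ f ∈ (⨅ i, linI (P i) ^ w i : Ideal (MvPolynomial (Fin (n + 1)) k)),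
      ∀ i, L (X i * f) = 0)
    (hLν : ∀ (f : MvPolynomial (Fin (n + 1)) k) (l : ℕ), f.IsHomogeneous l → l ≠ ν → L f = 0)
    {G H : MvPolynomial (Fin (n + 1)) k} (hG : G.IsHomogeneous D) (hH : H.IsHomogeneous D')
    (hDD : D' ≤ D) (hD : D < p ^ e * ν + p ^ e)
    (hGm : ∀ i, G ∈ mI (P i) ^ (p ^ e * (w i + n - 1)))
    (hHm : ∀ i, H ∈ mI (P i) ^ (p ^ e * (w i + n - 1))) :
    G * lam p e L H = H * lam p e L G := by
  obtain ⟨e', he'⟩ : ∃ e', D < p ^ e' := ⟨D, Nat.lt_pow_self (Fact.out : p.Prime).one_lt⟩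
  set M := p ^ e' with hM
  have hdeg : ∀ l ≤ M, (G ^ (M - l) * H ^ l).IsHomogeneous (D * (M - l) + D' * l) :=
    fun l _ => (hG.pow _).mul (hH.pow _)
  have hord : ∀ l ≤ M, ∀ i, G ^ (M - l) * H ^ l ∈
      mI (P i) ^ (p ^ (e + e') * (w i + n - 1)) := by
    intro l hl i
    have h1 : G ^ (M - l) * H ^ l ∈ mI (P i) ^ (p ^ e * (w i + n - 1) * (M - l)) *
        mI (P i) ^ (p ^ e * (w i + n - 1) * l) := by
      apply Ideal.mul_mem_mul
      · rw [pow_mul]
        exact Ideal.pow_mem_pow (hGm i) _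
      · rw [pow_mul]
        exact Ideal.pow_mem_pow (hHm i) _
    rw [← pow_add, ← mul_add, Nat.sub_add_cancel hl] at h1
    have h2 : p ^ e * (w i + n - 1) * M = p ^ (e + e') * (w i + n - 1) := by
      rw [pow_add]
      ring
    rwa [h2] at h1
  have hcm := fun l (hl : l ≤ M) => comp_mem (e + e') hP hn (hdeg l hl) (hord l hl)
  have hbound : D + D * M < p ^ (e + e') * ν + p ^ (e + e') := by
    have h1 : (D + 1) * M ≤ (p ^ e * ν + p ^ e) * M := Nat.mul_le_mul_right _ hD
    have h2 : (p ^ e * ν + p ^ e) * M = p ^ (e + e') * ν + p ^ (e + e') := by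
      rw [pow_add]
      ring
    have h3 : (D + 1) * M = D * M + M := by ring
    omega
  have key : ∀ l ≤ M, G ^ l * lam p (e + e') L (G ^ (M - l) * H ^ l) =
      H ^ l * lam p (e + e') L (G ^ M) := by
    intro l
    induction l with
    | zero =>
      intro _
      simp
    | succ l ih =>
      intro hl
      have ih' := ih (by omega)
      have h1 : G * lam p (e + e') L (G ^ (M - (l + 1)) * H ^ (l + 1)) =
          H * lam p (e + e') L (G ^ (M - l) * H ^ l) := by
        apply lam_exact hLI hLν hG (hdeg (l + 1) hl) hH (hdeg l (by omega)) _ _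
          (hcm (l + 1) hl) (hcm l (by omega))
        · have h2 : M - l = M - (l + 1) + 1 := by omega
          rw [h2]
          ring
        · have h2 : D' * (l + 1) ≤ D * (l + 1) := Nat.mul_le_mul_right _ hDD
          have h3 : D * (M - (l + 1)) + D * (l + 1) = D * M := by
            rw [← mul_add, Nat.sub_add_cancel hl]
          omega
        · have h2 : D' * l ≤ D * l := Nat.mul_le_mul_right _ hDD
          have h3 : D * (M - l) + D * l = D * M := by
            rw [← mul_add, Nat.sub_add_cancel (by omega)]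
          omega
      calc G ^ (l + 1) * lam p (e + e') L (G ^ (M - (l + 1)) * H ^ (l + 1))
          = G ^ l * (G * lam p (e + e') L (G ^ (M - (l + 1)) * H ^ (l + 1))) := by ring
        _ = H * (G ^ l * lam p (e + e') L (G ^ (M - l) * H ^ l)) := by rw [h1]; ring
        _ = H ^ (l + 1) * lam p (e + e') L (G ^ M) := by rw [ih']; ring
  have h1 := key M le_rfl
  rw [Nat.sub_self, pow_zero, one_mul, hM, lam_frob, lam_frob, ← mul_pow, ← mul_pow] at h1
  apply iterateFrobenius_inj (MvPolynomial (Fin (n + 1)) k) p e'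
  rw [iterateFrobenius_def, iterateFrobenius_def]
  exact h1

end

end Pool.Agent.TH719.HHq
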