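import Pool.Agent.TH719.HHq.Ratio
import Pool.Agent.H737R3.Cont.Factor

/-!
Extraction of `q`-th roots by Hasse derivatives of order `p ^ r`.
-/

set_option autoImplicit false
set_option linter.unusedSectionVars false

universe u

namespace Pool.Agent.TH719.HHq

open MvPolynomial Pool.Agent.Chud Pool.Agent.H580C Pool.Agent.H737R3

section frob

variable {A : Type u} [CommRing A] (p : ℕ) [Fact p.Prime] [CharP A p] {N : ℕ}

theorem pow_frob (r : ℕ) (x : MvPolynomial (Fin N) A) :
    x ^ p ^ r = ∑ c ∈ x.support, monomial (p ^ r • c) (coeff c x ^ p ^ r) := by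
  conv_lhs => rw [x.as_sum]
  rw [sum_pow_char_pow]
  apply Finset.sum_congr rfl
  intro c _
  rw [monomial_pow]

theorem coeff_pow_frob (r : ℕ) (x : MvPolynomial (Fin N) A) (c : Fin N →₀ ℕ) :
    coeff (p ^ r • c) (x ^ p ^ r) = coeff c x ^ p ^ r := by
  classical
  have hp : 0 < p ^ r := pow_pos (Fact.out : p.Prime).pos r
  rw [pow_frob, coeff_sum, Finset.sum_eq_single c]
  · rw [coeff_monomial, if_pos rfl]
  · intro b _ hb
    rw [coeff_monomial, if_neg]
    intro h
    apply hb
    ext i
    have h1 := DFunLike.congr_fun h i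
    rw [Finsupp.smul_apply, Finsupp.smul_apply, smul_eq_mul, smul_eq_mul] at h1
    exact Nat.eq_of_mul_eq_mul_left hp h1
  · intro h
    rw [notMem_support_iff.1 h, zero_pow hp.ne', monomial_zero, coeff_zero]

theorem coeff_pow_frob_zero (r : ℕ) (x : MvPolynomial (Fin N) A) (m : Fin N →₀ ℕ) (i : Fin N)
    (h : ¬ p ^ r ∣ m i) : coeff m (x ^ p ^ r) = 0 := by
  classical
  rw [pow_frob, coeff_sum]
  apply Finset.sum_eq_zero
  intro c _
  rw [coeff_monomial, if_neg]
  intro h1
  apply h
  rw [← h1, Finsupp.smul_apply, smul_eq_mul]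
  exact dvd_mul_right _ _

end frob

section

variable {k : Type u} [Field k] {p : ℕ} [Fact p.Prime] [CharP k p] {N : ℕ}

theorem hd_zero (v : MvPolynomial (Fin N) k) : hd 0 v = v := by
  ext m
  rw [t_HC k N 0 m]
  simp

theorem hd_single (i : Fin N) (v : MvPolynomial (Fin N) k) :
    hd (Finsupp.single i 1) v = pderiv i v := by
  classical
  ext m
  rw [t_HC k N _ m, coeff_pderiv]
  have h1 : ∏ j, (m j + (Finsupp.single i 1 : Fin N →₀ ℕ) j).choose
      ((Finsupp.single i 1 : Fin N →₀ ℕ) j) = m i + 1 := by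
    rw [Finset.prod_eq_single i]
    · rw [Finsupp.single_eq_same, Nat.choose_one_right]
    · intro j _ hj
      rw [Finsupp.single_eq_of_ne hj, Nat.choose_zero_right]
    · intro h
      exact absurd (Finset.mem_univ i) h
  rw [h1]
  push_cast
  ring

/-- Leibniz rule for the Hasse derivative of order `p ^ r` and a `p ^ r`-th power -/
theorem hd_pow_mul (r : ℕ) (i : Fin N) (v φ : MvPolynomial (Fin N) k) :
    hd (Finsupp.single i (p ^ r)) (v ^ p ^ r * φ) =
      (pderiv i v) ^ p ^ r * φ + v ^ p ^ r * hd (Finsupp.single i (p ^ r)) φ := by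
  classical
  have hp : 0 < p ^ r := pow_pos (Fact.out : p.Prime).pos r
  rw [hd_apply, map_mul, map_pow, coeff_mul]
  have h0 : ∀ b : Fin N →₀ ℕ, coeff b (taylor v) = hd b v := fun b => rfl
  have h1 : ∀ b : Fin N →₀ ℕ, coeff b (taylor φ) = hd b φ := fun b => rfl
  rw [Finsupp.antidiagonal_single, Finset.sum_map]
  have h2 : ∀ x ∈ Finset.HasAntidiagonal.antidiagonal (p ^ r), x ≠ (p ^ r, 0) → x ≠ (0, p ^ r) →
      coeff (Finsupp.single i x.1) ((taylor v) ^ p ^ r) = 0 := by
    rintro ⟨x, y⟩ hx hx1 hx2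
    rw [Finset.HasAntidiagonal.mem_antidiagonal] at hx
    apply coeff_pow_frob_zero p r _ _ i
    rw [Finsupp.single_eq_same]
    intro hdvd
    obtain ⟨m, hm⟩ := hdvd
    simp only at hm hx
    rcases Nat.eq_zero_or_pos m with h | h
    · subst h
      apply hx2
      ext
      · simp only; omega
      · simp only; omega
    · have h3 : p ^ r * 1 ≤ p ^ r * m := Nat.mul_le_mul_left _ h
      apply hx1
      ext
      · simp only; omega
      · simp only; omega
  rw [Finset.sum_eq_add (p ^ r, 0) (0, p ^ r)]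
  · simp only [Function.Embedding.coeFn_mk, Function.Embedding.prodMap, Prod.map]
    have h3 : (Finsupp.single i (p ^ r) : Fin N →₀ ℕ) = p ^ r • Finsupp.single i 1 := by
      rw [Finsupp.smul_single, smul_eq_mul, mul_one]
    have h4 : (Finsupp.single i 0 : Fin N →₀ ℕ) = p ^ r • 0 := by simp
    have h5 : coeff (Finsupp.single i (p ^ r)) ((taylor v) ^ p ^ r) = (pderiv i v) ^ p ^ r := by
      rw [h3, coeff_pow_frob, h0, hd_single]
    have h6 : coeff (Finsupp.single i 0) ((taylor v) ^ p ^ r) = v ^ p ^ r := by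
      rw [h4, coeff_pow_frob, h0, hd_zero]
    have h7 : coeff (Finsupp.single i 0) (taylor φ) = φ := by
      rw [Finsupp.single_zero, h1, hd_zero]
    rw [h5, h6, h7, h1]
  · intro h
    rw [Prod.mk.injEq] at h
    exact hp.ne' h.1
  · rintro x hx ⟨hx1, hx2⟩
    have := h2 x hx hx1 hx2
    simp only [Function.Embedding.prodMap, Prod.map, Function.Embedding.coeFn_mk]
    rw [this, zero_mul]
  · intro h
    exact absurd (Finset.HasAntidiagonal.mem_antidiagonal.2 (by simp)) h
  · intro h
    exact absurd (Finset.HasAntidiagonal.mem_antidiagonal.2 (by simp)) h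

theorem pderiv_eq_zero_of_dvd {v : MvPolynomial (Fin N) k} {i : Fin N} (h : v ∣ pderiv i v) :
    pderiv i v = 0 := by
  classical
  by_contra h0
  obtain ⟨m, hm⟩ := h
  have hv0 : v ≠ 0 := by
    rintro rfl
    exact h0 (map_zero _)
  have hm0 : m ≠ 0 := by
    rintro rfl
    rw [mul_zero] at hm
    exact h0 hm
  have h1 : v.totalDegree ≤ (pderiv i v).totalDegree := by
    rw [hm, totalDegree_mul_of_isDomain hv0 hm0]
    omega
  have h2 : (pderiv i v).totalDegree + 1 ≤ v.totalDegree := by
    obtain ⟨c, hc, hcd⟩ := Finset.exists_mem_eq_sup (pderiv i v).support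
      (support_nonempty.2 h0) (fun s => s.sum fun _ e => e)
    have h3 : (pderiv i v).totalDegree = c.sum fun _ e => e := hcd
    rw [mem_support_iff, coeff_pderiv] at hc
    have h4 := left_ne_zero_of_mul hc
    have h5 := le_totalDegree (mem_support_iff.2 h4)
    have h6 : ((c + Finsupp.single i 1).sum fun _ e => e) = (c.sum fun _ e => e) + 1 := by
      rw [Finsupp.sum_add_index' (fun _ => rfl) (fun _ _ _ => rfl), Finsupp.sum_single_index rfl]
    rw [h6] at h5
    omega
  omega

theorem reduce {G φ : MvPolynomial (Fin N) k} {M : ℕ} {u v : MvPolynomial (Fin N) k}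
    (hv : v ≠ 0) (h : φ * v ^ M = u ^ M * G) :
    ∃ u' v' : MvPolynomial (Fin N) k, v' ≠ 0 ∧ IsRelPrime v' u' ∧ φ * v' ^ M = u' ^ M * G := by
  obtain ⟨v', u', g, hrel, hv', hu'⟩ := UniqueFactorizationMonoid.exists_reduced_factors v hv u
  have hg : g ≠ 0 := by
    rintro rfl
    apply hv
    rw [← hv', zero_mul]
  refine ⟨u', v', ?_, hrel, ?_⟩
  · rintro rfl
    apply hv
    rw [← hv', mul_zero]
  · apply mul_left_cancel₀ (pow_ne_zero M hg)
    calc g ^ M * (φ * v' ^ M) = φ * (g * v') ^ M := by rw [mul_pow]; ring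
      _ = (g * u') ^ M * G := by rw [hv', hu', h]
      _ = g ^ M * (u' ^ M * G) := by rw [mul_pow]; ring

/-- if `φ / G` is annihilated by the logarithmic Hasse derivatives of orders `p ^ r`, `r < e`,
then it is a `p ^ e`-th power -/
theorem exists_root [PerfectRing k p] {G φ : MvPolynomial (Fin N) k} (hG : G ≠ 0) (hφ : φ ≠ 0)
    (e : ℕ) (h : ∀ r < e, ∀ i, G * hd (Finsupp.single i (p ^ r)) φ =
      hd (Finsupp.single i (p ^ r)) G * φ) :
    ∀ r ≤ e, ∃ u v : MvPolynomial (Fin N) k, v ≠ 0 ∧ IsRelPrime v u ∧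
      φ * v ^ p ^ r = u ^ p ^ r * G := by
  have hp := (Fact.out : p.Prime)
  intro r
  induction r with
  | zero =>
    intro _
    rw [pow_zero]
    apply reduce (M := 1) (u := φ) (v := G) hG
    ring
  | succ r ih =>
    intro hr
    obtain ⟨u, v, hv0, hrel, huv⟩ := ih (by omega)
    have hu0 : u ≠ 0 := by
      rintro rfl
      rw [zero_pow (pow_pos hp.pos r).ne', zero_mul] at huv
      rcases mul_eq_zero.1 huv with h1 | h1
      · exact hφ h1
      · exact pow_ne_zero _ hv0 h1
    have key : ∀ i, u * pderiv i v = v * pderiv i u := by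
      intro i
      have h1 := congrArg (hd (Finsupp.single i (p ^ r))) huv
      rw [mul_comm φ, hd_pow_mul, hd_pow_mul] at h1
      have h2 := h r (by omega) i
      have h3 : (u * pderiv i v) ^ p ^ r * (G * G) = (v * pderiv i u) ^ p ^ r * (G * G) := by
        have h4 : G * ((pderiv i v) ^ p ^ r * φ + v ^ p ^ r * hd (Finsupp.single i (p ^ r)) φ) =
            G * ((pderiv i u) ^ p ^ r * G + u ^ p ^ r * hd (Finsupp.single i (p ^ r)) G) := by
          rw [h1]
        have h5 : v ^ p ^ r * (G * hd (Finsupp.single i (p ^ r)) φ) =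
            G * (u ^ p ^ r * hd (Finsupp.single i (p ^ r)) G) := by
          rw [h2]
          calc v ^ p ^ r * (hd (Finsupp.single i (p ^ r)) G * φ)
              = (φ * v ^ p ^ r) * hd (Finsupp.single i (p ^ r)) G := by ring
            _ = (u ^ p ^ r * G) * hd (Finsupp.single i (p ^ r)) G := by rw [huv]
            _ = _ := by ring
        have h6 : G * ((pderiv i v) ^ p ^ r * φ) = G * ((pderiv i u) ^ p ^ r * G) := by
          have h7 : G * ((pderiv i v) ^ p ^ r * φ) +
              v ^ p ^ r * (G * hd (Finsupp.single i (p ^ r)) φ) =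
              G * ((pderiv i u) ^ p ^ r * G) +
              G * (u ^ p ^ r * hd (Finsupp.single i (p ^ r)) G) := by
            calc _ = G * ((pderiv i v) ^ p ^ r * φ +
                v ^ p ^ r * hd (Finsupp.single i (p ^ r)) φ) := by ring
              _ = _ := h4
              _ = _ := by ring
          rw [h5] at h7
          exact add_right_cancel h7
        calc (u * pderiv i v) ^ p ^ r * (G * G)
            = G * (pderiv i v) ^ p ^ r * (u ^ p ^ r * G) := by rw [mul_pow]; ring
          _ = G * (pderiv i v) ^ p ^ r * (φ * v ^ p ^ r) := by rw [huv]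
          _ = v ^ p ^ r * (G * ((pderiv i v) ^ p ^ r * φ)) := by ring
          _ = v ^ p ^ r * (G * ((pderiv i u) ^ p ^ r * G)) := by rw [h6]
          _ = (v * pderiv i u) ^ p ^ r * (G * G) := by rw [mul_pow]; ring
      have h8 := mul_right_cancel₀ (mul_ne_zero hG hG) h3
      apply iterateFrobenius_inj (MvPolynomial (Fin N) k) p r
      rw [iterateFrobenius_def, iterateFrobenius_def]
      exact h8
    have hv : ∀ i, pderiv i v = 0 := by
      intro i
      apply pderiv_eq_zero_of_dvd
      apply hrel.dvd_of_dvd_mul_left (y := u)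
      exact ⟨pderiv i u, key i⟩
    have hu : ∀ i, pderiv i u = 0 := by
      intro i
      have h1 := key i
      rw [hv i, mul_zero] at h1
      exact (mul_eq_zero.1 h1.symm).resolve_left hv0
    have h1 := Cont.eq_pow_of_pderiv (p := p) v hv
    have h2 := Cont.eq_pow_of_pderiv (p := p) u hu
    generalize Cont.cmp p 0 v = v' at h1
    generalize Cont.cmp p 0 u = u' at h2
    apply reduce (u := u') (v := v')
    · rintro rfl
      rw [zero_pow hp.ne_zero] at h1
      exact hv0 h1
    · rw [pow_succ', pow_mul, pow_mul, ← h1, ← h2]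
      exact huv

end

end Pool.Agent.TH719.HHq
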