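import Pool.Agent.TH719.HHq.Vanish

/-!
The containment for forms without `t`-th power factors: the borderline degrees.
-/

set_option autoImplicit false
set_option linter.unusedSectionVars false

universe u

namespace Pool.Agent.TH719.HHq

open MvPolynomial Pool.Agent.Chud Pool.Agent.H580C Pool.Agent.H737R3
open Pool.Agent.H737R3.Cont (lowI irr)

section

variable {k : Type u} [Field k]

theorem ratio' {p : ℕ} [Fact p.Prime] [CharP k p] [PerfectRing k p]
    {n s D D' ν : ℕ} (e : ℕ) {P : Fin s → Fin (n + 1) → k} (hP : ∀ i, P i ≠ 0)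
    {w : Fin s → ℕ} (hn : 1 ≤ n) {L : MvPolynomial (Fin (n + 1)) k →ₗ[k] k} (hL : Good P w ν L)
    {G H : MvPolynomial (Fin (n + 1)) k} (hG : G.IsHomogeneous D) (hH : H.IsHomogeneous D')
    (hD : D < p ^ e * ν + p ^ e) (hD' : D' < p ^ e * ν + p ^ e)
    (hGm : ∀ i, G ∈ mI (P i) ^ (p ^ e * (w i + n - 1)))
    (hHm : ∀ i, H ∈ mI (P i) ^ (p ^ e * (w i + n - 1))) :
    G * lam p e L H = H * lam p e L G := by
  rcases Nat.le_total D' D with h | h
  · exact ratio e hP hn hL.mulX hL.deg hG hH h hD hGm hHm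
  · exact (ratio e hP hn hL.mulX hL.deg hH hG h hD' hHm hGm).symm

/-- `F ^ a`, compared with `F ^ z (hd c F) ^ j` -/
theorem pf_vanish' {p : ℕ} [Fact p.Prime] [CharP k p] [PerfectRing k p] {n s t d ν E a z : ℕ}
    {P : Fin s → Fin (n + 1) → k} (hP : ∀ i, P i ≠ 0)
    {w : Fin s → ℕ} (hn : 1 ≤ n)
    {F : MvPolynomial (Fin (n + 1)) k} (hFd : F.IsHomogeneous d) (hF0 : F ≠ 0)
    (hpf : ∀ v : MvPolynomial (Fin (n + 1)) k, v ^ t ∣ F → IsUnit v)
    (hFm : ∀ i, F ∈ mI (P i) ^ (t * (w i + n - 1))) (htd : t ≤ d)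
    (hord₁ : ∀ i, p ^ E * (w i + n - 1) ≤ t * (w i + n - 1) * a)
    (hdeg₁ : d * a < p ^ E * ν + p ^ E) (hz : d * z < p ^ E * ν)
    (h : ∀ m, 1 ≤ m → m < t → ∃ j,
      (∀ i, p ^ E * (w i + n - 1) + m * j ≤ t * (w i + n - 1) * (j + z)) ∧
      d * (j + z) < p ^ E * ν + p ^ E + m * j)
    {L : MvPolynomial (Fin (n + 1)) k →ₗ[k] k} (hL : Good P w ν L) :
    lam p E L (F ^ a) = 0 := by
  classical
  by_contra hφ0
  set φ := lam p E L (F ^ a) with hφ
  have hφh : φ.IsHomogeneous (d * a - p ^ E * ν) := by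
    intro c hc
    have h1 := lam_degree hL.deg (hFd.pow a) hc
    have h2 : c.degree = d * a - p ^ E * ν := by omega
    rwa [Finsupp.degree_eq_weight_one] at h2
  have h4 : p ^ E * ν ≤ d * a := by
    obtain ⟨b, hb⟩ := MvPolynomial.ne_zero_iff.1 hφ0
    have := lam_degree hL.deg (hFd.pow a) hb
    omega
  have hza : z ≤ a := by
    by_contra hcon
    have : d * a ≤ d * z := Nat.mul_le_mul_left _ (by omega)
    omega
  have hGm : ∀ i, F ^ a ∈ mI (P i) ^ (p ^ E * (w i + n - 1)) := by
    intro i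
    have h1 : F ^ a ∈ mI (P i) ^ (t * (w i + n - 1) * a) := by
      rw [pow_mul]
      exact Ideal.pow_mem_pow (hFm i) a
    exact Ideal.pow_le_pow_right (hord₁ i) h1
  have hdvd : F ^ (a - z) ∣ φ := by
    apply ufd_dvd (pow_ne_zero _ hF0)
    intro π hπ
    obtain ⟨c, hc, hnd⟩ := exists_hd_not_dvd (p := p) hF0 hpf hπ
    rcases Nat.eq_zero_or_pos c.degree with hc0 | hc0
    · have hc00 : c = 0 := by
        ext i
        have := Finsupp.le_degree i c
        rw [Finsupp.zero_apply]
        omega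
      rw [hc00, hd_zero] at hnd
      exact ⟨F ^ (a - z), fun h => hnd (hπ.dvd_of_dvd_pow h), dvd_mul_right _ _⟩
    obtain ⟨j, hord, hdeg⟩ := h c.degree hc0 hc
    set m := c.degree with hm
    refine ⟨(hd c F) ^ j, fun h => hnd (hπ.dvd_of_dvd_pow h), ?_⟩
    have hH : (F ^ z * (hd c F) ^ j).IsHomogeneous (d * z + (d - m) * j) :=
      (hFd.pow _).mul ((t_HH t_HC k (n + 1) c d F hFd).pow _)
    have hmd : m ≤ d := by omega
    have hDD : d * z + (d - m) * j + m * j = d * (j + z) := by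
      have h1 : (d - m) * j + m * j = d * j := by
        rw [← add_mul, Nat.sub_add_cancel hmd]
      have h2 : d * (j + z) = d * j + d * z := by ring
      omega
    have hHm : ∀ i, F ^ z * (hd c F) ^ j ∈ mI (P i) ^ (p ^ E * (w i + n - 1)) := by
      intro i
      set W := t * (w i + n - 1) with hW
      have h1 : F ^ z * (hd c F) ^ j ∈ mI (P i) ^ (W * z) *
          mI (P i) ^ ((W - c.degree) * j) := by
        apply Ideal.mul_mem_mul
        · rw [pow_mul]
          exact Ideal.pow_mem_pow (hFm i) _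
        · rw [pow_mul]
          exact Ideal.pow_mem_pow (t_HM k (n + 1) c (P i) _ F (hFm i)) _
      rw [← pow_add, ← hm] at h1
      refine Ideal.pow_le_pow_right ?_ h1
      have h2 : W * z + W * j = W * (j + z) := by ring
      have h3 : W * j ≤ (W - m + m) * j := Nat.mul_le_mul_right _ (by omega)
      have h4 : (W - m + m) * j = (W - m) * j + m * j := by ring
      have h5 := hord i
      rw [← hW] at h5
      omega
    have h1 := ratio' E hP hn hL (hFd.pow a) hH hdeg₁ (by omega) hGm hHm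
    rw [← hφ] at h1
    have h2 : F ^ z * F ^ (a - z) ∣ F ^ z * ((hd c F) ^ j * φ) := by
      rw [← mul_assoc, ← h1, ← pow_add, Nat.add_sub_cancel' hza]
      exact dvd_mul_right _ _
    exact (mul_dvd_mul_iff_left (pow_ne_zero _ hF0)).1 h2
  obtain ⟨m, hm⟩ := hdvd
  have hm0 : m ≠ 0 := by
    rintro rfl
    exact hφ0 (by rw [hm, mul_zero])
  have h1 := hφh.totalDegree hφ0
  rw [hm, totalDegree_mul_of_isDomain (pow_ne_zero _ hF0) hm0,
    (hFd.pow _).totalDegree (pow_ne_zero _ hF0)] at h1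
  have h2 := qpos p E
  have h3 : d * (a - z) + d * z = d * a := by
    rw [← mul_add, Nat.sub_add_cancel hza]
  omega

/-- the containment for forms without `t`-th power factors -/
theorem pf_low' (p : ℕ) [Fact p.Prime] [CharP k p] [PerfectRing k p] {n s t d : ℕ}
    {P : Fin s → Fin (n + 1) → k} (hP : ∀ i, P i ≠ 0)
    {w : Fin s → ℕ} (hn : 1 ≤ n) (ht : 0 < t) (htd : t ≤ d)
    {F : MvPolynomial (Fin (n + 1)) k} (hFd : F.IsHomogeneous d) (hF0 : F ≠ 0)
    (hpf : ∀ v : MvPolynomial (Fin (n + 1)) k, v ^ t ∣ F → IsUnit v)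
    (hFm : ∀ i, F ∈ mI (P i) ^ (t * (w i + n - 1)))
    (hw : ∀ i, n ≤ w i + n - 1) (hρ1 : 1 ≤ d % t) (hκ : t - 1 ≤ n * (t - d % t)) :
    F ∈ lowI P w (d / t) ^ t := by
  have hp := (Fact.out : p.Prime)
  have hν : 1 ≤ d / t := (Nat.one_le_div_iff ht).2 htd
  set B := t * (d + 1) + 2 * (d * d * (n * t)) with hB
  obtain ⟨E, hE⟩ : ∃ E, B < p ^ E := ⟨B, Nat.lt_pow_self hp.one_lt⟩
  have hdt := Nat.div_add_mod d t
  have hmt := Nat.mod_lt d ht
  set ν := d / t with hνdef
  set ρ := d % t with hρ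
  have hd : 0 < d := by omega
  have htd1 : t * (d + 1) = t * d + t := by ring
  -- the power
  set a := (p ^ E + t - 1) / t with ha
  have h1 : t * a + (p ^ E + t - 1) % t = p ^ E + t - 1 := Nat.div_add_mod (p ^ E + t - 1) t
  have h2 := Nat.mod_lt (p ^ E + t - 1) ht
  generalize (p ^ E + t - 1) % t = x at h1 h2
  have h3 : p ^ E ≤ t * a := by omega
  have h4 : t * a < p ^ E + t := by omega
  have hord₁ : ∀ i, p ^ E * (w i + n - 1) ≤ t * (w i + n - 1) * a := by
    intro i
    calc p ^ E * (w i + n - 1) ≤ t * a * (w i + n - 1) := Nat.mul_le_mul_right _ h3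
      _ = t * (w i + n - 1) * a := by ring
  have hdeg₁ : d * a < p ^ E * ν + p ^ E := by
    apply Nat.lt_of_mul_lt_mul_left (a := t)
    have h5 : t * (d * a) = d * (t * a) := by ring
    have h6 : d * (t * a) ≤ d * (p ^ E + t) := Nat.mul_le_mul_left _ h4.le
    have h7 : d * (p ^ E + t) = p ^ E * d + t * d := by ring
    have h8 : t * (p ^ E * ν + p ^ E) = p ^ E * (t * ν + t) := by ring
    have h9 : p ^ E * (d + 1) ≤ p ^ E * (t * ν + t) := Nat.mul_le_mul_left _ (by omega)
    have h10 : p ^ E * (d + 1) = p ^ E * d + p ^ E := by ring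
    omega
  -- the exponent `z`
  have hqν : p ^ E * 1 ≤ p ^ E * ν := Nat.mul_le_mul_left _ hν
  have hq0 := qpos p E
  set z := (p ^ E * ν - 1) / d with hzdef
  have h5 : d * z + (p ^ E * ν - 1) % d = p ^ E * ν - 1 := Nat.div_add_mod _ _
  have h6 := Nat.mod_lt (p ^ E * ν - 1) hd
  generalize (p ^ E * ν - 1) % d = y at h5 h6
  have hz : d * z < p ^ E * ν := by omega
  have hz' : p ^ E * ν ≤ d * z + d := by omega
  have htz : t * z ≤ p ^ E := by
    apply Nat.le_of_mul_le_mul_left _ hd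
    have h7 : d * (t * z) = t * (d * z) := by ring
    have h8 : t * (d * z) ≤ t * (p ^ E * ν) := Nat.mul_le_mul_left _ hz.le
    have h9 : t * (p ^ E * ν) = p ^ E * (t * ν) := by ring
    have h10 : p ^ E * (t * ν) ≤ p ^ E * d := Nat.mul_le_mul_left _ (by omega)
    have h11 : p ^ E * d = d * p ^ E := mul_comm _ _
    omega
  obtain ⟨g, hg⟩ : ∃ g, p ^ E = t * z + g := ⟨p ^ E - t * z, by omega⟩
  -- `d g ≤ q ρ + t d`
  have hdg : d * g ≤ p ^ E * ρ + t * d := by
    have e1 : d * p ^ E = t * (d * z) + d * g := by rw [hg]; ring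
    have e2 : t * (p ^ E * ν) ≤ t * (d * z + d) := Nat.mul_le_mul_left _ hz'
    have e3 : t * (d * z + d) = t * (d * z) + t * d := by ring
    have e4 : d * p ^ E = t * (p ^ E * ν) + p ^ E * ρ := by
      calc d * p ^ E = (t * ν + ρ) * p ^ E := by rw [hdt]
        _ = _ := by ring
    omega
  have hex : ∀ m, 1 ≤ m → m < t → ∃ j,
      (∀ i, p ^ E * (w i + n - 1) + m * j ≤ t * (w i + n - 1) * (j + z)) ∧
      d * (j + z) < p ^ E * ν + p ^ E + m * j := by
    intro m hm1 hmt'
    have hnt : t ≤ n * t := Nat.le_mul_of_pos_left _ (by omega)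
    obtain ⟨r, hr⟩ : ∃ r, n * t = m + r := ⟨n * t - m, by omega⟩
    have hr0 : 0 < r := by omega
    set j := (n * g + r - 1) / r with hj
    have f1 : r * j + (n * g + r - 1) % r = n * g + r - 1 := Nat.div_add_mod _ _
    have f2 := Nat.mod_lt (n * g + r - 1) hr0
    generalize (n * g + r - 1) % r = x' at f1 f2
    have f3 : n * g ≤ r * j := by omega
    have f4 : r * j ≤ n * g + r := by omega
    refine ⟨j, ?_, ?_⟩
    · intro i
      obtain ⟨u, hu⟩ : ∃ u, w i + n - 1 = n + u := ⟨w i + n - 1 - n, by have := hw i; omega⟩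
      rw [hu]
      -- `n (t (j + z) - q) ≥ m j`
      have g1 : n * (t * (j + z)) = n * (t * z) + (m + r) * j := by
        rw [← hr]; ring
      have g2 : n * p ^ E = n * (t * z) + n * g := by rw [hg]; ring
      have g3 : (m + r) * j = m * j + r * j := by ring
      have g4 : n * p ^ E + m * j ≤ n * (t * (j + z)) := by omega
      have g5 : n * p ^ E ≤ n * (t * (j + z)) := by omega
      have g6 : p ^ E ≤ t * (j + z) := Nat.le_of_mul_le_mul_left g5 (by omega)
      have g7 : u * p ^ E ≤ u * (t * (j + z)) := Nat.mul_le_mul_left _ g6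
      have g8 : p ^ E * (n + u) = n * p ^ E + u * p ^ E := by ring
      have g9 : t * (n + u) * (j + z) = n * (t * (j + z)) + u * (t * (j + z)) := by ring
      omega
    · -- `(d - m) j ≤ q`
      have hmd : m ≤ d := by omega
      obtain ⟨d', hd'⟩ : ∃ d', d = m + d' := ⟨d - m, by omega⟩
      have key : d' * j ≤ p ^ E := by
        apply Nat.le_of_mul_le_mul_left _ (Nat.mul_pos hd hr0)
        -- d r d' j ≤ d d' (n g + r) ≤ d' n (q ρ + t d) + d d' r
        have k1 : d * r * (d' * j) = d * d' * (r * j) := by ring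
        have k2 : d * d' * (r * j) ≤ d * d' * (n * g + r) := Nat.mul_le_mul_left _ f4
        have k3 : d * d' * (n * g + r) = d' * n * (d * g) + d * d' * r := by ring
        have k4 : d' * n * (d * g) ≤ d' * n * (p ^ E * ρ + t * d) := Nat.mul_le_mul_left _ hdg
        have k5 : d' * n * (p ^ E * ρ + t * d) = p ^ E * (d' * n * ρ) + d * d' * (n * t) := by ring
        -- d r = d' n ρ + d (n κ - m) + m n ρ ≥ d' n ρ + 1
        obtain ⟨κ, hκ'⟩ : ∃ κ, t = ρ + κ := ⟨t - ρ, by omega⟩
        have k6 : m ≤ n * κ := by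
          have : t - ρ = κ := by omega
          rw [this] at hκ
          omega
        obtain ⟨v, hv⟩ : ∃ v, n * κ = m + v := ⟨n * κ - m, by omega⟩
        have k7 : r = n * ρ + v := by
          have : n * t = n * ρ + n * κ := by rw [hκ']; ring
          omega
        have k8 : d * r = d' * n * ρ + (m * (n * ρ) + d * v) := by
          rw [k7, mul_add]
          nth_rewrite 1 [hd']
          ring
        have k9 : 1 ≤ m * (n * ρ) + d * v := by
          have : 0 < m * (n * ρ) := Nat.mul_pos (by omega) (Nat.mul_pos (by omega) hρ1)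
          omega
        have k10 : p ^ E * (d' * n * ρ + 1) ≤ p ^ E * (d * r) :=
          Nat.mul_le_mul_left _ (by omega)
        have k11 : p ^ E * (d' * n * ρ + 1) = p ^ E * (d' * n * ρ) + p ^ E := by ring
        have k12 : d * d' * (n * t) ≤ d * d * (n * t) :=
          Nat.mul_le_mul_right _ (Nat.mul_le_mul_left _ (by omega))
        have k13 : d * d' * r ≤ d * d * (n * t) :=
          Nat.mul_le_mul (Nat.mul_le_mul_left _ (by omega)) (by omega)
        have k14 : p ^ E * (d * r) = d * r * p ^ E := mul_comm _ _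
        omega
      have k1 : d * (j + z) = m * j + d' * j + d * z := by
        rw [mul_add]
        congr 1
        rw [hd']
        ring
      omega
  apply finish hP hn ht hFd hF0 hFm hν (E := E) (a₁ := a)
  · omega
  · intro i
    have h9 : F ^ a ∈ mI (P i) ^ (t * (w i + n - 1) * a) := by
      rw [pow_mul]
      exact Ideal.pow_mem_pow (hFm i) a
    exact Ideal.pow_le_pow_right (hord₁ i) h9
  · exact hdeg₁
  · intro L hL
    exact pf_vanish' hP hn hFd hF0 hpf hFm htd hord₁ hdeg₁ hz hex hL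

end

end Pool.Agent.TH719.HHq
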