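import Pool.Agent.TH719.HHq.Finish
import Pool.Agent.TH719.HHq.PowFree

/-!
The containment for forms without `t`-th power factors.
-/

set_option autoImplicit false
set_option linter.unusedSectionVars false

universe u

namespace Pool.Agent.TH719.HHq

open MvPolynomial Pool.Agent.Chud Pool.Agent.H580C Pool.Agent.H737R3
open Pool.Agent.H737R3.Cont (lowI irr)

section

variable {k : Type u} [Field k]

theorem pf_vanish {p : ℕ} [Fact p.Prime] [CharP k p] [PerfectRing k p] {n s t d ν E a j : ℕ} {P : Fin s → Fin (n + 1) → k} (hP : ∀ i, P i ≠ 0)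
    {w : Fin s → ℕ} (hn : 1 ≤ n) (ht : 0 < t)
    {F : MvPolynomial (Fin (n + 1)) k} (hFd : F.IsHomogeneous d) (hF0 : F ≠ 0)
    (hpf : ∀ v : MvPolynomial (Fin (n + 1)) k, v ^ t ∣ F → IsUnit v)
    (hFm : ∀ i, F ∈ mI (P i) ^ (t * (w i + n - 1))) (hja : j ≤ a)
    (hord : ∀ i, p ^ E * (w i + n - 1) + (t - 1) * j ≤ t * (w i + n - 1) * a)
    (hdeg : d * a < p ^ E * ν + p ^ E) (hdj : p ^ E ≤ d * j)
    {L : MvPolynomial (Fin (n + 1)) k →ₗ[k] k} (hL : Good P w ν L) :
    lam p E L (F ^ a) = 0 := by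
  classical
  by_contra hφ0
  set φ := lam p E L (F ^ a) with hφ
  have hφh : φ.IsHomogeneous (d * a - p ^ E * ν) := by
    intro c hc
    have h1 := lam_degree hL.deg (hFd.pow a) hc
    have h2 : c.degree = d * a - p ^ E * ν := by omega
    rwa [Finsupp.degree_eq_weight_one] at h2
  have hGm : ∀ i, F ^ a ∈ mI (P i) ^ (p ^ E * (w i + n - 1)) := by
    intro i
    have h1 : F ^ a ∈ mI (P i) ^ (t * (w i + n - 1) * a) := by
      rw [pow_mul]
      exact Ideal.pow_mem_pow (hFm i) a
    refine Ideal.pow_le_pow_right ?_ h1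
    have := hord i
    omega
  have hdvd : F ^ j ∣ φ := by
    apply ufd_dvd (pow_ne_zero j hF0)
    intro π hπ
    obtain ⟨c, hc, hnd⟩ := exists_hd_not_dvd (p := p) hF0 hpf hπ
    refine ⟨(hd c F) ^ j, fun h => hnd (hπ.dvd_of_dvd_pow h), ?_⟩
    have hH : (F ^ (a - j) * (hd c F) ^ j).IsHomogeneous (d * (a - j) + (d - c.degree) * j) :=
      (hFd.pow _).mul ((t_HH t_HC k (n + 1) c d F hFd).pow _)
    have hDD : d * (a - j) + (d - c.degree) * j ≤ d * a := by
      have h1 : (d - c.degree) * j ≤ d * j := Nat.mul_le_mul_right _ (Nat.sub_le _ _)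
      have h2 : d * (a - j) + d * j = d * a := by rw [← mul_add, Nat.sub_add_cancel hja]
      omega
    have hHm : ∀ i, F ^ (a - j) * (hd c F) ^ j ∈ mI (P i) ^ (p ^ E * (w i + n - 1)) := by
      intro i
      set W := t * (w i + n - 1) with hW
      have h1 : F ^ (a - j) * (hd c F) ^ j ∈ mI (P i) ^ (W * (a - j)) *
          mI (P i) ^ ((W - c.degree) * j) := by
        apply Ideal.mul_mem_mul
        · rw [pow_mul]
          exact Ideal.pow_mem_pow (hFm i) _
        · rw [pow_mul]
          exact Ideal.pow_mem_pow (t_HM k (n + 1) c (P i) _ F (hFm i)) _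
      rw [← pow_add] at h1
      refine Ideal.pow_le_pow_right ?_ h1
      have h2 : W * (a - j) + W * j = W * a := by rw [← mul_add, Nat.sub_add_cancel hja]
      have h3 : W * j ≤ (W - c.degree + (t - 1)) * j := Nat.mul_le_mul_right _ (by omega)
      have h4 : (W - c.degree + (t - 1)) * j = (W - c.degree) * j + (t - 1) * j := by ring
      have h5 := hord i
      rw [← hW] at h5
      omega
    have h1 := ratio E hP hn hL.mulX hL.deg (hFd.pow a) hH hDD hdeg hGm hHm
    rw [← hφ] at h1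
    have h2 : F ^ (a - j) * F ^ j ∣ F ^ (a - j) * ((hd c F) ^ j * φ) := by
      rw [← pow_add, Nat.sub_add_cancel hja, ← mul_assoc, ← h1]
      exact dvd_mul_right _ _
    exact (mul_dvd_mul_iff_left (pow_ne_zero _ hF0)).1 h2
  obtain ⟨m, hm⟩ := hdvd
  have hm0 : m ≠ 0 := by
    rintro rfl
    exact hφ0 (by rw [hm, mul_zero])
  have h1 := hφh.totalDegree hφ0
  rw [hm, totalDegree_mul_of_isDomain (pow_ne_zero _ hF0) hm0,
    (hFd.pow j).totalDegree (pow_ne_zero _ hF0)] at h1
  have h2 := qpos p E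
  omega

/-- the containment for forms without `t`-th power factors -/
theorem pf_low (p : ℕ) [Fact p.Prime] [CharP k p] [PerfectRing k p] {n s t d : ℕ} {P : Fin s → Fin (n + 1) → k} (hP : ∀ i, P i ≠ 0)
    {w : Fin s → ℕ} (hn : 1 ≤ n) (ht : 0 < t) (htd : t ≤ d)
    {F : MvPolynomial (Fin (n + 1)) k} (hFd : F.IsHomogeneous d) (hF0 : F ≠ 0)
    (hpf : ∀ v : MvPolynomial (Fin (n + 1)) k, v ^ t ∣ F → IsUnit v)
    (hFm : ∀ i, F ∈ mI (P i) ^ (t * (w i + n - 1)))
    (hw : ∀ i, t ≤ (w i + n - 1) * (t - d % t)) : F ∈ lowI P w (d / t) ^ t := by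
  have hp := (Fact.out : p.Prime)
  have hν : 1 ≤ d / t := (Nat.one_le_div_iff ht).2 htd
  set B := t * (d + 1) + t * d + d * d with hB
  obtain ⟨E, hE⟩ : ∃ E, B < p ^ E := ⟨B, Nat.lt_pow_self hp.one_lt⟩
  have hdt := Nat.div_add_mod d t
  have hmt := Nat.mod_lt d ht
  set ν := d / t with hνdef
  set ρ := d % t with hρ
  set q := p ^ E with hq
  have hd : 0 < d := by omega
  set a := (q * (ν + 1) - 1) / d with ha
  set j := (q + d - 1) / d with hj
  have h1 : d * a + (q * (ν + 1) - 1) % d = q * (ν + 1) - 1 := Nat.div_add_mod _ _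
  have h2 := Nat.mod_lt (q * (ν + 1) - 1) hd
  have h3 : d * j + (q + d - 1) % d = q + d - 1 := Nat.div_add_mod _ _
  have h4 := Nat.mod_lt (q + d - 1) hd
  generalize (q * (ν + 1) - 1) % d = x at h1 h2
  generalize (q + d - 1) % d = y at h3 h4
  have h5 : q * (ν + 1) = q * ν + q := by ring
  have h6 : q * 1 ≤ q * ν := Nat.mul_le_mul_left _ hν
  have h7 : q * ν + q ≤ d * a + d := by omega
  have h8 : d * j ≤ q + d := by omega
  have hdd : d ≤ t * d := Nat.le_mul_of_pos_left _ ht
  have h10 : t * (d + 1) = t * d + t := by ring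
  have hja : j ≤ a := by
    apply Nat.le_of_mul_le_mul_left _ hd
    omega
  have hda : d * a < q * ν + q := by omega
  have key : ∀ i, q * (w i + n - 1) + (t - 1) * j ≤ t * (w i + n - 1) * a := by
    intro i
    have hwi := hw i
    have hmu := (mem_mI_pow_iff (P i) hF0 _).1 (hFm i)
    have hmu' := mu_le_totalDegree (P i) hF0
    rw [hFd.totalDegree hF0] at hmu'
    set W := w i + n - 1 with hW
    apply Nat.le_of_mul_le_mul_left _ hd
    have e1 : (t - 1) * (d * j) ≤ (t - 1) * (q + d) := Nat.mul_le_mul_left _ h8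
    have e2 : t * W * (q * ν + q) ≤ t * W * (d * a + d) := Nat.mul_le_mul_left _ h7
    have e3 : t * W * (q * ν + q) = W * q * (d + (t - ρ)) := by
      have : t * ν + t = d + (t - ρ) := by omega
      rw [← this]
      ring
    have e4 : q * t ≤ q * (W * (t - ρ)) := Nat.mul_le_mul_left _ hwi
    have e5 : t * W * d ≤ d * d := Nat.mul_le_mul_right _ (by omega)
    have e6 : (t - 1) * (q + d) + q + d = t * q + t * d := by
      obtain ⟨t', rfl⟩ : ∃ t', t = t' + 1 := ⟨t - 1, by omega⟩
      rw [Nat.add_sub_cancel]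
      ring
    have e7 : W * q * (d + (t - ρ)) = d * (q * W) + q * (W * (t - ρ)) := by ring
    have e8 : t * W * (d * a + d) = d * (t * W * a) + t * W * d := by ring
    have e9 : d * (q * W + (t - 1) * j) = d * (q * W) + (t - 1) * (d * j) := by ring
    have e10 : q * t = t * q := mul_comm _ _
    omega
  apply finish hP hn ht hFd hF0 hFm hν (E := E) (a₁ := a)
  · omega
  · intro i
    have h9 : F ^ a ∈ mI (P i) ^ (t * (w i + n - 1) * a) := by
      rw [pow_mul]
      exact Ideal.pow_mem_pow (hFm i) a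
    refine Ideal.pow_le_pow_right ?_ h9
    rw [← hq]
    have := key i
    omega
  · exact hda
  · intro L hL
    apply pf_vanish hP hn ht hFd hF0 hpf hFm hja _ hda _ hL
    · intro i
      rw [← hq]
      exact key i
    · rw [← hq]
      omega

end

end Pool.Agent.TH719.HHq
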